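import Pool.Agent.Lib.TDen.Diag

/-!
# The sum of the absolute values of the coefficients is at most the number of trees
-/

set_option autoImplicit false

namespace Pool.Agent.Lib.TDen.Diagram

open LaurentPolynomial Pool.Agent.Lib.MP_20e20b_gt

variable (D : Diagram)

/-- the part of the bracket that belongs to the states between `B` and the complement of `A`,
without the factors of the crossings in `A ∪ B` -/
noncomputable def br (A B : Finset D.E) : LaurentPolynomial ℤ :=
  ∑ S ∈ Finset.univ.filter (fun S : Finset D.E => B ⊆ S ∧ Disjoint A S),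
    T (∑ e ∈ D.rest A B, D.expo S e) * circ ^ (comps D.g S + comps D.h Sᶜ - 2)

/-- the states between `B` and the complement of `A` -/
def stt (A B : Finset D.E) : Finset (Finset D.E) :=
  Finset.univ.filter (fun S : Finset D.E => B ⊆ S ∧ Disjoint A S)

/-- the exponent of `circ` -/
noncomputable def kk (S : Finset D.E) : ℕ := comps D.g S + comps D.h Sᶜ - 2

variable {D}

lemma br_eq (A B : Finset D.E) :
    D.br A B = ∑ S ∈ D.stt A B, T (∑ e ∈ D.rest A B, D.expo S e) * circ ^ D.kk S := rfl

lemma mem_stt {A B S : Finset D.E} : S ∈ D.stt A B ↔ B ⊆ S ∧ Disjoint A S := by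
  simp [stt]

lemma rest_insL {A B : Finset D.E} {e : D.E} :
    D.rest (insert e A) B = (D.rest A B).erase e := by
  ext x; simp [rest]

lemma rest_insR {A B : Finset D.E} {e : D.E} :
    D.rest A (insert e B) = (D.rest A B).erase e := by
  ext x; simp [rest]

lemma expo_insert {S : Finset D.E} {e x : D.E} (hx : x ≠ e) :
    D.expo (insert e S) x = D.expo S x := by
  simp [expo, hx]

lemma mem_rest {A B : Finset D.E} {e : D.E} : e ∈ D.rest A B ↔ e ∉ A ∧ e ∉ B := by
  simp [rest]

lemma not_mem_of_stt {A B S : Finset D.E} {e : D.E} (h : S ∈ D.stt (insert e A) B) : e ∉ S :=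
  (Finset.disjoint_insert_left.1 (mem_stt.1 h).2).1

lemma br_ins {A B : Finset D.E} {e : D.E} (hA : e ∉ A) (hB : e ∉ B) :
    D.br A (insert e B) = ∑ S ∈ D.stt (insert e A) B,
      T (∑ x ∈ D.rest (insert e A) B, D.expo S x) * circ ^ D.kk (insert e S) := by
  rw [br_eq]
  symm
  refine Finset.sum_bij (fun S _ => insert e S) ?_ ?_ ?_ ?_
  · intro S hS
    have h := mem_stt.1 hS
    rw [mem_stt]
    refine ⟨Finset.insert_subset_insert e h.1, ?_⟩
    rw [Finset.disjoint_insert_right]
    exact ⟨hA, (Finset.disjoint_insert_left.1 h.2).2⟩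
  · intro S hS S' hS' h
    rw [← Finset.erase_insert (not_mem_of_stt hS), h, Finset.erase_insert (not_mem_of_stt hS')]
  · intro S hS
    have h := mem_stt.1 hS
    refine ⟨S.erase e, ?_, Finset.insert_erase (h.1 (Finset.mem_insert_self e B))⟩
    rw [mem_stt]
    refine ⟨?_, ?_⟩
    · intro x hx
      rw [Finset.mem_erase]
      exact ⟨fun hxe => hB (hxe ▸ hx), h.1 (Finset.mem_insert_of_mem hx)⟩
    · rw [Finset.disjoint_insert_left]
      exact ⟨Finset.notMem_erase e S, h.2.mono_right (Finset.erase_subset e S)⟩
  · intro S hS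
    rw [rest_insL, rest_insR]
    have : ∑ x ∈ (D.rest A B).erase e, D.expo (insert e S) x
        = ∑ x ∈ (D.rest A B).erase e, D.expo S x :=
      Finset.sum_congr rfl fun x hx => expo_insert (Finset.ne_of_mem_erase hx)
    rw [this]

lemma br_split {A B : Finset D.E} {e : D.E} (hA : e ∉ A) (hB : e ∉ B) (ε : ℤ)
    (hε : ε = if D.pos e = true then 1 else -1) :
    D.br A B = T ε * D.br A (insert e B) + T (-ε) * D.br (insert e A) B := by
  have he : e ∈ D.rest A B := mem_rest.2 ⟨hA, hB⟩
  rw [br_eq, ← Finset.sum_filter_add_sum_filter_not (D.stt A B) (fun S => e ∈ S)]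
  have h1 : (D.stt A B).filter (fun S => e ∈ S) = D.stt A (insert e B) := by
    ext S
    rw [Finset.mem_filter, mem_stt, mem_stt, Finset.insert_subset_iff]
    tauto
  have h2 : (D.stt A B).filter (fun S => ¬ e ∈ S) = D.stt (insert e A) B := by
    ext S
    rw [Finset.mem_filter, mem_stt, mem_stt, Finset.disjoint_insert_left]
    tauto
  rw [h1, h2, br_eq, br_eq, Finset.mul_sum, Finset.mul_sum]
  congr 1
  · refine Finset.sum_congr rfl fun S hS => ?_
    have h3 : e ∈ S := (mem_stt.1 hS).1 (Finset.mem_insert_self e B)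
    have h4 : D.expo S e = ε := by
      rw [hε]; simp [expo, h3]
    rw [rest_insR, ← Finset.add_sum_erase _ _ he, h4, T_add, mul_assoc]
  · refine Finset.sum_congr rfl fun S hS => ?_
    have h3 : e ∉ S := not_mem_of_stt hS
    have h4 : D.expo S e = -ε := by
      rw [hε]
      cases hp : D.pos e <;> simp [expo, h3, hp]
    rw [rest_insL, ← Finset.add_sum_erase _ _ he, h4, T_add, mul_assoc]

/-- `e` is a bridge of `(V, Aᶜ)` -/
lemma bridge_g {A : Finset D.E} {e : D.E} (hA : e ∉ A) (hc : comps D.g Aᶜ = 1)
    (hb : comps D.g (insert e A)ᶜ ≠ 1) {S : Finset D.E} (hS : Disjoint A S) (he : e ∉ S) :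
    comps D.g S = comps D.g (insert e S) + 1 ∧ comps D.h Sᶜ = comps D.h (insert e S)ᶜ := by
  have h1 : ¬ Conn D.g S (D.g e).1 (D.g e).2 := by
    intro h
    have hsub : S ⊆ (insert e A)ᶜ := by
      intro x hx
      rw [Finset.mem_compl, Finset.mem_insert]
      rintro (rfl | h')
      · exact he hx
      · exact Finset.disjoint_left.1 hS h' hx
    have h2 := comps_insert_of_conn D.g (h.mono hsub)
    have h3 : insert e (insert e A)ᶜ = Aᶜ := by
      ext x
      by_cases hx : x = e
      · subst hx; simp [hA]
      · simp [hx]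
    rw [h3, hc] at h2
    exact hb h2.symm
  have h2 := comps_insert_of_not_conn D.g h1
  have h3 := D.euler S
  have h4 := D.euler (insert e S)
  rw [Finset.card_insert_of_notMem he] at h4
  omega

/-- `e` is a bridge of `(F, Bᶜ)` -/
lemma bridge_h {B : Finset D.E} {e : D.E} (hB : e ∉ B) (hc : comps D.h Bᶜ = 1)
    (hb : comps D.h (insert e B)ᶜ ≠ 1) {S : Finset D.E} (hS : B ⊆ S) (he : e ∉ S) :
    comps D.g (insert e S) = comps D.g S ∧ comps D.h (insert e S)ᶜ = comps D.h Sᶜ + 1 := by
  have h0 : Sᶜ = insert e (insert e S)ᶜ := by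
    ext x
    by_cases hx : x = e
    · subst hx; simp [he]
    · simp [hx]
  have h1 : ¬ Conn D.h (insert e S)ᶜ (D.h e).1 (D.h e).2 := by
    intro h
    have hsub : (insert e S)ᶜ ⊆ (insert e B)ᶜ :=
      Finset.compl_subset_compl.2 (Finset.insert_subset_insert e hS)
    have h2 := comps_insert_of_conn D.h (h.mono hsub)
    have h3 : insert e (insert e B)ᶜ = Bᶜ := by
      ext x
      by_cases hx : x = e
      · subst hx; simp [hB]
      · simp [hx]
    rw [h3, hc] at h2
    exact hb h2.symm
  have h2 := comps_insert_of_not_conn D.h h1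
  rw [← h0] at h2
  have h3 := D.euler S
  have h4 := D.euler (insert e S)
  rw [Finset.card_insert_of_notMem he] at h4
  omega

lemma two_le (S : Finset D.E) : 2 ≤ comps D.g S + comps D.h Sᶜ := by
  have := D.nonemptyV
  have := D.nonemptyF
  have h1 := comps_pos D.g S
  have h2 := comps_pos D.h Sᶜ
  omega

lemma coefSum_neg_T_mul (n : ℤ) (X : LaurentPolynomial ℤ) : coefSum (-T n * X) ≤ coefSum X := by
  refine (coefSum_mul _ _).trans ?_
  have h := (coefSum_neg (T n : LaurentPolynomial ℤ)).trans (coefSum_T n)
  calc _ ≤ 1 * coefSum X := Nat.mul_le_mul_right _ h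
    _ = _ := one_mul _

lemma coefSum_T_mul (n : ℤ) (X : LaurentPolynomial ℤ) : coefSum (T n * X) ≤ coefSum X := by
  refine (coefSum_mul _ _).trans ?_
  calc _ ≤ 1 * coefSum X := Nat.mul_le_mul_right _ (coefSum_T n)
    _ = _ := one_mul _

lemma coefSum_br_aux (n : ℕ) : ∀ A B : Finset D.E, D.Good A B → (D.rest A B).card = n →
    coefSum (D.br A B) ≤ D.N A B := by
  induction n with
  | zero =>
    intro A B h hn
    have hr : D.rest A B = ∅ := Finset.card_eq_zero.1 hn
    have hcov : ∀ x, x ∈ A ∨ x ∈ B := by
      intro x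
      by_contra hx
      push Not at hx
      have : x ∈ D.rest A B := mem_rest.2 hx
      rw [hr] at this
      exact absurd this (Finset.notMem_empty x)
    have hAB : Aᶜ = B := by
      ext x
      rw [Finset.mem_compl]
      constructor
      · intro hx
        exact (hcov x).resolve_left hx
      · intro hx hxA
        exact Finset.disjoint_left.1 h.1 hxA hx
    have hst : D.stt A B = {B} := by
      ext S
      rw [mem_stt, Finset.mem_singleton]
      constructor
      · rintro ⟨h1, h2⟩
        apply Finset.Subset.antisymm _ h1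
        intro x hx
        exact (hcov x).resolve_left fun hxA => Finset.disjoint_left.1 h2 hxA hx
      · rintro rfl
        exact ⟨Finset.Subset.refl _, h.1⟩
    have hg : comps D.g B = 1 := by rw [← hAB]; exact h.2.1
    rw [br_eq, hst, Finset.sum_singleton, hr, Finset.sum_empty]
    have hk : D.kk B = 0 := by
      rw [kk, hg, h.2.2]
    rw [hk, pow_zero, mul_one]
    refine (coefSum_T 0).trans ?_
    rw [N, Nat.one_le_iff_ne_zero, Finset.card_ne_zero]
    exact ⟨B, D.mem_trees.2 ⟨Finset.Subset.refl _, h.1, hg, h.2.2⟩⟩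
  | succ n ih =>
    intro A B h hn
    obtain ⟨e, he⟩ : (D.rest A B).Nonempty := by
      rw [← Finset.card_pos, hn]; omega
    obtain ⟨hA, hB⟩ := mem_rest.1 he
    have hcL : (D.rest (insert e A) B).card = n := by
      rw [rest_insL, Finset.card_erase_of_mem he, hn]; rfl
    have hcR : (D.rest A (insert e B)).card = n := by
      rw [rest_insR, Finset.card_erase_of_mem he, hn]; rfl
    have hN := D.N_split hA hB
    have hdL : Disjoint (insert e A) B := by
      rw [Finset.disjoint_insert_left]; exact ⟨hB, h.1⟩
    have hdR : Disjoint A (insert e B) := by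
      rw [Finset.disjoint_insert_right]; exact ⟨hA, h.1⟩
    set ε : ℤ := if D.pos e = true then 1 else -1 with hε
    have hsp := br_split hA hB ε hε
    have hc1 : (T (-ε) : LaurentPolynomial ℤ) * circ + T ε = - T (-3 * ε) := by
      rw [hε]
      split_ifs
      · exact circ_neg
      · simpa using circ_pos
    have hc2 : (T ε : LaurentPolynomial ℤ) * circ + T (-ε) = - T (3 * ε) := by
      rw [hε]
      split_ifs
      · simpa using circ_pos
      · simpa using circ_neg
    by_cases hb : comps D.g (insert e A)ᶜ = 1
    · by_cases hb' : comps D.h (insert e B)ᶜ = 1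
      · -- both good
        have i1 := ih (insert e A) B ⟨hdL, hb, h.2.2⟩ hcL
        have i2 := ih A (insert e B) ⟨hdR, h.2.1, hb'⟩ hcR
        rw [hsp, hN]
        refine (coefSum_add _ _).trans ?_
        have j1 := coefSum_T_mul ε (D.br A (insert e B))
        have j2 := coefSum_T_mul (-ε) (D.br (insert e A) B)
        omega
      · -- `e` is a bridge of `(F, Bᶜ)`
        have key : D.br A (insert e B) = circ * D.br (insert e A) B := by
          rw [br_ins hA hB, br_eq (insert e A) B, Finset.mul_sum]
          refine Finset.sum_congr rfl fun S hS => ?_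
          have hb2 := bridge_h hB h.2.2 hb' (mem_stt.1 hS).1 (not_mem_of_stt hS)
          have h2 := two_le S
          have hk : D.kk (insert e S) = D.kk S + 1 := by
            rw [kk, kk, hb2.1, hb2.2]; omega
          rw [hk, pow_succ]
          ring
        have hgood : D.Good (insert e A) B := by
          refine ⟨hdL, hb, h.2.2⟩
        have i1 := ih (insert e A) B hgood hcL
        have e1 : D.br A B = -T (3 * ε) * D.br (insert e A) B := by
          rw [hsp, key, ← hc2]; ring
        rw [e1, hN]
        have j1 := coefSum_neg_T_mul (3 * ε) (D.br (insert e A) B)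
        omega
    · -- `e` is a bridge of `(V, Aᶜ)`
      have key : D.br (insert e A) B = circ * D.br A (insert e B) := by
        rw [br_ins hA hB, br_eq (insert e A) B, Finset.mul_sum]
        refine Finset.sum_congr rfl fun S hS => ?_
        have hS2 : Disjoint A S := (Finset.disjoint_insert_left.1 (mem_stt.1 hS).2).2
        have hb2 := bridge_g hA h.2.1 hb hS2 (not_mem_of_stt hS)
        have h2 := two_le (D := D) (insert e S)
        have hk : D.kk S = D.kk (insert e S) + 1 := by
          rw [kk, kk, hb2.1, hb2.2]; omega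
        rw [hk, pow_succ]
        ring
      have hgood : D.Good A (insert e B) := by
        refine ⟨hdR, h.2.1, ?_⟩
        have hb2 := bridge_g hA h.2.1 hb h.1 hB
        rw [← hb2.2]; exact h.2.2
      have i1 := ih A (insert e B) hgood hcR
      have e1 : D.br A B = -T (-3 * ε) * D.br A (insert e B) := by
        rw [hsp, key, ← hc1]; ring
      rw [e1, hN]
      have j1 := coefSum_neg_T_mul (-3 * ε) (D.br A (insert e B))
      omega

variable (D)

/-- PROOF: induction on `(D.rest A B).card`. If it is `0`, the only state is `B = Aᶜ`, and the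
exponent of `circ` is `0`. Otherwise take `e` in the rest. Let `ε = ±1`. In any case
`br A B = T (-ε) * br (insert e A) B + T ε * br A (insert e B)` (split the states by `e ∈ S`).
If both `(insert e A, B)` and `(A, insert e B)` are good: triangle inequality and `N_split`.
If `comps g (insert e A)ᶜ ≠ 1` (`e` is a bridge of `(V, Aᶜ)`): for every `S` with `e ∉ S`,
`Disjoint A S` the ends of `e` are not connected in `S`, so `comps g S = comps g (insert e S) + 1`
and by Euler's formula `comps h Sᶜ = comps h (insert e S)ᶜ`; hence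
`br (insert e A) B = circ * br A (insert e B)` and `T (-ε) * circ + T ε = - T (-3 ε)`; also
`N (insert e A) B = 0`, and `(A, insert e B)` is good. The case `comps h (insert e B)ᶜ ≠ 1` is
the same with the colours exchanged. -/
theorem coefSum_br {A B : Finset D.E} (h : D.Good A B) : coefSum (D.br A B) ≤ D.N A B :=
  coefSum_br_aux _ A B h rfl

theorem coefSum_bracket : coefSum D.bracket ≤ D.N ∅ ∅ := by
  have h := D.coefSum_br D.good_empty
  have e : D.br ∅ ∅ = D.bracket := by
    rw [br_eq, bracket]
    have h1 : D.stt ∅ ∅ = Finset.univ := by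
      ext S; simp [mem_stt]
    have h2 : D.rest ∅ ∅ = Finset.univ := by
      ext x; simp [mem_rest]
    rw [h1, h2]
    rfl
  rwa [e] at h

end Pool.Agent.Lib.TDen.Diagram
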