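import Pool.Agent.Lib.TDen.Diag

/-!
# A component of degree at most three
-/

set_option autoImplicit false

namespace Pool.Agent.Lib.TDen

open Classical in
/-- the number of ends in `c` of the edges of `R` -/
noncomputable def degR {V E : Type} (g : E → V × V) (B R : Finset E) (c : Comp g B) : ℕ :=
  ∑ e ∈ R, ((if (Quot.mk (Rel g B) (g e).1 : Comp g B) = c then 1 else 0)
    + (if (Quot.mk (Rel g B) (g e).2 : Comp g B) = c then 1 else 0))

/-- the sum of all degrees -/
lemma sum_degR {V E : Type} (g : E → V × V) (B R : Finset E) [Fintype (Comp g B)] :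
    ∑ c : Comp g B, degR g B R c = 2 * R.card := by
  classical
  unfold degR
  rw [Finset.sum_comm]
  have h1 : ∀ e ∈ R, ∑ c : Comp g B,
      ((if (Quot.mk (Rel g B) (g e).1 : Comp g B) = c then 1 else 0)
        + (if (Quot.mk (Rel g B) (g e).2 : Comp g B) = c then 1 else 0)) = 2 := by
    intro e _
    rw [Finset.sum_add_distrib, Finset.sum_ite_eq, Finset.sum_ite_eq]
    simp
  rw [Finset.sum_congr rfl h1]
  simp [mul_comm]

/-- if all degrees are at least four -/
lemma four_comps_le {V E : Type} [Finite V] (g : E → V × V) (B R : Finset E)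
    (h : ∀ c : Comp g B, 4 ≤ degR g B R c) : 4 * comps g B ≤ 2 * R.card := by
  classical
  have : Fintype (Comp g B) := Fintype.ofFinite _
  rw [← sum_degR g B R]
  unfold comps
  rw [Nat.card_eq_fintype_card]
  calc 4 * Fintype.card (Comp g B) = ∑ _c : Comp g B, 4 := by simp [mul_comm]
    _ ≤ ∑ c : Comp g B, degR g B R c := Finset.sum_le_sum fun c _ => h c

/-- PROOF: `comps g B + |B| = |V|` (Euler for `S = B`), `comps h A + |V| = |Aᶜ| + 2` (Euler for
`S = Aᶜ`), so `comps g B + comps h A = |R| + 2`; the sum of all degrees on each side is `2 |R|`.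
If all degrees were at least `4` then `4 (|R| + 2) ≤ 4 |R|`. -/
theorem exists_degR_le_three (D : Diagram) {A B : Finset D.E} (hG : D.Good A B) :
    (∃ c : Comp D.g B, degR D.g B (D.rest A B) c ≤ 3) ∨
    (∃ c : Comp D.h A, degR D.h A (D.rest A B) c ≤ 3) := by
  classical
  by_contra hcon
  push Not at hcon
  obtain ⟨h1, h2⟩ := hcon
  have e1 := four_comps_le D.g B (D.rest A B) (fun c => h1 c)
  have e2 := four_comps_le D.h A (D.rest A B) (fun c => h2 c)
  obtain ⟨hd, hg, hh⟩ := hG
  have e3 := D.euler B
  have e4 := D.euler Aᶜ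
  rw [compl_compl, hg] at e4
  rw [hh] at e3
  have e5 : (Aᶜ).card = (D.rest A B).card + B.card := by
    have hsub : B ⊆ Aᶜ := by
      intro x hx
      rw [Finset.mem_compl]
      exact fun hA => (Finset.disjoint_left.1 hd hA) hx
    have : D.rest A B = Aᶜ \ B := by
      unfold Diagram.rest
      ext x
      simp
    rw [this, Finset.card_sdiff_add_card_eq_card hsub]
  omega

end Pool.Agent.Lib.TDen
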