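import Pool.Agent.Lib.TDen.Graph
import Pool.Agent.Lib.MP_20e20b_gt.Num

/-!
# Connected link diagrams through their checkerboard colouring
-/

set_option autoImplicit false

namespace Pool.Agent.Lib.TDen

open LaurentPolynomial Pool.Agent.Lib.MP_20e20b_gt

/-- A connected link diagram on the sphere, given by its checkerboard colouring: `E` is the set of
crossings, `V` the set of shaded regions, `F` the set of unshaded regions; `g e` are the two
shaded regions and `h e` the two unshaded regions at the crossing `e`; `pos e` says that the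
smoothing of `e` that joins the two shaded regions is the `A`-smoothing. A state is a set `S` of
crossings (the crossings smoothed so that the shaded regions are joined); its shaded regions are
the components of the graph `(V, S)`, its unshaded regions those of `(F, Sᶜ)`. The conditions are
Euler's formula for the plane graph `(V, S)`, whose faces are the unshaded regions of the state,
and the connectedness of the diagram. -/
structure Diagram where
  V : Type
  F : Type
  E : Type
  fV : Fintype V
  fF : Fintype F
  fE : Fintype E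
  dE : DecidableEq E
  g : E → V × V
  h : E → F × F
  pos : E → Bool
  conn : comps g Finset.univ = 1
  euler : ∀ S : Finset E, Fintype.card V + comps h Sᶜ = S.card + comps g S + 1

attribute [instance] Diagram.fV Diagram.fF Diagram.fE Diagram.dE

namespace Diagram

/-- the number of crossings -/
def crossings (D : Diagram) : ℕ := Fintype.card D.E

/-- the exponent of `A` that the crossing `e` contributes to the state `S` -/
def expo (D : Diagram) (S : Finset D.E) (e : D.E) : ℤ :=
  if (e ∈ S ↔ D.pos e = true) then 1 else -1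

/-- the Kauffman bracket (normalised by `⟨unknot⟩ = 1`): the sum over all states of
`A^(a - b) (-A^2 - A^(-2))^(circles - 1)`; a state with `k` shaded and `k'` unshaded regions has
`k + k' - 1` circles -/
noncomputable def bracket (D : Diagram) : LaurentPolynomial ℤ :=
  ∑ S : Finset D.E, T (∑ e, D.expo S e) * circ ^ (comps D.g S + comps D.h Sᶜ - 2)

/-- the average absolute coefficient of the Jones polynomial `(-A)^(-3w) * bracket`,
`t = A^(-4)` -/
noncomputable def mu (D : Diagram) : ℝ :=
  (coefSum D.bracket : ℝ) / ((spanA D.bracket : ℝ) / 4 + 1)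

/-- the diagram with the two colours exchanged -/
def dual (D : Diagram) : Diagram where
  V := D.F
  F := D.V
  E := D.E
  fV := D.fF
  fF := D.fV
  fE := D.fE
  dE := D.dE
  g := D.h
  h := D.g
  pos := fun e => !(D.pos e)
  conn := by
    have h0 := D.euler ∅
    rw [comps_empty, Finset.compl_empty, Finset.card_empty] at h0
    omega
  euler := by
    intro S
    have h1 := D.euler Sᶜ
    have h2 := D.euler Finset.univ
    rw [Finset.compl_univ, comps_empty, D.conn, Finset.card_univ] at h2
    rw [compl_compl] at h1
    have h3 : Sᶜ.card + S.card = Fintype.card D.E := by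
      rw [Finset.card_compl]
      have := Finset.card_le_univ S
      omega
    omega

variable (D : Diagram)

lemma nonemptyV : Nonempty D.V := by
  by_contra hcon
  rw [not_nonempty_iff] at hcon
  have h1 := D.conn
  have h2 : IsEmpty (Comp D.g (Finset.univ : Finset D.E)) := ⟨fun x => by
    induction x using Quot.ind with
    | _ v => exact hcon.false v⟩
  unfold comps at h1
  rw [Nat.card_of_isEmpty] at h1
  exact absurd h1 (by norm_num)

lemma nonemptyF : Nonempty D.F := nonemptyV D.dual

/-- the states with one circle that contain `B` and avoid `A` (the spanning trees of the graph of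
shaded regions) -/
noncomputable def trees (A B : Finset D.E) : Finset (Finset D.E) := by
  classical
  exact Finset.univ.filter fun S =>
    B ⊆ S ∧ Disjoint A S ∧ comps D.g S = 1 ∧ comps D.h Sᶜ = 1

/-- their number -/
noncomputable def N (A B : Finset D.E) : ℕ := (D.trees A B).card

lemma mem_trees {A B S : Finset D.E} :
    S ∈ D.trees A B ↔ B ⊆ S ∧ Disjoint A S ∧ comps D.g S = 1 ∧ comps D.h Sᶜ = 1 := by
  classical
  unfold trees
  rw [Finset.mem_filter]
  exact ⟨fun h => h.2, fun h => ⟨Finset.mem_univ _, h⟩⟩

/-- the rest -/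
def rest (A B : Finset D.E) : Finset D.E := (A ∪ B)ᶜ

/-- `B` is a forest, and so is `A` in the graph of unshaded regions -/
def Good (A B : Finset D.E) : Prop :=
  Disjoint A B ∧ comps D.g Aᶜ = 1 ∧ comps D.h Bᶜ = 1

lemma good_empty : D.Good ∅ ∅ := by
  refine ⟨Finset.disjoint_empty_left _, ?_, ?_⟩
  · rw [Finset.compl_empty]
    exact D.conn
  · rw [Finset.compl_empty]
    exact D.dual.conn

lemma rest_dual (A B : Finset D.E) : D.dual.rest B A = D.rest A B := by
  change (B ∪ A)ᶜ = (A ∪ B)ᶜ
  rw [Finset.union_comm]

lemma Good.dual {D : Diagram} {A B : Finset D.E} (h : D.Good A B) : D.dual.Good B A :=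
  ⟨h.1.symm, h.2.2, h.2.1⟩

lemma mem_trees_dual {A B S : Finset D.E} : S ∈ D.dual.trees B A ↔ Sᶜ ∈ D.trees A B := by
  have h1 : S ∈ D.dual.trees B A ↔
      A ⊆ S ∧ Disjoint B S ∧ comps D.h S = 1 ∧ comps D.g Sᶜ = 1 := mem_trees D.dual
  have h2 : Sᶜ ∈ D.trees A B ↔
      B ⊆ Sᶜ ∧ Disjoint A Sᶜ ∧ comps D.g Sᶜ = 1 ∧ comps D.h Sᶜᶜ = 1 := mem_trees D
  have h3 : B ⊆ Sᶜ ↔ Disjoint B S := Finset.subset_compl_iff_disjoint_right
  have h4 : Disjoint A Sᶜ ↔ A ⊆ S := by
    rw [← Finset.subset_compl_iff_disjoint_right, compl_compl]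
  rw [compl_compl, h3, h4] at h2
  rw [h1, h2]
  tauto

/-- exchanging the colours -/
lemma N_dual (A B : Finset D.E) : D.dual.N B A = D.N A B := by
  change Finset.card (α := Finset D.E) (D.dual.trees B A) = (D.trees A B).card
  refine Finset.card_bij (fun (S : Finset D.E) _ => Sᶜ) ?_ ?_ ?_
  · intro S hS
    exact (D.mem_trees_dual).1 hS
  · intro S _ S' _ h
    exact compl_injective h
  · intro S hS
    refine ⟨Sᶜ, (D.mem_trees_dual).2 ?_, compl_compl S⟩
    rw [compl_compl]
    exact hS

/-- if there is a tree then the pair is good -/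
lemma good_of_N_ne_zero {A B : Finset D.E} (h : D.N A B ≠ 0) : D.Good A B := by
  have := D.nonemptyV
  have := D.nonemptyF
  unfold N at h
  obtain ⟨S, hS⟩ := Finset.card_ne_zero.1 h
  rw [mem_trees] at hS
  obtain ⟨h1, h2, h3, h4⟩ := hS
  refine ⟨h2.mono_right h1, ?_, ?_⟩
  · have h5 : S ⊆ Aᶜ := Finset.subset_compl_iff_disjoint_left.2 h2
    have h6 := comps_mono D.g h5
    have h7 := comps_pos D.g Aᶜ
    omega
  · have h5 : Sᶜ ⊆ Bᶜ := Finset.compl_subset_compl.2 h1
    have h6 := comps_mono D.h h5
    have h7 := comps_pos D.h Bᶜ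
    omega

/-- deletion and contraction -/
lemma N_split {A B : Finset D.E} {e : D.E} (hA : e ∉ A) (hB : e ∉ B) :
    D.N A B = D.N (insert e A) B + D.N A (insert e B) := by
  classical
  unfold N
  rw [← Finset.card_union_of_disjoint]
  · congr 1
    ext S
    rw [Finset.mem_union, mem_trees, mem_trees, mem_trees, Finset.disjoint_insert_left,
      Finset.insert_subset_iff]
    by_cases he : e ∈ S
    · constructor
      · rintro ⟨h1, h2, h3⟩
        exact Or.inr ⟨⟨he, h1⟩, h2, h3⟩
      · rintro (⟨h1, ⟨h2, -⟩, -⟩ | ⟨⟨-, h1⟩, h2, h3⟩)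
        · exact absurd he h2
        · exact ⟨h1, h2, h3⟩
    · constructor
      · rintro ⟨h1, h2, h3⟩
        exact Or.inl ⟨h1, ⟨he, h2⟩, h3⟩
      · rintro (⟨h1, ⟨-, h2⟩, h3⟩ | ⟨⟨h1, -⟩, -⟩)
        · exact ⟨h1, h2, h3⟩
        · exact absurd h1 he
  · rw [Finset.disjoint_left]
    intro S h1 h2
    rw [mem_trees, Finset.disjoint_insert_left] at h1
    rw [mem_trees, Finset.insert_subset_iff] at h2
    exact h1.2.1.1 h2.1.1

/-- the number of edges of a tree -/
lemma card_of_mem {A B S : Finset D.E} (h : S ∈ D.trees A B) :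
    S.card + 1 = Fintype.card D.V := by
  rw [mem_trees] at h
  have h1 := D.euler S
  rw [h.2.2.1, h.2.2.2] at h1
  omega

/-- the binomial bound: the trees in question differ in subsets of the rest with a fixed number
of elements -/
lemma N_le_choose (A B : Finset D.E) :
    ∃ k, D.N A B ≤ ((D.rest A B).card).choose k := by
  refine ⟨Fintype.card D.V - 1 - B.card, ?_⟩
  rw [← Finset.card_powersetCard]
  unfold N
  refine Finset.card_le_card_of_injOn (fun S => S \ B) ?_ ?_
  · intro S hS
    have hS' : S ∈ D.trees A B := hS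
    have h1 := D.card_of_mem hS'
    rw [mem_trees] at hS'
    rw [Finset.mem_coe, Finset.mem_powersetCard]
    constructor
    · intro e he
      rw [Finset.mem_sdiff] at he
      unfold rest
      rw [Finset.mem_compl, Finset.mem_union, not_or]
      exact ⟨fun h => (Finset.disjoint_left.1 hS'.2.1) h he.1, he.2⟩
    · rw [Finset.card_sdiff_of_subset hS'.1]
      omega
  · intro S hS S' hS' h
    have h1 : S ∈ D.trees A B := hS
    have h2 : S' ∈ D.trees A B := hS'
    rw [mem_trees] at h1 h2
    have h3 : S \ B = S' \ B := h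
    rw [← Finset.sdiff_union_of_subset h1.1, ← Finset.sdiff_union_of_subset h2.1, h3]

end Diagram

end Pool.Agent.Lib.TDen
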