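import Pool.Agent.Lib.TDen.NumA

/-!
# Numerical facts
-/

set_option autoImplicit false

namespace Pool.Agent.Lib.TDen

open Real Pool.Agent.Lib.MP_20e20b_gt

private lemma log_six_le : Real.log 6 ≤ 1.7941 := by
  have h1 : (17 : ℕ) * Real.log 6 ≤ (44 : ℕ) * Real.log 2 := by
    rw [← Real.log_pow, ← Real.log_pow]
    exact Real.log_le_log (by norm_num) (by norm_num)
  have h2 := Real.log_two_lt_d9
  push_cast at h1
  linarith

private lemma log_delta_ge : 0.45 ≤ Real.log (3657 / 2000) := by
  have h := Real.one_sub_inv_le_log_of_pos (show (0 : ℝ) < 3657 / 2000 by norm_num)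
  have h2 : (0.45 : ℝ) ≤ 1 - (3657 / 2000 : ℝ)⁻¹ := by norm_num
  exact h2.trans h

/-- Q1 for at most 30 crossings -/
lemma num_thirty {N : ℕ} (h1 : 1 ≤ N) (h2 : N ≤ 30) {s : ℝ} (hs : 0 < s)
    (h3 : N ≤ 2 → s ≤ N) (h4 : ∀ m : ℕ, N = m + 3 →
      s * (3657 / 2000 : ℝ) ≤ 6 * (3657 / 2000 : ℝ) ^ m) :
    2 * π * Real.log s / N ≤ vOct := by
  have hN : (0 : ℝ) < N := by exact_mod_cast h1
  have hv := vOct_gt
  have hπ := Real.pi_lt_d4
  have hπ0 := Real.pi_pos
  rw [div_le_iff₀ hN]
  rcases Nat.lt_or_ge N 3 with h | h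
  · have hs2 : s ≤ N := h3 (by omega)
    have hl : Real.log s ≤ (N : ℝ) - 1 := (Real.log_le_sub_one_of_pos hs).trans (by linarith)
    rcases (show N = 1 ∨ N = 2 by omega) with rfl | rfl
    · have hl' : Real.log s ≤ 0 := by
        push_cast at hl
        linarith
      have : 2 * π * Real.log s ≤ 0 := mul_nonpos_of_nonneg_of_nonpos (by positivity) hl'
      push_cast
      linarith
    · have hl' : Real.log s ≤ Real.log 2 := Real.log_le_log hs (by exact_mod_cast hs2)
      have h5 := Real.log_two_lt_d9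
      have h6 : 2 * π * Real.log s ≤ 2 * 3.1416 * 0.6932 := by
        have h7 : Real.log s ≤ 0.6932 := by linarith
        calc 2 * π * Real.log s ≤ 2 * π * 0.6932 := by
              apply mul_le_mul_of_nonneg_left h7 (by positivity)
          _ ≤ 2 * 3.1416 * 0.6932 := by linarith
      push_cast
      linarith
  · obtain ⟨m, rfl⟩ : ∃ m, N = m + 3 := ⟨N - 3, by omega⟩
    have h5 := h4 m rfl
    have hδ : (0 : ℝ) < 3657 / 2000 := by norm_num
    have h6 : Real.log s + Real.log (3657 / 2000) ≤ Real.log 6 + m * Real.log (3657 / 2000) := by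
      rw [← Real.log_mul hs.ne' hδ.ne', ← Real.log_pow, ← Real.log_mul (by norm_num)
        (pow_pos hδ m).ne']
      exact Real.log_le_log (by positivity) h5
    have h7 := log_delta_le
    have h8 := log_delta_ge
    have h9 := log_six_le
    have hm0 : (0 : ℝ) ≤ m := Nat.cast_nonneg m
    have hm : (m : ℝ) ≤ 27 := by exact_mod_cast (by omega : m ≤ 27)
    have h10 : Real.log s ≤ 1.7941 - 0.45 + m * 0.60352 ∧
        (1 ≤ m → Real.log s ≤ 1.7941 + (m - 1) * 0.60352) := by
      constructor
      · have : (m : ℝ) * Real.log (3657 / 2000) ≤ m * 0.60352 :=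
          mul_le_mul_of_nonneg_left h7 hm0
        linarith
      · intro hm1
        have hm1' : (0 : ℝ) ≤ m - 1 := by
          have : (1 : ℝ) ≤ m := by exact_mod_cast hm1
          linarith
        have : ((m : ℝ) - 1) * Real.log (3657 / 2000) ≤ (m - 1) * 0.60352 :=
          mul_le_mul_of_nonneg_left h7 hm1'
        linarith
    have key : ∀ B : ℝ, 0 ≤ B → Real.log s ≤ B → 2 * π * Real.log s ≤ 6.2832 * B := by
      intro B hB hlog
      calc 2 * π * Real.log s ≤ 2 * π * B := mul_le_mul_of_nonneg_left hlog (by positivity)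
        _ ≤ 6.2832 * B := mul_le_mul_of_nonneg_right (by linarith) hB
    have hvN : (3.663 : ℝ) * ((m : ℝ) + 3) ≤ vOct * ((m : ℝ) + 3) :=
      mul_le_mul_of_nonneg_right hv.le (by linarith)
    push_cast
    refine le_trans ?_ hvN
    rcases Nat.eq_zero_or_pos m with h11 | h11
    · subst h11
      have h12 := key (1.7941 - 0.45) (by norm_num) (by
        have := h10.1
        push_cast at this
        linarith)
      push_cast
      linarith
    · have hm1 : (1 : ℝ) ≤ m := by exact_mod_cast h11
      have h12 := key (1.7941 + (m - 1) * 0.60352) (by nlinarith) (h10.2 h11)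
      linarith

end Pool.Agent.Lib.TDen
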