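import Pool.Agent.Lib.TDen.NumA

/-!
# Numerical facts
-/

set_option autoImplicit false

namespace Pool.Agent.Lib.TDen

open Real Pool.Agent.Lib.MP_20e20b_gt

private lemma numC_key {N : ℕ} (h4 : 4 ≤ N) (h2 : N ≤ 300) :
    0.12905 * (N : ℝ) - 15.168 ≤ 6.2832 * (Real.log (N + 1) - Real.log 6) := by
  have hN4 : (4 : ℝ) ≤ N := by exact_mod_cast h4
  have hlog2 : (0.6931 : ℝ) ≤ Real.log 2 := by
    have := Real.log_two_gt_d9
    linarith
  have hsub : Real.log (N + 1) - Real.log 6 = Real.log (((N : ℝ) + 1) / 6) := by
    rw [Real.log_div (by positivity) (by norm_num)]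
  rw [hsub]
  rcases le_or_gt N 4 with h | h
  · have hN : N = 4 := by omega
    subst hN
    have h5 := Real.one_sub_inv_le_log_of_pos (x := ((4 : ℕ) + 1 : ℝ) / 6) (by norm_num)
    have h6 : (-0.2 : ℝ) ≤ Real.log (((4 : ℕ) + 1 : ℝ) / 6) := by
      refine le_trans ?_ h5
      norm_num
    push_cast at h6 ⊢
    linarith
  · have hN5 : (5 : ℝ) ≤ N := by exact_mod_cast h
    rcases le_or_gt N 117 with h7 | h7
    · have h8 : (N : ℝ) ≤ 117 := by exact_mod_cast h7
      have h9 : 0 ≤ Real.log (((N : ℝ) + 1) / 6) := by
        apply Real.log_nonneg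
        rw [le_div_iff₀ (by norm_num)]
        linarith
      linarith
    · have hN118 : (118 : ℝ) ≤ N := by exact_mod_cast h7
      rcases le_or_gt N 250 with h10 | h10
      · have h8 : (N : ℝ) ≤ 250 := by exact_mod_cast h10
        have h9 : Real.log ((2 : ℝ) ^ 4) ≤ Real.log (((N : ℝ) + 1) / 6) := by
          apply Real.log_le_log (by norm_num)
          rw [le_div_iff₀ (by norm_num)]
          linarith
        rw [Real.log_pow] at h9
        push_cast at h9
        linarith
      · have hN251 : (251 : ℝ) ≤ N := by exact_mod_cast h10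
        rcases le_or_gt N 275 with h11 | h11
        · have h8 : (N : ℝ) ≤ 275 := by exact_mod_cast h11
          have h9 : Real.log ((2 : ℝ) ^ 5) ≤ Real.log (((N : ℝ) + 1) / 6) := by
            apply Real.log_le_log (by norm_num)
            rw [le_div_iff₀ (by norm_num)]
            linarith
          rw [Real.log_pow] at h9
          push_cast at h9
          linarith
        · have hN276 : (276 : ℝ) ≤ N := by exact_mod_cast h11
          have h8 : (N : ℝ) ≤ 300 := by exact_mod_cast h2
          have h9 : Real.log ((2 : ℝ) ^ 11) ≤ Real.log ((((N : ℝ) + 1) / 6) ^ 2) := by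
            apply Real.log_le_log (by norm_num)
            have h12 : (46 : ℝ) ≤ ((N : ℝ) + 1) / 6 := by
              rw [le_div_iff₀ (by norm_num)]
              linarith
            nlinarith
          rw [Real.log_pow, Real.log_pow] at h9
          push_cast at h9
          linarith

/-- the case of diagrams whose Jones polynomial has span equal to the number of crossings -/
lemma num_alternating {N : ℕ} (h1 : 1 ≤ N) (h2 : N ≤ 300) {s : ℝ} (hs : 0 < s)
    (h3 : N ≤ 2 → s ≤ N) (h4 : ∀ m : ℕ, N = m + 3 →
      s * (3657 / 2000 : ℝ) ≤ 6 * (3657 / 2000 : ℝ) ^ m) :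
    2 * π * Real.log (s / (N + 1)) / N ≤ vOct := by
  have hv := vOct_gt
  have hd := log_delta_le
  have hpi := Real.pi_lt_d4
  have hpi0 := Real.pi_pos
  have hN0 : (0 : ℝ) < N := by exact_mod_cast h1
  have hmain : 2 * π * Real.log (s / (N + 1)) ≤ vOct * N := by
    by_cases hL : Real.log (s / (N + 1)) ≤ 0
    · have h5 : 2 * π * Real.log (s / (N + 1)) ≤ 0 :=
        mul_nonpos_of_nonneg_of_nonpos (by positivity) hL
      have h6 : 0 ≤ vOct * N := mul_nonneg (by linarith) hN0.le
      linarith
    · push Not at hL
      have hbig : (N : ℝ) + 1 < s := by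
        by_contra hcon
        push Not at hcon
        have : Real.log (s / (N + 1)) ≤ 0 := by
          apply Real.log_nonpos (by positivity)
          rw [div_le_one (by positivity)]
          exact hcon
        linarith
      have hN3 : 3 ≤ N := by
        by_contra hcon
        have h5 : s ≤ N := h3 (by omega)
        linarith
      obtain ⟨m, hm⟩ : ∃ m, N = m + 3 := ⟨N - 3, by omega⟩
      have h5 := h4 m hm
      rcases Nat.eq_zero_or_pos m with h0 | h0
      · exfalso
        subst h0
        have h6 : (N : ℝ) = 3 := by
          rw [hm]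
          norm_num
        rw [h6] at hbig
        norm_num at h5
        linarith
      · obtain ⟨k, rfl⟩ : ∃ k, m = k + 1 := ⟨m - 1, by omega⟩
        have h6 : s ≤ 6 * (3657 / 2000 : ℝ) ^ k := by
          have h7 : s * (3657 / 2000 : ℝ) ≤ (6 * (3657 / 2000 : ℝ) ^ k) * (3657 / 2000 : ℝ) := by
            calc s * (3657 / 2000 : ℝ) ≤ 6 * (3657 / 2000 : ℝ) ^ (k + 1) := h5
              _ = (6 * (3657 / 2000 : ℝ) ^ k) * (3657 / 2000 : ℝ) := by ring
          exact le_of_mul_le_mul_right h7 (by norm_num)
        have h7 : Real.log s ≤ Real.log 6 + k * Real.log (3657 / 2000) := by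
          calc Real.log s ≤ Real.log (6 * (3657 / 2000 : ℝ) ^ k) := Real.log_le_log hs h6
            _ = Real.log 6 + k * Real.log (3657 / 2000) := by
              rw [Real.log_mul (by norm_num) (by positivity), Real.log_pow]
        have hk : (k : ℝ) = N - 4 := by
          rw [hm]
          push_cast
          ring
        have hk0 : (0 : ℝ) ≤ k := Nat.cast_nonneg k
        have h8 : Real.log s ≤ Real.log 6 + (N - 4) * 0.60352 := by
          have : (k : ℝ) * Real.log (3657 / 2000) ≤ k * 0.60352 :=
            mul_le_mul_of_nonneg_left hd hk0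
          rw [← hk]
          linarith
        have h9 : Real.log (s / (N + 1)) = Real.log s - Real.log (N + 1) := by
          rw [Real.log_div hs.ne' (by positivity)]
        have hkey := numC_key (N := N) (by omega) h2
        have h10 : 2 * π * Real.log (s / (N + 1)) ≤ 6.2832 * Real.log (s / (N + 1)) := by
          apply mul_le_mul_of_nonneg_right _ hL.le
          linarith
        have h11 : 3.663 * (N : ℝ) ≤ vOct * N := mul_le_mul_of_nonneg_right hv.le hN0.le
        have h12 : 6.2832 * Real.log (s / (N + 1)) ≤ 3.663 * N := by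
          rw [h9]
          have hN4 : (4 : ℝ) ≤ N := by
            have : 4 ≤ N := by omega
            exact_mod_cast this
          linarith
        linarith
  rw [div_le_iff₀ hN0]
  exact hmain

end Pool.Agent.Lib.TDen
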