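import Pool.Agent.Lib.TDen.Rec

/-!
# The bound for the number of trees
-/

set_option autoImplicit false

namespace Pool.Agent.Lib.TDen

lemma rec2_choose3 (k : ℕ) : (0 + 3).choose k ≤ 3 := by
  rcases Nat.lt_or_ge k 4 with h | h
  · interval_cases k <;> decide
  · rw [Nat.choose_eq_zero_of_lt (by omega)]
    omega

lemma rec2_choose4 (k : ℕ) : (1 + 3).choose k ≤ 6 := by
  rcases Nat.lt_or_ge k 5 with h | h
  · interval_cases k <;> decide
  · rw [Nat.choose_eq_zero_of_lt (by omega)]
    omega

/-- the bound. PROOF: strong induction on `m`; `m = 0, 1` by `N_le_choose`; `m ≥ 2` by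
`good_of_N_ne_zero`, `exists_degR_le_three` and `step` (for `D` or for `D.dual`, `N_dual`,
`Good.dual`, `rest_dual`) with `n = m` (`m ≥ 2` here), `C = 6 δ^(m-2) / δ^2`. -/
theorem N_le (D : Diagram) (m : ℕ) (A B : Finset D.E) (hAB : Disjoint A B)
    (hm : (D.rest A B).card = m + 3) :
    (D.N A B : ℝ) * (3657 / 2000 : ℝ) ≤ 6 * (3657 / 2000 : ℝ) ^ m := by
  induction m using Nat.strong_induction_on generalizing A B with
  | _ m ih =>
    rcases Nat.lt_or_ge m 2 with h2 | h2
    · obtain ⟨k, hk⟩ := D.N_le_choose A B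
      rw [hm] at hk
      interval_cases m
      · have h3 : (D.N A B : ℝ) ≤ 3 := by exact_mod_cast hk.trans (rec2_choose3 k)
        linarith
      · have h3 : (D.N A B : ℝ) ≤ 6 := by exact_mod_cast hk.trans (rec2_choose4 k)
        linarith
    · obtain ⟨j, rfl⟩ : ∃ j, m = j + 2 := ⟨m - 2, by omega⟩
      by_cases h0 : D.N A B = 0
      · rw [h0]
        simp only [Nat.cast_zero, zero_mul]
        positivity
      have hG := D.good_of_N_ne_zero h0
      have hj : (1 : ℝ) ≤ (3657 / 2000 : ℝ) ^ j := one_le_pow₀ (by norm_num)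
      have hC0 : (0 : ℝ) ≤ 6 * (3657 / 2000 : ℝ) ^ j / (3657 / 2000 : ℝ) ^ 2 := by positivity
      have e3 : 6 * (3657 / 2000 : ℝ) ^ j / (3657 / 2000 : ℝ) ^ 2 * (3657 / 2000 : ℝ) ^ 3 =
          6 * (3657 / 2000 : ℝ) ^ j * (3657 / 2000 : ℝ) := by
        ring
      have e2 : 6 * (3657 / 2000 : ℝ) ^ j / (3657 / 2000 : ℝ) ^ 2 * (3657 / 2000 : ℝ) ^ 2 =
          6 * (3657 / 2000 : ℝ) ^ j := by
        ring
      have e1 : 6 * (3657 / 2000 : ℝ) ^ j / (3657 / 2000 : ℝ) ^ 2 * (3657 / 2000 : ℝ) *
          (3657 / 2000 : ℝ) = 6 * (3657 / 2000 : ℝ) ^ j := by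
        ring
      have h1 : 1 ≤ 6 * (3657 / 2000 : ℝ) ^ j / (3657 / 2000 : ℝ) ^ 2 *
          (3657 / 2000 : ℝ) ^ 3 := by
        rw [e3]
        linarith
      have ih2 : ∀ A' B' : Finset D.E, Disjoint A' B' → (D.rest A' B').card = (j + 2) + 2 →
          (D.N A' B' : ℝ) ≤ 6 * (3657 / 2000 : ℝ) ^ j / (3657 / 2000 : ℝ) ^ 2 *
            (3657 / 2000 : ℝ) ^ 2 := by
        intro A' B' hd hr
        have := ih (j + 1) (by omega) A' B' hd (by omega)
        rw [e2]
        rw [pow_succ] at this
        linarith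
      have ih1 : ∀ A' B' : Finset D.E, Disjoint A' B' → (D.rest A' B').card = (j + 2) + 1 →
          (D.N A' B' : ℝ) ≤ 6 * (3657 / 2000 : ℝ) ^ j / (3657 / 2000 : ℝ) ^ 2 *
            (3657 / 2000 : ℝ) := by
        intro A' B' hd hr
        have := ih j (by omega) A' B' hd (by omega)
        linarith
      have key : (D.N A B : ℝ) ≤ 6 * (3657 / 2000 : ℝ) ^ j / (3657 / 2000 : ℝ) ^ 2 *
            (3657 / 2000 : ℝ) ^ 3 := by
        rcases exists_degR_le_three D hG with ⟨c, hc⟩ | ⟨c, hc⟩
        · exact step D hG (j + 2) _ hm hC0 h1 ih2 ih1 c hc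
        · have hs := step D.dual (A := B) (B := A) hG.dual (j + 2) _
            (by rw [D.rest_dual]; exact hm) hC0 h1
            (fun A' B' hd hr => by
              have e := D.N_dual B' A'
              have f := D.rest_dual B' A'
              rw [e]
              rw [f] at hr
              exact ih2 B' A' hd.symm hr)
            (fun A' B' hd hr => by
              have e := D.N_dual B' A'
              have f := D.rest_dual B' A'
              rw [e]
              rw [f] at hr
              exact ih1 B' A' hd.symm hr)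
            c (by rw [D.rest_dual]; exact hc)
          rw [D.N_dual] at hs
          exact hs
      rw [e3] at key
      rw [pow_add]
      linarith

end Pool.Agent.Lib.TDen
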