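import Pool.Agent.Lib.TDen.Coef
import Pool.Agent.Lib.TDen.Rec2
import Pool.Agent.Lib.TDen.NumB
import Pool.Agent.Lib.TDen.NumC

/-!
# The density bound for all connected diagrams
-/

set_option autoImplicit false

namespace Pool.Agent.Lib.TDen

open Real Pool.Agent.Lib.MP_20e20b_gt

lemma fin_rest (D : Diagram) : (D.rest ∅ ∅).card = D.crossings := by
  unfold Diagram.rest Diagram.crossings
  simp

/-- the sum of the absolute values of the coefficients, `m + 3` crossings -/
theorem coefSum_le (D : Diagram) (m : ℕ) (hm : D.crossings = m + 3) :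
    (coefSum D.bracket : ℝ) * (3657 / 2000 : ℝ) ≤ 6 * (3657 / 2000 : ℝ) ^ m := by
  have h1 : (coefSum D.bracket : ℝ) ≤ (D.N ∅ ∅ : ℝ) := by exact_mod_cast D.coefSum_bracket
  have h2 := N_le D m ∅ ∅ (Finset.disjoint_empty_left _) (by rw [fin_rest]; exact hm)
  exact (mul_le_mul_of_nonneg_right h1 (by norm_num)).trans h2

theorem coefSum_small (D : Diagram) (h1 : 1 ≤ D.crossings) (h2 : D.crossings ≤ 2) :
    coefSum D.bracket ≤ D.crossings := by
  obtain ⟨k, hk⟩ := D.N_le_choose ∅ ∅
  rw [fin_rest] at hk
  refine (D.coefSum_bracket.trans hk).trans ?_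
  have h3 : D.crossings = 1 ∨ D.crossings = 2 := by omega
  rcases h3 with h | h
  · rw [h]
    match k with
    | 0 => simp
    | 1 => simp
    | (k + 2) => rw [Nat.choose_eq_zero_of_lt (by omega)]; omega
  · rw [h]
    match k with
    | 0 => simp
    | 1 => simp
    | 2 => simp
    | (k + 3) => rw [Nat.choose_eq_zero_of_lt (by omega)]; omega

lemma mu_nonneg (D : Diagram) : 0 ≤ D.mu := by
  have h2 : (0 : ℝ) ≤ (spanA D.bracket : ℝ) := by exact_mod_cast spanA_nonneg _
  unfold Diagram.mu
  positivity

lemma mu_le_coefSum (D : Diagram) : D.mu ≤ (coefSum D.bracket : ℝ) := by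
  have h2 : (0 : ℝ) ≤ (spanA D.bracket : ℝ) := by exact_mod_cast spanA_nonneg _
  unfold Diagram.mu
  exact div_le_self (by positivity) (by linarith)

/-- the density bound -/
theorem density_all (D : Diagram) (h1 : 1 ≤ D.crossings) :
    2 * π * Real.log D.mu / D.crossings ≤ 2 * π * Real.log (3657 / 2000) := by
  have hN : (0 : ℝ) < (D.crossings : ℝ) := by exact_mod_cast h1
  have hδ : 0 < Real.log (3657 / 2000) := Real.log_pos (by norm_num)
  have key : D.mu ≤ (3657 / 2000 : ℝ) ^ D.crossings := by
    refine (mu_le_coefSum D).trans ?_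
    by_cases h3 : D.crossings ≤ 2
    · have h4 : (coefSum D.bracket : ℝ) ≤ (D.crossings : ℝ) := by
        exact_mod_cast coefSum_small D h1 h3
      refine h4.trans ?_
      have h5 : D.crossings = 1 ∨ D.crossings = 2 := by omega
      rcases h5 with h | h
      · rw [h]; norm_num
      · rw [h]; norm_num
    · obtain ⟨m, hm⟩ : ∃ m, D.crossings = m + 3 := ⟨D.crossings - 3, by omega⟩
      have h4 := coefSum_le D m hm
      rw [hm]
      have h5 : (0 : ℝ) < (3657 / 2000 : ℝ) ^ m := by positivity
      have h6 : (3657 / 2000 : ℝ) ^ (m + 3) * (3657 / 2000 : ℝ) =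
          (3657 / 2000 : ℝ) ^ 4 * (3657 / 2000 : ℝ) ^ m := by ring
      have h7 : (6 : ℝ) ≤ (3657 / 2000 : ℝ) ^ 4 := by norm_num
      have h8 : (coefSum D.bracket : ℝ) * (3657 / 2000 : ℝ)
          ≤ (3657 / 2000 : ℝ) ^ (m + 3) * (3657 / 2000 : ℝ) := by
        rw [h6]
        exact h4.trans (mul_le_mul_of_nonneg_right h7 h5.le)
      exact le_of_mul_le_mul_right h8 (by norm_num)
  have hlog : Real.log D.mu ≤ D.crossings * Real.log (3657 / 2000) := by
    rcases (mu_nonneg D).eq_or_lt with h | h
    · rw [← h, Real.log_zero]; positivity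
    · rw [← Real.log_pow]
      exact Real.log_le_log h key
  rw [div_le_iff₀ hN]
  have := mul_le_mul_of_nonneg_left hlog (by positivity : (0 : ℝ) ≤ 2 * π)
  linarith

/-- Q1 for at most thirty crossings -/
theorem density_thirty (D : Diagram) (h1 : 1 ≤ D.crossings) (h2 : D.crossings ≤ 30) :
    2 * π * Real.log D.mu / D.crossings ≤ vOct := by
  rcases (mu_nonneg D).eq_or_lt with h | h
  · rw [← h, Real.log_zero, mul_zero, zero_div]
    have := vOct_gt
    linarith
  · refine num_thirty h1 h2 h (fun h3 => ?_) (fun m hm => ?_)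
    · refine (mu_le_coefSum D).trans ?_
      exact_mod_cast coefSum_small D h1 h3
    · exact (mul_le_mul_of_nonneg_right (mu_le_coefSum D) (by norm_num)).trans
        (coefSum_le D m hm)

/-- Q1 for at most 300 crossings if the span of the Jones polynomial is the number of
crossings (reduced alternating diagrams) -/
theorem density_alternating (D : Diagram) (h1 : 1 ≤ D.crossings) (h2 : D.crossings ≤ 300)
    (h3 : 4 * (D.crossings : ℤ) ≤ spanA D.bracket) :
    2 * π * Real.log D.mu / D.crossings ≤ vOct := by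
  have hN : (0 : ℝ) < (D.crossings : ℝ) := by exact_mod_cast h1
  have h3' : 4 * (D.crossings : ℝ) ≤ (spanA D.bracket : ℝ) := by exact_mod_cast h3
  rcases (mu_nonneg D).eq_or_lt with h | h
  · rw [← h, Real.log_zero, mul_zero, zero_div]
    have := vOct_gt
    linarith
  · have hs : (0 : ℝ) < (coefSum D.bracket : ℝ) := h.trans_le (mu_le_coefSum D)
    have hmu : D.mu ≤ (coefSum D.bracket : ℝ) / ((D.crossings : ℝ) + 1) := by
      unfold Diagram.mu
      exact div_le_div_of_nonneg_left hs.le (by positivity) (by linarith)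
    have h4 := num_alternating h1 h2 hs (fun h5 => by exact_mod_cast coefSum_small D h1 h5)
      (fun m hm => coefSum_le D m hm)
    refine le_trans ?_ h4
    refine div_le_div_of_nonneg_right ?_ hN.le
    exact mul_le_mul_of_nonneg_left (Real.log_le_log h hmu) (by positivity)

end Pool.Agent.Lib.TDen
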