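import Pool.Agent.Lib.TDen.Diag

/-!
# The Potts expansion

At a unimodular `A` with `δ ^ 2 = q`, `δ = -A^2 - A^(-2)`, `q` a natural number, the bracket is
bounded: `‖⟨D⟩(A)‖ ^ 4 ≤ q ^ N`.
-/

set_option autoImplicit false

namespace Pool.Agent.Lib.TDen

open Finset LaurentPolynomial Pool.Agent.Lib.MP_20e20b_gt

section Potts

variable {V E : Type} [Fintype V] [DecidableEq V] [Fintype E] [DecidableEq E]

/-- the Potts expansion of a state sum -/
theorem potts_expand (g : E → V × V) (k : Finset E → ℕ) (q : ℕ)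
    (hk : ∀ S : Finset E,
      (univ.filter fun f : V → Fin q => ∀ e ∈ S, f (g e).1 = f (g e).2).card = q ^ k S)
    (x y : E → ℂ) :
    ∑ S : Finset E, (q : ℂ) ^ k S * ((∏ e ∈ S, x e) * ∏ e ∈ Sᶜ, y e) =
      ∑ f : V → Fin q, ∏ e, ((if f (g e).1 = f (g e).2 then x e else 0) + y e) := by
  have h1 : ∀ f : V → Fin q, ∏ e, ((if f (g e).1 = f (g e).2 then x e else 0) + y e) =
      ∑ S : Finset E, if (∀ e ∈ S, f (g e).1 = f (g e).2) then
        (∏ e ∈ S, x e) * ∏ e ∈ Sᶜ, y e else 0 := by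
    intro f
    rw [Finset.prod_add, Finset.powerset_univ]
    refine Finset.sum_congr rfl fun S _ => ?_
    rw [← Finset.compl_eq_univ_sdiff]
    split_ifs with h
    · congr 1
      exact Finset.prod_congr rfl fun e he => if_pos (h e he)
    · push Not at h
      obtain ⟨e, he, hne⟩ := h
      rw [Finset.prod_eq_zero he (if_neg hne), zero_mul]
  simp only [h1]
  rw [Finset.sum_comm]
  refine Finset.sum_congr rfl fun S _ => ?_
  rw [← Finset.sum_filter, Finset.sum_const, hk, nsmul_eq_mul]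
  push_cast
  ring

/-- the Potts bound -/
theorem potts_bound (g : E → V × V) (k : Finset E → ℕ) (q : ℕ)
    (hk : ∀ S : Finset E,
      (univ.filter fun f : V → Fin q => ∀ e ∈ S, f (g e).1 = f (g e).2).card = q ^ k S)
    (x y : E → ℂ) (hy : ∀ e, ‖y e‖ ≤ 1) (hxy : ∀ e, ‖x e + y e‖ ≤ 1) :
    ‖∑ S : Finset E, (q : ℂ) ^ k S * ((∏ e ∈ S, x e) * ∏ e ∈ Sᶜ, y e)‖ ≤
      (q : ℝ) ^ Fintype.card V := by
  rw [potts_expand g k q hk x y]
  refine (norm_sum_le _ _).trans ?_
  have h : ∀ f : V → Fin q,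
      ‖∏ e, ((if f (g e).1 = f (g e).2 then x e else 0) + y e)‖ ≤ 1 := by
    intro f
    rw [norm_prod]
    refine Finset.prod_le_one (fun e _ => norm_nonneg _) fun e _ => ?_
    split_ifs
    · exact hxy e
    · rw [zero_add]; exact hy e
  refine (Finset.sum_le_sum fun f _ => h f).trans ?_
  rw [Finset.sum_const, Finset.card_univ, Fintype.card_fun, Fintype.card_fin, nsmul_eq_mul, mul_one]
  push_cast
  exact le_refl _

end Potts

/-- number of colourings which are constant on the classes of a relation -/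
theorem card_const {V : Type} [Fintype V] [DecidableEq V] (q : ℕ) (r : V → V → Prop)
    [Finite (Quot r)] [DecidablePred fun f : V → Fin q => ∀ u v, r u v → f u = f v] :
    (univ.filter fun f : V → Fin q => ∀ u v, r u v → f u = f v).card = q ^ Nat.card (Quot r) := by
  classical
  have e : {f : V → Fin q // ∀ u v, r u v → f u = f v} ≃ (Quot r → Fin q) :=
    { toFun := fun f => Quot.lift f.1 f.2
      invFun := fun h => ⟨fun v => h (Quot.mk r v), fun u v huv => congrArg h (Quot.sound huv)⟩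
      left_inv := fun f => rfl
      right_inv := fun h => by
        funext c
        induction c using Quot.ind
        rfl }
  have : Fintype (Quot r) := Fintype.ofFinite _
  rw [← Fintype.card_subtype, Fintype.card_congr e, Fintype.card_fun, Fintype.card_fin,
    Nat.card_eq_fintype_card]

theorem card_const_edges {V E : Type} [Fintype V] [DecidableEq V] (g : E → V × V) (q : ℕ)
    (S : Finset E) [DecidablePred fun f : V → Fin q => ∀ e ∈ S, f (g e).1 = f (g e).2] :
    (univ.filter fun f : V → Fin q => ∀ e ∈ S, f (g e).1 = f (g e).2).card = q ^ comps g S := by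
  classical
  have h := card_const q (Rel g S)
  unfold comps Comp
  rw [← h]
  congr 1
  ext f
  simp only [mem_filter, mem_univ, true_and]
  constructor
  · rintro hf u v ⟨e, he, hg⟩
    have := hf e he
    rw [hg] at this
    exact this
  · intro hf e he
    exact hf _ _ ⟨e, he, rfl⟩

/-- the weights of the Kauffman bracket at a unimodular `A` -/
theorem weight_one {A : ℂ} (hA : ‖A‖ = 1) : ‖(-A ^ 2 - A⁻¹ ^ 2) * A + A⁻¹‖ = 1 := by
  have h0 : A ≠ 0 := by
    intro h
    rw [h, norm_zero] at hA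
    exact zero_ne_one hA
  have : (-A ^ 2 - A⁻¹ ^ 2) * A + A⁻¹ = -A ^ 3 := by
    field_simp
    ring
  rw [this, norm_neg, norm_pow, hA, one_pow]

namespace Diagram

variable (D : Diagram)

lemma expo_dual (S : Finset D.E) (e : D.E) : D.dual.expo S e = D.expo Sᶜ e := by
  unfold expo
  change (if (e ∈ S ↔ (!(D.pos e)) = true) then (1 : ℤ) else -1) =
    if (e ∈ Sᶜ ↔ D.pos e = true) then 1 else -1
  by_cases h : e ∈ S <;> cases D.pos e <;> simp [h]

/-- exchanging the colours does not change the bracket -/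
theorem bracket_dual : D.dual.bracket = D.bracket := by
  have h : ∀ S : Finset D.E, T (∑ e, D.dual.expo S e) * circ ^ (comps D.h S + comps D.g Sᶜ - 2) =
      T (∑ e, D.expo Sᶜ e) * circ ^ (comps D.g Sᶜ + comps D.h Sᶜᶜ - 2) := by
    intro S
    have h2 : (∑ e, D.dual.expo S e : ℤ) = ∑ e, D.expo Sᶜ e :=
      Finset.sum_congr rfl fun e _ => D.expo_dual S e
    rw [h2, compl_compl, add_comm (comps D.h S)]
  unfold bracket
  exact Finset.sum_nbij' (fun S : Finset D.E => Sᶜ) (fun S : Finset D.E => Sᶜ)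
    (fun _ _ => mem_univ _) (fun _ _ => mem_univ _) (fun S _ => compl_compl (S : Finset D.E))
    (fun S _ => compl_compl (S : Finset D.E)) fun S _ => h S

/-- value of the bracket at a complex number -/
noncomputable def ev (x : ℂˣ) : LaurentPolynomial ℤ →+* ℂ := eval₂ (Int.castRingHom ℂ) x

/-- the value of an additional circle -/
noncomputable def del (x : ℂˣ) : ℂ := -(x : ℂ) ^ 2 - (x : ℂ)⁻¹ ^ 2

lemma ev_T (x : ℂˣ) (n : ℤ) : ev x (T n) = (x : ℂ) ^ n := by
  unfold ev
  rw [eval₂_T, Units.val_zpow_eq_zpow_val]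

lemma ev_circ (x : ℂˣ) : ev x circ = del x := by
  unfold circ del
  rw [map_sub, map_neg, ev_T, ev_T, zpow_neg, inv_pow]
  norm_cast

/-- Euler's formula for the number of circles -/
lemma circles (S : Finset D.E) :
    (comps D.g S + comps D.h Sᶜ - 2) + (Fintype.card D.V + 1) = 2 * comps D.g S + S.card := by
  have h1 := D.euler S
  have h2 : 0 < comps D.g S := by
    have := D.nonemptyV
    exact comps_pos _ _
  have h3 : 0 < comps D.h Sᶜ := by
    have := D.nonemptyF
    exact comps_pos _ _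
  omega

lemma zpow_expo (x : ℂˣ) (S : Finset D.E) :
    (x : ℂ) ^ (∑ e, D.expo S e) =
      (∏ e ∈ S, (if D.pos e then (x : ℂ) else (x : ℂ)⁻¹)) *
        ∏ e ∈ Sᶜ, (if D.pos e then (x : ℂ) else (x : ℂ)⁻¹)⁻¹ := by
  classical
  have h0 : (x : ℂ) ≠ 0 := x.ne_zero
  have h1 : (x : ℂ) ^ (∑ e, D.expo S e) = ∏ e, (x : ℂ) ^ D.expo S e := by
    have : ∀ s : Finset D.E, (x : ℂ) ^ (∑ e ∈ s, D.expo S e) = ∏ e ∈ s, (x : ℂ) ^ D.expo S e := by
      intro s
      induction s using Finset.induction_on with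
      | empty => simp
      | insert a s ha ih => rw [Finset.sum_insert ha, Finset.prod_insert ha, zpow_add₀ h0, ih]
    exact this univ
  rw [h1, ← Finset.prod_mul_prod_compl S]
  congr 1
  · refine Finset.prod_congr rfl fun e he => ?_
    unfold expo
    cases h : D.pos e <;> simp [he]
  · refine Finset.prod_congr rfl fun e he => ?_
    rw [mem_compl] at he
    unfold expo
    cases h : D.pos e <;> simp [he]

theorem potts_V (x : ℂˣ) (hx : ‖(x : ℂ)‖ = 1) (q : ℕ) (hq : del x ^ 2 = q) :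
    ‖ev x D.bracket‖ * ‖del x‖ ^ (Fintype.card D.V + 1) ≤ (q : ℝ) ^ Fintype.card D.V := by
  classical
  have hinv : ‖(x : ℂ)⁻¹‖ = 1 := by rw [norm_inv, hx, inv_one]
  have hu : ∀ e, ‖(if D.pos e then (x : ℂ) else (x : ℂ)⁻¹)‖ = 1 := by
    intro e
    split_ifs
    · exact hx
    · exact hinv
  have hdel : ∀ e, del x = -(if D.pos e then (x : ℂ) else (x : ℂ)⁻¹) ^ 2 -
      (if D.pos e then (x : ℂ) else (x : ℂ)⁻¹)⁻¹ ^ 2 := by
    intro e
    unfold del
    split_ifs
    · rfl
    · rw [inv_inv]; ring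
  have key := potts_bound D.g (fun S => comps D.g S) q (fun S => card_const_edges D.g q S)
    (fun e => del x * (if D.pos e then (x : ℂ) else (x : ℂ)⁻¹))
    (fun e => (if D.pos e then (x : ℂ) else (x : ℂ)⁻¹)⁻¹)
    (fun e => by rw [norm_inv, hu e, inv_one])
    (fun e => by rw [hdel e]; exact (weight_one (hu e)).le)
  refine le_trans (le_of_eq ?_) key
  rw [← norm_pow, ← norm_mul]
  congr 1
  unfold bracket
  rw [map_sum, Finset.sum_mul]
  refine Finset.sum_congr rfl fun S _ => ?_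
  rw [map_mul, map_pow, ev_T, ev_circ, mul_assoc, ← pow_add, D.circles S, pow_add, pow_mul, hq,
    D.zpow_expo x S, Finset.prod_mul_distrib, Finset.prod_const]
  ring

/-- the fourth power of the modulus of the bracket is at most `q ^ N` -/
theorem potts (x : ℂˣ) (hx : ‖(x : ℂ)‖ = 1) (q : ℕ) (hq1 : 1 ≤ q) (hq : del x ^ 2 = q) :
    ‖ev x D.bracket‖ ^ 4 ≤ (q : ℝ) ^ D.crossings := by
  have hq0 : (0 : ℝ) < q := by exact_mod_cast hq1
  have hd : ‖del x‖ ^ 2 = q := by
    rw [← norm_pow, hq, Complex.norm_natCast]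
  have main : ∀ D' : Diagram, ‖ev x D'.bracket‖ ^ 2 * q ≤ (q : ℝ) ^ Fintype.card D'.V := by
    intro D'
    have h1 := D'.potts_V x hx q hq
    have h2 : (‖ev x D'.bracket‖ * ‖del x‖ ^ (Fintype.card D'.V + 1)) ^ 2 ≤
        ((q : ℝ) ^ Fintype.card D'.V) ^ 2 :=
      pow_le_pow_left₀ (by positivity) h1 2
    have h3 : (‖ev x D'.bracket‖ * ‖del x‖ ^ (Fintype.card D'.V + 1)) ^ 2 =
        (‖ev x D'.bracket‖ ^ 2 * q) * (q : ℝ) ^ Fintype.card D'.V := by
      rw [mul_pow, ← pow_mul, mul_comm (Fintype.card D'.V + 1) 2, pow_mul, hd]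
      ring
    rw [h3, pow_two ((q : ℝ) ^ Fintype.card D'.V)] at h2
    exact le_of_mul_le_mul_right h2 (pow_pos hq0 _)
  have h1 := main D
  have h2 := main D.dual
  rw [D.bracket_dual] at h2
  have hVF : Fintype.card D.V + Fintype.card D.F = D.crossings + 2 := by
    have h3 := D.euler Finset.univ
    rw [D.conn, Finset.compl_univ, comps_empty, Finset.card_univ] at h3
    unfold crossings
    omega
  have h4 : (‖ev x D.bracket‖ ^ 2 * q) * (‖ev x D.bracket‖ ^ 2 * q) ≤
      (q : ℝ) ^ Fintype.card D.V * (q : ℝ) ^ Fintype.card D.F :=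
    mul_le_mul h1 h2 (by positivity) (by positivity)
  rw [← pow_add, hVF, pow_add] at h4
  have h5 : ‖ev x D.bracket‖ ^ 4 * (q : ℝ) ^ 2 ≤ (q : ℝ) ^ D.crossings * (q : ℝ) ^ 2 := by
    refine le_trans (le_of_eq ?_) h4
    ring
  exact le_of_mul_le_mul_right h5 (by positivity)

/-- the bracket at the seven points `t = 1, e^(±iπ/3), ±i, e^(±2πi/3)`, `t = u^4` -/
theorem potts_sqrt (u : ℂˣ) (hu : ‖(u : ℂ)‖ = 1) (q : ℕ) (hq1 : 1 ≤ q) (hq4 : q ≤ 4)
    (hq : (u : ℂ) ^ 4 + (u : ℂ)⁻¹ ^ 4 + 2 = q) :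
    ‖eval₂ (Int.castRingHom ℂ) u D.bracket‖ ≤ √2 ^ D.crossings := by
  have h0 : (u : ℂ) ≠ 0 := u.ne_zero
  have hd : del u ^ 2 = q := by
    rw [← hq]
    unfold del
    have h1 : (u : ℂ) ^ 2 * (u : ℂ)⁻¹ ^ 2 = 1 := by
      rw [← mul_pow, mul_inv_cancel₀ h0, one_pow]
    linear_combination 2 * h1
  have h1 := D.potts u hu q hq1 hd
  have h2 : (q : ℝ) ^ D.crossings ≤ (√2 ^ D.crossings) ^ 4 := by
    have h3 : (√2 ^ D.crossings) ^ 4 = (4 : ℝ) ^ D.crossings := by
      rw [← pow_mul, mul_comm, pow_mul]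
      congr 1
      have : √2 ^ 4 = (√2 ^ 2) ^ 2 := by ring
      rw [this, Real.sq_sqrt (by norm_num)]
      norm_num
    rw [h3]
    exact pow_le_pow_left₀ (by positivity) (by exact_mod_cast hq4) _
  exact le_of_pow_le_pow_left₀ (by norm_num) (by positivity) (h1.trans h2)

end Diagram

end Pool.Agent.Lib.TDen
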