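import Pool.Agent.Lib.TDen.SpanSix
import Pool.Agent.Lib.TDen.Potts

/-!
# Diagrams whose Jones polynomial has span at most six
-/

set_option autoImplicit false

namespace Pool.Agent.Lib.TDen.Diagram

open LaurentPolynomial Pool.Agent.Lib.MP_20e20b_gt

variable (D : Diagram)

/-- if the span of the Jones polynomial is at most six, then the sum of the absolute values of
the coefficients is at most `20 * 2^(N/2)` -/
theorem coefSum_le_of_spanA (h : spanA D.bracket ≤ 24) :
    (coefSum D.bracket : ℝ) ≤ 20 * √2 ^ D.crossings := by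
  obtain ⟨j, hj⟩ := D.res_bracket
  refine coefSum_le_of_span hj h fun u hu h4 => ?_
  have hu0 : (u : ℂ) ^ 4 ≠ 0 := pow_ne_zero _ u.ne_zero
  have hmul : (u : ℂ) ^ 4 * ((u : ℂ)⁻¹) ^ 4 = 1 := by
    rw [← mul_pow, mul_inv_cancel₀ u.ne_zero, one_pow]
  generalize hz : (u : ℂ) ^ 4 = z at h4 hu0 hmul
  generalize hw : ((u : ℂ)⁻¹) ^ 4 = w at hmul
  have key : ∀ q : ℕ, 1 ≤ q → q ≤ 4 → z + w + 2 = q → ‖ev u D.bracket‖ ≤ √2 ^ D.crossings := by
    intro q h1 h2 h3
    exact D.potts_sqrt u hu q h1 h2 (by rw [hz, hw]; exact h3)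
  rcases h4 with h4 | h4 | h4 | h4
  · refine key 4 (by norm_num) le_rfl ?_
    rw [h4, one_mul] at hmul
    rw [h4, hmul]; norm_num
  · refine key 2 (by norm_num) (by norm_num) ?_
    have : z + w = 0 := by
      apply mul_left_cancel₀ hu0
      linear_combination h4 + hmul
    rw [this]; norm_num
  · refine key 1 le_rfl (by norm_num) ?_
    have : z + w = -1 := by
      apply mul_left_cancel₀ hu0
      linear_combination h4 + hmul
    rw [this]; norm_num
  · refine key 3 (by norm_num) (by norm_num) ?_
    have : z + w = 1 := by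
      apply mul_left_cancel₀ hu0
      linear_combination h4 + hmul
    rw [this]; norm_num

/-- if the span of the Jones polynomial is more than six then `mu` is at most an eighth of the
sum of the absolute values of the coefficients -/
theorem mu_le_eighth (h : ¬ spanA D.bracket ≤ 24) : D.mu ≤ (coefSum D.bracket : ℝ) / 8 := by
  obtain ⟨j, hj⟩ := D.res_bracket
  have h1 : (28 : ℝ) ≤ (spanA D.bracket : ℝ) := by exact_mod_cast spanA_ge hj h
  unfold mu
  exact div_le_div_of_nonneg_left (by positivity) (by norm_num) (by linarith)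

end Pool.Agent.Lib.TDen.Diagram
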