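import Pool.Agent.Lib.TDen.Fin
import Pool.Agent.Lib.TDen.SpanUse

/-!
# Q1 for at most 132 crossings
-/

set_option autoImplicit false

namespace Pool.Agent.Lib.TDen

open Real Pool.Agent.Lib.MP_20e20b_gt

/-- 44 terms of the alternating series -/
lemma vOct_gt_fine : 3.6636 < vOct := by
  set f : ℕ → ℝ := fun k => 1 / (2 * (k : ℝ) + 1) ^ 2 with hf
  have hanti : Antitone f := by
    intro a b hab
    simp only [hf]
    have : (a : ℝ) ≤ b := by exact_mod_cast hab
    apply one_div_le_one_div_of_le (by positivity)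
    apply pow_le_pow_left₀ (by positivity)
    linarith
  have hs : Summable fun k : ℕ => (-1 : ℝ) ^ k * f k := by
    have h2 : Summable fun k : ℕ => (1 : ℝ) / ((k : ℝ) + 1) ^ 2 := by
      have := (summable_nat_add_iff 1).2 (Real.summable_one_div_nat_pow.2 (show 1 < 2 by norm_num))
      simpa using this
    refine Summable.of_norm_bounded h2 ?_
    intro k
    rw [norm_mul, norm_pow, norm_neg, norm_one, one_pow, one_mul, Real.norm_of_nonneg (by
      simp only [hf]; positivity)]
    simp only [hf]
    apply one_div_le_one_div_of_le (by positivity)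
    apply pow_le_pow_left₀ (by positivity)
    have : (0 : ℝ) ≤ k := Nat.cast_nonneg k
    linarith
  have ht := hs.hasSum.tendsto_sum_nat
  have h := Antitone.alternating_series_le_tendsto ht hanti 22
  have e : (3.663602 : ℝ) / 4 ≤ ∑ i ∈ Finset.range (2 * 22), (-1 : ℝ) ^ i * f i := by
    simp only [hf, Finset.sum_range_succ, Finset.sum_range_zero, Nat.reduceMul]
    norm_num
  have h1 : vOct = 4 * ∑' k : ℕ, (-1 : ℝ) ^ k * f k := rfl
  rw [h1]
  calc (3.6636 : ℝ) < 4 * (3.663602 / 4) := by norm_num
    _ ≤ _ := mul_le_mul_of_nonneg_left (e.trans h) (by norm_num)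

private lemma log_three_quarter_le : Real.log (3 / 4) ≤ -0.2876 := by
  have h1 : (147 : ℕ) * Real.log (3 / 4) ≤ -((61 : ℕ) * Real.log 2) := by
    rw [← Real.log_pow, ← Real.log_pow, ← Real.log_inv]
    exact Real.log_le_log (by norm_num) (by norm_num)
  have h2 := Real.log_two_gt_d9
  push_cast at h1
  linarith

private lemma two_pi_le {x B : ℝ} (hB : 0 ≤ B) (h : x ≤ B) : 2 * π * x ≤ 6.2832 * B := by
  have hπ := Real.pi_lt_d4
  have hπ0 := Real.pi_pos
  calc 2 * π * x ≤ 2 * π * B := mul_le_mul_of_nonneg_left h (by positivity)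
    _ ≤ 6.2832 * B := mul_le_mul_of_nonneg_right (by linarith) hB

/-- Q1 for at most 132 crossings -/
theorem density_132 (D : Diagram) (h1 : 1 ≤ D.crossings) (h2 : D.crossings ≤ 132) :
    2 * π * Real.log D.mu / D.crossings ≤ vOct := by
  by_cases h30 : D.crossings ≤ 30
  · exact density_thirty D h1 h30
  have hv := vOct_gt_fine
  have hN : (0 : ℝ) < (D.crossings : ℝ) := by exact_mod_cast h1
  rcases (mu_nonneg D).eq_or_lt with h | h
  · rw [← h, Real.log_zero, mul_zero, zero_div]
    linarith
  rw [div_le_iff₀ hN]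
  have hvN : (3.6636 : ℝ) * (D.crossings : ℝ) ≤ vOct * (D.crossings : ℝ) :=
    mul_le_mul_of_nonneg_right hv.le hN.le
  refine le_trans ?_ hvN
  have hN31 : (31 : ℝ) ≤ (D.crossings : ℝ) := by exact_mod_cast (by omega : 31 ≤ D.crossings)
  by_cases hs : spanA D.bracket ≤ 24
  · have h3 : D.mu ≤ 20 * √2 ^ D.crossings := (mu_le_coefSum D).trans (D.coefSum_le_of_spanA hs)
    have h4 : Real.log D.mu ≤ Real.log 20 + D.crossings * (Real.log 2 / 2) := by
      rw [← Real.log_sqrt (by norm_num), ← Real.log_pow, ← Real.log_mul (by norm_num)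
        (by positivity)]
      exact Real.log_le_log h h3
    have h5 : Real.log 20 ≤ 5 * Real.log 2 := by
      have : Real.log 20 ≤ Real.log ((2 : ℝ) ^ 5) := Real.log_le_log (by norm_num) (by norm_num)
      rw [Real.log_pow] at this
      push_cast at this
      exact this
    have h6 := Real.log_two_lt_d9
    have h7 : (D.crossings : ℝ) * (Real.log 2 / 2) ≤ D.crossings * 0.3466 :=
      mul_le_mul_of_nonneg_left (by linarith) hN.le
    have h8 := two_pi_le (B := 3.466 + D.crossings * 0.3466) (x := Real.log D.mu)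
      (by positivity) (by linarith)
    linarith
  · have h3 : D.mu ≤ (coefSum D.bracket : ℝ) / 8 := D.mu_le_eighth hs
    obtain ⟨m, hm⟩ : ∃ m, D.crossings = m + 3 := ⟨D.crossings - 3, by omega⟩
    have h4 := coefSum_le D m hm
    have hδ : (0 : ℝ) < 3657 / 2000 := by norm_num
    have h5 : D.mu * (3657 / 2000) ≤ 3 / 4 * (3657 / 2000 : ℝ) ^ m := by
      have := mul_le_mul_of_nonneg_right h3 hδ.le
      linarith
    have h6 : Real.log D.mu + Real.log (3657 / 2000) ≤
        Real.log (3 / 4) + m * Real.log (3657 / 2000) := by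
      rw [← Real.log_mul h.ne' hδ.ne', ← Real.log_pow, ← Real.log_mul (by norm_num)
        (pow_pos hδ m).ne']
      exact Real.log_le_log (by positivity) h5
    have h7 := log_delta_le
    have h8 := log_three_quarter_le
    have hm1 : (28 : ℝ) ≤ (m : ℝ) := by exact_mod_cast (by omega : 28 ≤ m)
    have hm2 : (m : ℝ) ≤ 129 := by exact_mod_cast (by omega : m ≤ 129)
    have h9 : ((m : ℝ) - 1) * Real.log (3657 / 2000) ≤ (m - 1) * 0.60352 :=
      mul_le_mul_of_nonneg_left h7 (by linarith)
    have h10 := two_pi_le (B := -0.2876 + ((m : ℝ) - 1) * 0.60352) (x := Real.log D.mu)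
      (by nlinarith) (by linarith)
    rw [hm]
    push_cast
    linarith

end Pool.Agent.Lib.TDen
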