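import Pool.Agent.Lib.TDen.Rec2

/-!
# A better constant: five trees for four edges
-/

set_option autoImplicit false

namespace Pool.Agent.Lib.TDen

private lemma mem_rest5 {D : Diagram} {A B : Finset D.E} {e : D.E} :
    e ∈ D.rest A B ↔ e ∉ A ∧ e ∉ B := by
  unfold Diagram.rest
  rw [Finset.mem_compl, Finset.mem_union, not_or]

private lemma rest_insL5 {D : Diagram} {A B : Finset D.E} {e : D.E} :
    D.rest (insert e A) B = (D.rest A B).erase e := by
  ext x
  rw [Finset.mem_erase, mem_rest5, mem_rest5, Finset.mem_insert]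
  tauto

private lemma rest_insR5 {D : Diagram} {A B : Finset D.E} {e : D.E} :
    D.rest A (insert e B) = (D.rest A B).erase e := by
  ext x
  rw [Finset.mem_erase, mem_rest5, mem_rest5, Finset.mem_insert]
  tauto

/-- at most five trees if the rest has four edges: six trees would be all pairs of edges, hence
four edges no two of which are parallel on three components -/
theorem five_of_four (D : Diagram) (A B : Finset D.E) (hm : (D.rest A B).card = 4) :
    D.N A B ≤ 5 := by
  classical
  by_contra hcon
  push Not at hcon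
  have hG := D.good_of_N_ne_zero (A := A) (B := B) (by omega)
  have hNk : D.N A B ≤ ((D.rest A B).powersetCard (Fintype.card D.V - 1 - B.card)).card ∧
      ∀ S ∈ D.trees A B, S \ B ∈ (D.rest A B).powersetCard (Fintype.card D.V - 1 - B.card) := by
    have hmap : ∀ S ∈ D.trees A B,
        S \ B ∈ (D.rest A B).powersetCard (Fintype.card D.V - 1 - B.card) := by
      intro S hS
      have h1 := D.card_of_mem hS
      rw [Diagram.mem_trees] at hS
      rw [Finset.mem_powersetCard]
      constructor
      · intro e he
        rw [Finset.mem_sdiff] at he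
        rw [mem_rest5]
        exact ⟨fun h => (Finset.disjoint_left.1 hS.2.1) h he.1, he.2⟩
      · rw [Finset.card_sdiff_of_subset hS.1]
        omega
    refine ⟨?_, hmap⟩
    unfold Diagram.N
    refine Finset.card_le_card_of_injOn (fun S => S \ B) (fun S hS => hmap S hS) ?_
    intro S hS S' hS' h
    have h1 : S ∈ D.trees A B := hS
    have h2 : S' ∈ D.trees A B := hS'
    rw [Diagram.mem_trees] at h1 h2
    have h3 : S \ B = S' \ B := h
    rw [← Finset.sdiff_union_of_subset h1.1, ← Finset.sdiff_union_of_subset h2.1, h3]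
  obtain ⟨hle, hmap⟩ := hNk
  have hk : Fintype.card D.V - 1 - B.card = 2 := by
    by_contra hk
    rw [Finset.card_powersetCard, hm] at hle
    generalize Fintype.card D.V - 1 - B.card = k at hk hle
    rcases Nat.lt_or_ge k 5 with h | h
    · interval_cases k
      · simp at hle; omega
      · simp at hle; omega
      · exact hk rfl
      · simp [Nat.choose] at hle; omega
      · simp at hle; omega
    · rw [Nat.choose_eq_zero_of_lt (by omega)] at hle
      omega
  rw [hk] at hle hmap
  have hcard6 : ((D.rest A B).powersetCard 2).card = 6 := by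
    rw [Finset.card_powersetCard, hm]; decide
  -- every pair is a tree
  have hall : ∀ X ∈ (D.rest A B).powersetCard 2, B ∪ X ∈ D.trees A B := by
    have himg : (D.trees A B).image (fun S => S \ B) = (D.rest A B).powersetCard 2 := by
      apply Finset.eq_of_subset_of_card_le
      · intro X hX
        obtain ⟨S, hS, rfl⟩ := Finset.mem_image.1 hX
        exact hmap S hS
      · rw [hcard6, Finset.card_image_of_injOn]
        · unfold Diagram.N at hcon
          omega
        · intro S hS S' hS' h
          have h1 : S ∈ D.trees A B := hS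
          have h2 : S' ∈ D.trees A B := hS'
          rw [Diagram.mem_trees] at h1 h2
          have h3 : S \ B = S' \ B := h
          rw [← Finset.sdiff_union_of_subset h1.1, ← Finset.sdiff_union_of_subset h2.1, h3]
    intro X hX
    rw [← himg] at hX
    obtain ⟨S, hS, rfl⟩ := Finset.mem_image.1 hX
    have h1 := (D.mem_trees.1 hS).1
    rw [Finset.union_sdiff_of_subset h1]
    exact hS
  have hV : Fintype.card D.V = B.card + 3 := by omega
  -- no edge is redundant
  have key : ∀ x ∈ D.rest A B, ∀ y ∈ D.rest A B, x ≠ y →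
      ¬ Conn D.g (insert x B) (D.g y).1 (D.g y).2 := by
    intro x hx y hy hxy hc
    have h1 := hall {x, y} (by
      rw [Finset.mem_powersetCard]
      refine ⟨?_, Finset.card_pair hxy⟩
      intro z hz
      rw [Finset.mem_insert, Finset.mem_singleton] at hz
      rcases hz with rfl | rfl
      · exact hx
      · exact hy)
    have h2 : B ∪ {x, y} = insert y (insert x B) := by
      ext z
      simp only [Finset.mem_union, Finset.mem_insert, Finset.mem_singleton]
      tauto
    rw [h2, Diagram.mem_trees] at h1
    have h3 := h1.2.2.1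
    rw [comps_insert_of_conn D.g hc] at h3
    have h4 := card_le_comps_add D.g (insert x B)
    rw [h3, Finset.card_insert_of_notMem (mem_rest5.1 hx).2] at h4
    omega
  have h3c : Nat.card (Comp D.g B) = 3 := by
    have he := D.euler B
    rw [hG.2.2] at he
    unfold comps at he
    omega
  have hfin : Finite (Comp D.g B) := Nat.finite_of_card_ne_zero (by omega)
  let _ : Fintype (Comp D.g B) := Fintype.ofFinite _
  have hf3 : Fintype.card (Comp D.g B) = 3 := by rw [← Nat.card_eq_fintype_card, h3c]
  let f : D.E → Sym2 (Comp D.g B) := fun e =>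
    s(Quot.mk _ (D.g e).1, Quot.mk _ (D.g e).2)
  have hnd : ∀ e ∈ D.rest A B, ¬ (f e).IsDiag := by
    intro e he hd
    have h1 : Conn D.g B (D.g e).1 (D.g e).2 := by
      exact Sym2.mk_isDiag_iff.1 hd
    obtain ⟨x, hx, hxe⟩ : ∃ x ∈ D.rest A B, x ≠ e := by
      have : ((D.rest A B).erase e).Nonempty := by
        rw [← Finset.card_pos, Finset.card_erase_of_mem he]
        omega
      obtain ⟨x, hx⟩ := this
      exact ⟨x, (Finset.mem_erase.1 hx).2, (Finset.mem_erase.1 hx).1⟩
    exact key x hx e he hxe (h1.mono (Finset.subset_insert _ _))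
  obtain ⟨a, ha, b, hb, hab, hfab⟩ : ∃ a ∈ D.rest A B, ∃ b ∈ D.rest A B, a ≠ b ∧ f a = f b := by
    apply Finset.exists_ne_map_eq_of_card_lt_of_maps_to
      (t := Finset.univ.filter fun z : Sym2 (Comp D.g B) => ¬ z.IsDiag)
    · rw [hm]
      have h5 := Sym2.card_subtype_not_diag (α := Comp D.g B)
      rw [Fintype.card_subtype, hf3] at h5
      have h6 : Nat.choose 3 2 = 3 := by decide
      rw [h6] at h5
      omega
    · intro e he
      exact Finset.mem_coe.2 (Finset.mem_filter.2 ⟨Finset.mem_univ _, hnd e he⟩)
  have hedge : Conn D.g (insert a B) (D.g a).1 (D.g a).2 :=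
    Conn.edge (Finset.mem_insert_self a B)
  apply key a ha b hb hab
  rcases Sym2.eq_iff.1 hfab with ⟨h1, h2⟩ | ⟨h1, h2⟩
  · have h1' : Conn D.g B (D.g a).1 (D.g b).1 := h1
    have h2' : Conn D.g B (D.g a).2 (D.g b).2 := h2
    exact ((h1'.mono (Finset.subset_insert _ _)).symm.trans hedge).trans
      (h2'.mono (Finset.subset_insert _ _))
  · have h1' : Conn D.g B (D.g a).1 (D.g b).2 := h1
    have h2' : Conn D.g B (D.g a).2 (D.g b).1 := h2
    exact ((h2'.mono (Finset.subset_insert _ _)).symm.trans hedge.symm).trans
      (h1'.mono (Finset.subset_insert _ _))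

private lemma N_zero_of_cut5 {D : Diagram} {A B A' : Finset D.E} (c : Comp D.g B)
    (hc : comps D.g B ≠ 1) (hAA : A ⊆ A')
    (h : ∀ e ∈ D.rest A B, ((Quot.mk (Rel D.g B) (D.g e).1 : Comp D.g B) = c
      ↔ ¬ (Quot.mk (Rel D.g B) (D.g e).2 : Comp D.g B) = c) → e ∈ A') :
    D.N A' B = 0 := by
  unfold Diagram.N
  rw [Finset.card_eq_zero, Finset.eq_empty_iff_forall_notMem]
  intro S hS
  obtain ⟨e, he, heS, hx⟩ := meets_cut D hS c hc
  have h1 := D.mem_trees.1 hS
  rw [mem_rest5] at he
  exact he.1 (h e (mem_rest5.2 ⟨fun h' => he.1 (hAA h'), he.2⟩) hx)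

private lemma N_le_one5 {D : Diagram} {A B : Finset D.E} (hc : comps D.g B = 1) :
    D.N A B ≤ 1 := by
  unfold Diagram.N
  rw [Finset.card_le_one]
  have key : ∀ S ∈ D.trees A B, S = B := by
    intro S hS
    have h1 := D.mem_trees.1 hS
    have h2 := D.card_of_mem hS
    have h3 := card_le_comps_add D.g B
    exact (Finset.eq_of_subset_of_card_le h1.1 (by omega)).symm
  intro S hS S' hS'
  rw [key S hS, key S' hS']

/-- the step in integers -/
theorem step_nat (D : Diagram) {A B : Finset D.E} (hG : D.Good A B) (n n1 n2 : ℕ)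
    (hn : (D.rest A B).card = n + 2)
    (ih1 : ∀ A' B' : Finset D.E, Disjoint A' B' → (D.rest A' B').card = n + 1 → D.N A' B' ≤ n1)
    (ih2 : ∀ A' B' : Finset D.E, Disjoint A' B' → (D.rest A' B').card = n → D.N A' B' ≤ n2)
    (c : Comp D.g B) (hc : degR D.g B (D.rest A B) c ≤ 3) :
    D.N A B ≤ 1 ∨ D.N A B ≤ n1 + n2 ∨ ∃ t P r : ℕ, D.N A B = 3 * t + P + r ∧
      3 * t + 2 * P + 3 * r ≤ 3 * n1 ∧ 6 * t + P ≤ 3 * n1 ∧ 3 * t + P ≤ 3 * n2 ∧
      12 * t * r ≤ P ^ 2 := by
  classical
  by_cases hcomp : comps D.g B = 1
  · exact Or.inl (N_le_one5 hcomp)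
  -- cardinalities
  have hdis : Disjoint A B := hG.1
  have card1 : ∀ e ∈ D.rest A B, ((D.rest A B).erase e).card = n + 1 := by
    intro e he
    rw [Finset.card_erase_of_mem he, hn]
    rfl
  have card2 : ∀ e ∈ D.rest A B, ∀ f ∈ D.rest A B, f ≠ e →
      (((D.rest A B).erase e).erase f).card = n := by
    intro e he f hf hfe
    rw [Finset.card_erase_of_mem (Finset.mem_erase.2 ⟨hfe, hf⟩), card1 e he]
    rfl
  have bR : ∀ e ∈ D.rest A B, D.N A (insert e B) ≤ n1 := by
    intro e he
    apply ih1
    · rw [Finset.disjoint_insert_right]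
      exact ⟨(mem_rest5.1 he).1, hdis⟩
    · rw [rest_insR5]
      exact card1 e he
  have bL : ∀ e ∈ D.rest A B, D.N (insert e A) B ≤ n1 := by
    intro e he
    apply ih1
    · rw [Finset.disjoint_insert_left]
      exact ⟨(mem_rest5.1 he).2, hdis⟩
    · rw [rest_insL5]
      exact card1 e he
  have bLR : ∀ e ∈ D.rest A B, ∀ f ∈ D.rest A B, f ≠ e →
      D.N (insert e A) (insert f B) ≤ n2 := by
    intro e he f hf hfe
    apply ih2
    · rw [Finset.disjoint_insert_right, Finset.disjoint_insert_left, Finset.mem_insert, not_or]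
      exact ⟨⟨hfe, (mem_rest5.1 hf).1⟩, (mem_rest5.1 he).2, hdis⟩
    · rw [rest_insR5, rest_insL5]
      exact card2 e he f hf hfe
  -- the cut
  set X : Finset D.E := (D.rest A B).filter fun e =>
    ((Quot.mk (Rel D.g B) (D.g e).1 : Comp D.g B) = c
      ↔ ¬ (Quot.mk (Rel D.g B) (D.g e).2 : Comp D.g B) = c) with hX
  have hXr : ∀ e ∈ X, e ∈ D.rest A B := fun e he => (Finset.mem_filter.1 he).1
  have hXone : ∀ e ∈ X, ((Quot.mk (Rel D.g B) (D.g e).1 : Comp D.g B) = c
      ↔ ¬ (Quot.mk (Rel D.g B) (D.g e).2 : Comp D.g B) = c) :=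
    fun e he => (Finset.mem_filter.1 he).2
  have hzero : ∀ A', A ⊆ A' → X ⊆ A' → D.N A' B = 0 := by
    intro A' hAA hXA
    exact N_zero_of_cut5 c hcomp hAA fun e he hx => hXA (Finset.mem_filter.2 ⟨he, hx⟩)
  -- degrees
  have hsum : X.card + ∑ e ∈ D.rest A B \ X,
      ((if (Quot.mk (Rel D.g B) (D.g e).1 : Comp D.g B) = c then 1 else 0)
      + (if (Quot.mk (Rel D.g B) (D.g e).2 : Comp D.g B) = c then 1 else 0)) ≤ 3 := by
    refine le_trans (le_of_eq ?_) hc
    unfold degR
    rw [← Finset.sum_sdiff (Finset.filter_subset _ _ : X ⊆ D.rest A B), add_comm]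
    congr 1
    rw [Finset.card_eq_sum_ones]
    apply Finset.sum_congr rfl
    intro e he
    have h2 := hXone e he
    by_cases h3 : (Quot.mk (Rel D.g B) (D.g e).1 : Comp D.g B) = c
    · rw [if_pos h3, if_neg (h2.1 h3)]
    · have h4 : (Quot.mk (Rel D.g B) (D.g e).2 : Comp D.g B) = c := by
        by_contra h5
        exact h3 (h2.2 h5)
      rw [if_neg h3, if_pos h4]
  obtain hX0 | hX1 | hX2 | hX3 : X.card = 0 ∨ X.card = 1 ∨ X.card = 2 ∨ X.card = 3 := by omega
  · -- no edge
    rw [Finset.card_eq_zero] at hX0
    have h2 := hzero A subset_rfl (by rw [hX0]; exact Finset.empty_subset _)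
    left
    omega
  · -- one edge
    rw [Finset.card_eq_one] at hX1
    obtain ⟨a, ha⟩ := hX1
    have har : a ∈ D.rest A B := hXr a (by rw [ha]; simp)
    have h2 := hzero (insert a A) (Finset.subset_insert _ _) (by rw [ha]; simp)
    have h3 := D.N_split (mem_rest5.1 har).1 (mem_rest5.1 har).2
    have h4 := bR a har
    right; left
    omega
  · -- two edges
    rw [Finset.card_eq_two] at hX2
    obtain ⟨a, b, hab, hXab⟩ := hX2
    have har : a ∈ D.rest A B := hXr a (by rw [hXab]; simp)
    have hbr : b ∈ D.rest A B := hXr b (by rw [hXab]; simp)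
    have h2 := hzero (insert b (insert a A))
      ((Finset.subset_insert _ _).trans (Finset.subset_insert _ _)) (by
        rw [hXab]
        intro x hx
        simp only [Finset.mem_insert, Finset.mem_singleton] at hx ⊢
        tauto)
    have h3 := D.N_split (mem_rest5.1 har).1 (mem_rest5.1 har).2
    have h4 : D.N (insert a A) B = D.N (insert b (insert a A)) B +
        D.N (insert a A) (insert b B) := by
      apply D.N_split
      · rw [Finset.mem_insert, not_or]
        exact ⟨hab.symm, (mem_rest5.1 hbr).1⟩
      · exact (mem_rest5.1 hbr).2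
    have h5 := bR a har
    have h6 := bLR a har b hbr hab.symm
    right; left
    omega
  · -- three edges
    rw [Finset.card_eq_three] at hX3
    obtain ⟨a, b, d, hab, had, hbd, hXabd⟩ := hX3
    have har : a ∈ D.rest A B := hXr a (by rw [hXabd]; simp)
    have hbr : b ∈ D.rest A B := hXr b (by rw [hXabd]; simp)
    have hdr : d ∈ D.rest A B := hXr d (by rw [hXabd]; simp)
    have hc3 : X.card = 3 := by
      rw [hXabd]
      exact Finset.card_eq_three.2 ⟨a, b, d, hab, had, hbd, rfl⟩
    have hStar : Star D A B c a b d := by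
      refine ⟨hG, hab, had, hbd, har, hbr, hdr, ?_, ?_⟩
      · intro e _ he
        apply hXone
        rw [hXabd]
        simp only [Finset.mem_insert, Finset.mem_singleton]
        exact he
      · intro e he hea heb hed
        have hz : ∑ e ∈ D.rest A B \ X,
            ((if (Quot.mk (Rel D.g B) (D.g e).1 : Comp D.g B) = c then 1 else 0)
            + (if (Quot.mk (Rel D.g B) (D.g e).2 : Comp D.g B) = c then 1 else 0)) = 0 := by
          omega
        rw [Finset.sum_eq_zero_iff] at hz
        have hz' := hz e (by
          rw [Finset.mem_sdiff, hXabd]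
          refine ⟨he, ?_⟩
          simp only [Finset.mem_insert, Finset.mem_singleton]
          tauto)
        constructor
        · intro h5
          rw [if_pos h5] at hz'
          omega
        · intro h5
          rw [if_pos h5] at hz'
          omega
    have nA : ∀ e ∈ D.rest A B, e ∉ A := fun e he => (mem_rest5.1 he).1
    have nB : ∀ e ∈ D.rest A B, e ∉ B := fun e he => (mem_rest5.1 he).2
    have sp : ∀ (A' B' : Finset D.E) (e : D.E), e ∉ A' → e ∉ B' →
        D.N A' B' = D.N (insert e A') B' + D.N A' (insert e B') :=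
      fun A' B' e h h' => D.N_split h h'
    have hr := star_rayleigh hStar
    obtain ⟨hs1, hs2⟩ := star_single hStar
    -- the seven kinds of trees
    have e0 : D.N (insert d (insert b (insert a A))) B = 0 := by
      apply hzero
      · exact ((Finset.subset_insert _ _).trans (Finset.subset_insert _ _)).trans
          (Finset.subset_insert _ _)
      · rw [hXabd]
        intro x hx
        simp only [Finset.mem_insert, Finset.mem_singleton] at hx ⊢
        tauto
    have aA := nA a har
    have aB := nB a har
    have bA := nA b hbr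
    have bB := nB b hbr
    have dA := nA d hdr
    have dB := nB d hdr
    have e1 := sp A B a aA aB
    have e1b := sp A B b bA bB
    have e1d := sp A B d dA dB
    have e2 := sp (insert a A) B b (by simp [hab.symm, bA]) bB
    have e3 := sp (insert b (insert a A)) B d (by simp [had.symm, hbd.symm, dA]) dB
    -- the trees with `a`
    have f1 := sp A (insert a B) b bA (by simp [hab.symm, bB])
    have f2 := sp (insert b A) (insert a B) d (by simp [hbd.symm, dA]) (by simp [had.symm, dB])
    have f3 := sp A (insert b (insert a B)) d dA (by simp [hbd.symm, had.symm, dB])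
    -- the trees with `b`
    have g1 := sp A (insert b B) a aA (by simp [hab, aB])
    have g2 := sp (insert a A) (insert b B) d (by simp [had.symm, dA]) (by simp [hbd.symm, dB])
    -- the trees with `d`
    have k1 := sp A (insert d B) a aA (by simp [had, aB])
    have k2 := sp (insert a A) (insert d B) b (by simp [hab.symm, bA]) (by simp [hbd, bB])
    have k3 := sp A (insert a (insert d B)) b bA (by simp [hab.symm, hbd, bB])
    -- two edges fixed
    have l1 := sp (insert d A) (insert a B) b (by simp [hbd, bA]) (by simp [hab.symm, bB])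
    have l2 := sp (insert b A) (insert d B) a (by simp [hab, aA]) (by simp [had, aB])
    have c1 : (insert d (insert b A) : Finset D.E) = insert b (insert d A) :=
      Finset.insert_comm _ _ _
    have c2 : (insert d (insert a A) : Finset D.E) = insert a (insert d A) :=
      Finset.insert_comm _ _ _
    have c3 : (insert b (insert a A) : Finset D.E) = insert a (insert b A) :=
      Finset.insert_comm _ _ _
    have c4 : (insert b (insert a B) : Finset D.E) = insert a (insert b B) :=
      Finset.insert_comm _ _ _
    have c5 : (insert d (insert a B) : Finset D.E) = insert a (insert d B) :=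
      Finset.insert_comm _ _ _
    have c6 : (insert d (insert b B) : Finset D.E) = insert b (insert d B) :=
      Finset.insert_comm _ _ _
    have c7 : (insert d (insert a (insert b B)) : Finset D.E) =
        insert a (insert b (insert d B)) := by
      rw [Finset.insert_comm d a, c6]
    have c8 : (insert b (insert a (insert d B)) : Finset D.E) =
        insert a (insert b (insert d B)) := Finset.insert_comm _ _ _
    rw [c3] at e2 e0 e3
    rw [c4] at f1 f3 l1
    rw [c1, c5] at f2
    rw [c7] at f3
    rw [c2, c6] at g2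
    rw [c3] at k2
    rw [c8] at k3
    have m1 := bR a har
    have m2 := bR b hbr
    have m3 := bR d hdr
    have m4 := bLR d hdr a har had
    have m5 := bLR a har b hbr hab.symm
    have m6 := bLR b hbr d hdr hbd.symm
    have o1 := bL a har
    have o2 := bL b hbr
    have o3 := bL d hdr
    set na := D.N (insert b (insert d A)) (insert a B)
    set nb := D.N (insert a (insert d A)) (insert b B)
    set nd := D.N (insert a (insert b A)) (insert d B)
    set nab := D.N (insert d A) (insert a (insert b B))
    set nad := D.N (insert b A) (insert a (insert d B))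
    set nbd := D.N (insert a A) (insert b (insert d B))
    set nabd := D.N A (insert a (insert b (insert d B)))
    have q1 : D.N A (insert a B) = na + nad + nab + nabd := by omega
    have q2 : D.N A (insert b B) = nb + nbd + nab + nabd := by omega
    have q3 : D.N A (insert d B) = nd + nbd + nad + nabd := by omega
    have q4 : D.N (insert d A) (insert a B) = na + nab := by omega
    have q5 : D.N (insert a A) (insert b B) = nb + nbd := by omega
    have q6 : D.N (insert b A) (insert d B) = nd + nad := by omega
    have q7 : D.N A B = 3 * na + (nab + nad + nbd) + nabd := by omega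
    right; right
    refine ⟨na, nab + nad + nbd, nabd, q7, ?_, ?_, ?_, hr⟩
    · omega
    · omega
    · omega

/-- at most nine trees if the rest has five edges -/
theorem nine_of_five (D : Diagram) (A B : Finset D.E) (hm : (D.rest A B).card = 5) :
    D.N A B ≤ 9 := by
  by_cases h0 : D.N A B = 0
  · omega
  have hG := D.good_of_N_ne_zero h0
  have h4 : ∀ (D : Diagram) (A' B' : Finset D.E), Disjoint A' B' →
      (D.rest A' B').card = 3 + 1 → D.N A' B' ≤ 5 := fun D A' B' _ h => five_of_four D A' B' h
  have h3 : ∀ (D : Diagram) (A' B' : Finset D.E), Disjoint A' B' →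
      (D.rest A' B').card = 3 → D.N A' B' ≤ 3 := by
    intro D A' B' _ h
    obtain ⟨k, hk⟩ := D.N_le_choose A' B'
    rw [h] at hk
    exact hk.trans (rec2_choose3 k)
  have fin : ∀ x : ℕ, (x ≤ 1 ∨ x ≤ 5 + 3 ∨ ∃ t P r : ℕ, x = 3 * t + P + r ∧
      3 * t + 2 * P + 3 * r ≤ 3 * 5 ∧ 6 * t + P ≤ 3 * 5 ∧ 3 * t + P ≤ 3 * 3 ∧
      12 * t * r ≤ P ^ 2) → x ≤ 9 := by
    rintro x (h | h | ⟨t, P, r, h, h1, h2, h3, h4⟩)
    · omega
    · omega
    · have ht : t ≤ 2 := by omega
      interval_cases t
      · omega
      · omega
      · have hP : P ≤ 3 := by omega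
        have hr : r = 0 := by
          by_contra hr
          have : P ^ 2 ≤ 3 ^ 2 := Nat.pow_le_pow_left hP 2
          omega
        omega
  apply fin
  rcases exists_degR_le_three D hG with ⟨c, hc⟩ | ⟨c, hc⟩
  · exact step_nat D hG 3 5 3 hm (h4 D) (h3 D) c hc
  · have hs := step_nat D.dual (A := B) (B := A) hG.dual 3 5 3 (by rw [D.rest_dual]; exact hm)
      (h4 D.dual) (h3 D.dual) c (by rw [D.rest_dual]; exact hc)
    rw [D.N_dual] at hs
    exact hs

/-- the bound with the constant five -/
theorem N_le5 (D : Diagram) (m : ℕ) (A B : Finset D.E) (hAB : Disjoint A B)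
    (hm : (D.rest A B).card = m + 4) :
    (D.N A B : ℝ) ≤ 5 * (3657 / 2000 : ℝ) ^ m := by
  induction m using Nat.strong_induction_on generalizing A B with
  | _ m ih =>
    rcases Nat.lt_or_ge m 2 with h2 | h2
    · interval_cases m
      · have h3 : (D.N A B : ℝ) ≤ 5 := by exact_mod_cast five_of_four D A B hm
        linarith
      · have h3 : (D.N A B : ℝ) ≤ 9 := by exact_mod_cast nine_of_five D A B hm
        linarith
    · obtain ⟨j, rfl⟩ : ∃ j, m = j + 2 := ⟨m - 2, by omega⟩
      by_cases h0 : D.N A B = 0
      · rw [h0]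
        simp only [Nat.cast_zero]
        positivity
      have hG := D.good_of_N_ne_zero h0
      have hj : (1 : ℝ) ≤ (3657 / 2000 : ℝ) ^ j := one_le_pow₀ (by norm_num)
      have hC0 : (0 : ℝ) ≤ 5 * (3657 / 2000 : ℝ) ^ j / (3657 / 2000 : ℝ) := by positivity
      have e3 : 5 * (3657 / 2000 : ℝ) ^ j / (3657 / 2000 : ℝ) * (3657 / 2000 : ℝ) ^ 3 =
          5 * (3657 / 2000 : ℝ) ^ (j + 2) := by
        rw [pow_add]
        ring
      have e2 : 5 * (3657 / 2000 : ℝ) ^ j / (3657 / 2000 : ℝ) * (3657 / 2000 : ℝ) ^ 2 =
          5 * (3657 / 2000 : ℝ) ^ (j + 1) := by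
        rw [pow_add]
        ring
      have e1 : 5 * (3657 / 2000 : ℝ) ^ j / (3657 / 2000 : ℝ) * (3657 / 2000 : ℝ) =
          5 * (3657 / 2000 : ℝ) ^ j := by
        ring
      have h1 : 1 ≤ 5 * (3657 / 2000 : ℝ) ^ j / (3657 / 2000 : ℝ) *
          (3657 / 2000 : ℝ) ^ 3 := by
        rw [e3, pow_add]
        nlinarith
      have ih2 : ∀ A' B' : Finset D.E, Disjoint A' B' → (D.rest A' B').card = (j + 3) + 2 →
          (D.N A' B' : ℝ) ≤ 5 * (3657 / 2000 : ℝ) ^ j / (3657 / 2000 : ℝ) *
            (3657 / 2000 : ℝ) ^ 2 := by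
        intro A' B' hd hr
        rw [e2]
        exact ih (j + 1) (by omega) A' B' hd (by omega)
      have ih1 : ∀ A' B' : Finset D.E, Disjoint A' B' → (D.rest A' B').card = (j + 3) + 1 →
          (D.N A' B' : ℝ) ≤ 5 * (3657 / 2000 : ℝ) ^ j / (3657 / 2000 : ℝ) *
            (3657 / 2000 : ℝ) := by
        intro A' B' hd hr
        rw [e1]
        exact ih j (by omega) A' B' hd (by omega)
      rw [← e3]
      rcases exists_degR_le_three D hG with ⟨c, hc⟩ | ⟨c, hc⟩
      · exact step D hG (j + 3) _ (by omega) hC0 h1 ih2 ih1 c hc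
      · have hs := step D.dual (A := B) (B := A) hG.dual (j + 3) _
          (by rw [D.rest_dual]; exact hm.trans (by omega)) hC0 h1
          (fun A' B' hd hr => by
            have e := D.N_dual B' A'
            have f := D.rest_dual B' A'
            rw [e]
            rw [f] at hr
            exact ih2 B' A' hd.symm hr)
          (fun A' B' hd hr => by
            have e := D.N_dual B' A'
            have f := D.rest_dual B' A'
            rw [e]
            rw [f] at hr
            exact ih1 B' A' hd.symm hr)
          c (by rw [D.rest_dual]; exact hc)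
        rw [D.N_dual] at hs
        exact hs

end Pool.Agent.Lib.TDen
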