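import Pool.Agent.Lib.TDen.Fin
import Pool.Agent.Lib.TDen.Five

/-!
# The sum of the absolute values of the coefficients, constant five
-/

set_option autoImplicit false

namespace Pool.Agent.Lib.TDen

open Real Pool.Agent.Lib.MP_20e20b_gt

/-- the sum of the absolute values of the coefficients, `m + 4` crossings -/
theorem coefSum_le5 (D : Diagram) (m : ℕ) (hm : D.crossings = m + 4) :
    (coefSum D.bracket : ℝ) ≤ 5 * (3657 / 2000 : ℝ) ^ m := by
  have h1 : (coefSum D.bracket : ℝ) ≤ (D.N ∅ ∅ : ℝ) := by exact_mod_cast D.coefSum_bracket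
  exact h1.trans (N_le5 D m ∅ ∅ (Finset.disjoint_empty_left _) (by rw [fin_rest]; exact hm))

end Pool.Agent.Lib.TDen
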