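import Pool.Agent.Lib.TDen.NumA

/-!
# Numerical facts for at most 132 crossings
-/

set_option autoImplicit false

namespace Pool.Agent.Lib.TDen

open Real Pool.Agent.Lib.MP_20e20b_gt

/-- partial sums of the alternating series -/
lemma vOct_gt' : 3.6637 < vOct := by
  set f : ℕ → ℝ := fun k => 1 / (2 * (k : ℝ) + 1) ^ 2 with hf
  have hanti : Antitone f := by
    intro a b hab
    simp only [hf]
    have : (a : ℝ) ≤ b := by exact_mod_cast hab
    apply one_div_le_one_div_of_le (by positivity)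
    apply pow_le_pow_left₀ (by positivity)
    linarith
  have hs : Summable fun k : ℕ => (-1 : ℝ) ^ k * f k := by
    have h2 : Summable fun k : ℕ => (1 : ℝ) / ((k : ℝ) + 1) ^ 2 := by
      have := (summable_nat_add_iff 1).2 (Real.summable_one_div_nat_pow.2 (show 1 < 2 by norm_num))
      simpa using this
    refine Summable.of_norm_bounded h2 ?_
    intro k
    rw [norm_mul, norm_pow, norm_neg, norm_one, one_pow, one_mul, Real.norm_of_nonneg (by
      simp only [hf]; positivity)]
    simp only [hf]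
    apply one_div_le_one_div_of_le (by positivity)
    apply pow_le_pow_left₀ (by positivity)
    have : (0 : ℝ) ≤ k := Nat.cast_nonneg k
    linarith
  have ht := hs.hasSum.tendsto_sum_nat
  have h := Antitone.alternating_series_le_tendsto ht hanti 30
  have e : (3.66371 : ℝ) / 4 ≤ ∑ i ∈ Finset.range (2 * 30), (-1 : ℝ) ^ i * f i := by
    simp only [hf, Finset.sum_range_succ, Finset.sum_range_zero, Nat.reduceMul]
    norm_num
  have h1 : vOct = 4 * ∑' k : ℕ, (-1 : ℝ) ^ k * f k := rfl
  rw [h1]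
  calc (3.6637 : ℝ) < 4 * (3.66371 / 4) := by norm_num
    _ ≤ _ := mul_le_mul_of_nonneg_left (e.trans h) (by norm_num)

/-- `2^83 ≤ (4/3)^200` -/
lemma log_three_quarters : Real.log (3 / 4) ≤ -0.2876 := by
  have h1 : (2 : ℝ) ^ 83 ≤ (4 / 3 : ℝ) ^ 200 := by norm_num
  have h2 : Real.log (2 ^ 83) ≤ Real.log ((4 / 3 : ℝ) ^ 200) :=
    Real.log_le_log (by positivity) h1
  rw [Real.log_pow, Real.log_pow] at h2
  push_cast at h2
  have h3 := Real.log_two_gt_d9
  have h4 : Real.log (3 / 4) = -Real.log (4 / 3) := by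
    rw [← Real.log_inv]; norm_num
  rw [h4]
  norm_num at h2 h3 ⊢
  linarith

/-- `25^20 ≤ 2^93` -/
lemma log_twentyfive : Real.log 25 ≤ 3.2232 := by
  have h1 : (25 : ℝ) ^ 20 ≤ 2 ^ 93 := by norm_num
  have h2 : Real.log (25 ^ 20) ≤ Real.log ((2 : ℝ) ^ 93) :=
    Real.log_le_log (by positivity) h1
  rw [Real.log_pow, Real.log_pow] at h2
  push_cast at h2
  have h3 := Real.log_two_lt_d9
  norm_num at h2 h3 ⊢
  linarith

/-- span at least `7`, at most `132` crossings -/
lemma num_132 {N : ℕ} (h1 : 3 ≤ N) (h2 : N ≤ 132) {s : ℝ} (hs : 0 < s)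
    (h : s * 8 * (3657 / 2000 : ℝ) ^ 4 ≤ 6 * (3657 / 2000 : ℝ) ^ N) :
    2 * π * Real.log s / N ≤ vOct := by
  have hN : (0 : ℝ) < N := by
    have : 0 < N := by omega
    exact_mod_cast this
  have hv := vOct_gt'
  have hπ := Real.pi_lt_d6
  have hπ0 := Real.pi_pos
  rw [div_le_iff₀ hN]
  have hδ0 : (0 : ℝ) < 3657 / 2000 := by norm_num
  have hlog : Real.log s + Real.log 8 + 4 * Real.log (3657 / 2000) ≤
      Real.log 6 + N * Real.log (3657 / 2000) := by
    have h3 := Real.log_le_log (by positivity) h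
    rw [Real.log_mul (by positivity) (by positivity), Real.log_mul hs.ne' (by norm_num),
      Real.log_mul (by norm_num) (by positivity), Real.log_pow, Real.log_pow] at h3
    push_cast at h3
    exact h3
  have h68 : Real.log 6 - Real.log 8 = Real.log (3 / 4) := by
    rw [← Real.log_div (by norm_num) (by norm_num)]
    norm_num
  have h34 := log_three_quarters
  have hd := log_delta_le
  have hd0 : 0 < Real.log (3657 / 2000 : ℝ) := Real.log_pos (by norm_num)
  have hN2 : (N : ℝ) ≤ 132 := by exact_mod_cast h2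
  rcases Nat.lt_or_ge N 4 with h5 | h5
  · have h6 : N = 3 := by omega
    subst h6
    have h7 : Real.log s ≤ 0 := by
      push_cast at hlog
      linarith
    have : 2 * π * Real.log s ≤ 0 := mul_nonpos_of_nonneg_of_nonpos (by positivity) h7
    have h8 : 0 ≤ vOct * ((3 : ℕ) : ℝ) := by
      have : (0 : ℝ) ≤ vOct := by linarith
      positivity
    linarith
  · have hN4 : (4 : ℝ) ≤ N := by exact_mod_cast h5
    have h6 : ((N : ℝ) - 4) * Real.log (3657 / 2000) ≤ (N - 4) * 0.60352 :=
      mul_le_mul_of_nonneg_left hd (by linarith)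
    have h7 : Real.log s ≤ -0.2876 + (N - 4) * 0.60352 := by linarith
    have h8 : 2 * π * Real.log s ≤ 2 * π * (-0.2876 + (N - 4) * 0.60352) :=
      mul_le_mul_of_nonneg_left h7 (by positivity)
    rcases le_or_gt (-0.2876 + ((N : ℝ) - 4) * 0.60352) 0 with h9 | h9
    · have h10 : 2 * π * (-0.2876 + ((N : ℝ) - 4) * 0.60352) ≤ 0 :=
        mul_nonpos_of_nonneg_of_nonpos (by positivity) h9
      have h11 : 0 ≤ vOct * (N : ℝ) := by
        have : (0 : ℝ) ≤ vOct := by linarith
        positivity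
      linarith
    · have h10 : 2 * π * (-0.2876 + ((N : ℝ) - 4) * 0.60352) ≤
          6.283186 * (-0.2876 + (N - 4) * 0.60352) :=
        mul_le_mul_of_nonneg_right (by linarith) h9.le
      have h11 : (3.6637 : ℝ) * N ≤ vOct * N := mul_le_mul_of_nonneg_right hv.le hN.le
      norm_num at h10 h11 h8 ⊢
      linarith

/-- span at most `6` -/
lemma num_span {N : ℕ} (h1 : 14 ≤ N) {s : ℝ} (hs : 0 < s) (h : s ≤ 25 * √2 ^ N) :
    2 * π * Real.log s / N ≤ vOct := by
  have hN14 : (14 : ℝ) ≤ N := by exact_mod_cast h1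
  have hN : (0 : ℝ) < N := by linarith
  have hv := vOct_gt'
  have hπ := Real.pi_lt_d6
  have hπ0 := Real.pi_pos
  rw [div_le_iff₀ hN]
  have hlog : Real.log s ≤ Real.log 25 + N * (Real.log 2 / 2) := by
    have h3 := Real.log_le_log hs h
    rw [Real.log_mul (by norm_num) (by positivity), Real.log_pow, Real.log_sqrt (by norm_num)] at h3
    exact h3
  have h25 := log_twentyfive
  have h2 := Real.log_two_lt_d9
  have h7 : Real.log s ≤ 3.2232 + N * 0.3466 := by
    have : (N : ℝ) * (Real.log 2 / 2) ≤ N * 0.3466 :=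
      mul_le_mul_of_nonneg_left (by norm_num at h2 ⊢; linarith) hN.le
    linarith
  have h8 : 2 * π * Real.log s ≤ 2 * π * (3.2232 + N * 0.3466) :=
    mul_le_mul_of_nonneg_left h7 (by positivity)
  have h9 : (0 : ℝ) ≤ 3.2232 + (N : ℝ) * 0.3466 := by positivity
  have h10 : 2 * π * (3.2232 + (N : ℝ) * 0.3466) ≤ 6.283186 * (3.2232 + N * 0.3466) :=
    mul_le_mul_of_nonneg_right (by linarith) h9
  have h11 : (3.6637 : ℝ) * N ≤ vOct * N := mul_le_mul_of_nonneg_right hv.le hN.le
  norm_num at h10 h11 h8 ⊢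
  linarith

end Pool.Agent.Lib.TDen
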