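import Pool.Agent.Lib.TDen.Graph
import Pool.Agent.Lib.TDT.MT

/-!
# The matrix-forest theorem for forests rooted at a set of vertices
-/

set_option autoImplicit false

namespace Pool.Agent.Lib.TDen

open Classical in
/-- the sets of edges in `S` with `|V| - |U|` elements that connect every vertex to a vertex of
`U`: the spanning forests rooted at `U` -/
noncomputable def forests {V E : Type} [Fintype V] (g : E → V × V) (S : Finset E)
    (U : Finset V) : Finset (Finset E) :=
  S.powerset.filter fun S' => S'.card + U.card = Fintype.card V ∧ ∀ v, ∃ u ∈ U, Conn g S' u v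

/-- the incidence vector of an edge (zero for a loop) -/
noncomputable def inc {V E : Type} [DecidableEq V] (g : E → V × V) (e : E) (i : V) : ℝ :=
  (if i = (g e).1 then 1 else 0) - (if i = (g e).2 then 1 else 0)

/-- the Laplace matrix -/
noncomputable def lap {V E : Type} [DecidableEq V] (g : E → V × V) (S : Finset E) :
    Matrix V V ℝ := fun i j => ∑ e ∈ S, inc g e i * inc g e j

/-- the Laplace matrix with the rows and columns in `U` replaced by those of the identity -/
noncomputable def lapU {V E : Type} [DecidableEq V] (g : E → V × V) (S : Finset E)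
    (U : Finset V) : Matrix V V ℝ := fun i j =>
  if i ∈ U ∨ j ∈ U then (if i = j then 1 else 0) else lap g S i j

variable {V E : Type} [Fintype V] [DecidableEq V] [DecidableEq E]

omit [Fintype V] [DecidableEq E] in
lemma lapU_eq_KM (g : E → V × V) (S : Finset E) (U : Finset V) :
    lapU g S U = TDT.KM g (fun _ => 1) U S := by
  ext i j
  unfold lapU TDT.KM
  have h0 : ∀ i ∈ U, ∀ e, TDT.uu g U e i = 0 := fun i hi e => by simp [TDT.uu, hi]
  have h1 : ∀ i ∉ U, ∀ e, TDT.uu g U e i = inc g e i := fun i hi e => by
    simp [TDT.uu, hi, inc]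
  by_cases hi : i ∈ U
  · simp only [hi, true_or, if_true, and_true, h0 i hi, mul_zero, zero_mul,
      Finset.sum_const_zero, add_zero]
  · by_cases hj : j ∈ U
    · have hij : i ≠ j := fun h => hi (h ▸ hj)
      simp only [hi, hj, or_true, if_true, and_false, if_false, h0 j hj, mul_zero,
        Finset.sum_const_zero, add_zero, if_neg hij]
    · simp only [hi, hj, or_false, if_false, and_false, zero_add, lap, h1 i hi, h1 j hj, one_mul]

/-- replacing the row `u ∉ U` by a row of the identity gives the determinant of
`lapU g S (insert u U)`. -/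
lemma det_updateRow_lapU (g : E → V × V) (S : Finset E) (U : Finset V) {u : V} (hu : u ∉ U) :
    ((lapU g S U).updateRow u (Pi.single u 1)).det = (lapU g S (insert u U)).det := by
  rw [← TDT.adj_col]
  congr 1
  ext i j
  by_cases hi : i = u
  · subst hi
    rw [Matrix.updateRow_self]
    simp only [lapU, Finset.mem_insert_self, true_or, if_true, Pi.single_apply]
    by_cases hj : j = i
    · subst hj; simp
    · rw [if_neg hj, if_neg (fun h => hj h.symm)]
  · rw [Matrix.updateRow_ne hi]
    by_cases hj : j = u
    · subst hj
      rw [Matrix.updateCol_self]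
      simp only [lapU, Finset.mem_insert_self, or_true, if_true, Pi.single_apply]
    · rw [Matrix.updateCol_ne hj]
      simp only [lapU, Finset.mem_insert, hi, hj, false_or]

omit [DecidableEq V] [DecidableEq E] in
lemma cut_iff (g : E → V × V) (S' : Finset E) (U : Finset V) :
    TDT.Conn g U S' ↔ ∀ v, ∃ u ∈ U, Conn g S' u v := by
  classical
  constructor
  · intro h v
    by_contra hcon
    push Not at hcon
    obtain ⟨e, he, hne⟩ := h (Finset.univ.filter fun p => Conn g S' p v)
      ⟨v, by simpa using Conn.refl g S' v⟩ (by
        rw [Finset.disjoint_left]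
        intro p hp hpU
        exact hcon p hpU (Finset.mem_filter.1 hp).2)
    apply hne
    simp only [Finset.mem_filter, Finset.mem_univ, true_and]
    exact ⟨fun h1 => (Conn.edge he).symm.trans h1, fun h1 => (Conn.edge he).trans h1⟩
  · intro h X hX hd
    obtain ⟨v, hv⟩ := hX
    obtain ⟨u, hu, huv⟩ := h v
    by_contra hcon
    push Not at hcon
    have h1 : (u ∈ X ↔ v ∈ X) := Conn.rec_on huv (fun p q => (p ∈ X ↔ q ∈ X))
      ⟨fun _ => Iff.rfl, fun h => h.symm, fun h h' => h.trans h'⟩ hcon
    exact Finset.disjoint_left.1 hd (h1.2 hv) hu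

/-- the matrix-forest theorem. -/
theorem forests_eq_det (g : E → V × V) (S : Finset E) (U : Finset V) :
    ((forests g S U).card : ℝ) = (lapU g S U).det := by
  classical
  rw [lapU_eq_KM, TDT.det_eq_TS]
  unfold TDT.TS forests
  rw [Finset.card_filter]
  push_cast
  refine Finset.sum_congr rfl fun B _ => ?_
  have h1 : (B.card + U.card = Fintype.card V ∧ ∀ v, ∃ u ∈ U, Conn g B u v) ↔
      (B.card = (Uᶜ).card ∧ TDT.Conn g U B) := by
    rw [cut_iff]
    refine and_congr ?_ Iff.rfl
    rw [Finset.card_compl]
    have := Finset.card_le_univ U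
    omega
  by_cases h2 : B.card = (Uᶜ).card ∧ TDT.Conn g U B
  · rw [if_pos h2, if_pos (h1.2 h2)]; simp
  · rw [if_neg h2, if_neg (fun h => h2 (h1.1 h))]

omit [DecidableEq V] [DecidableEq E] in
/-- the number of spanning trees does not depend on the root -/
lemma forests_root (g : E → V × V) (S : Finset E) (x y : V) :
    forests g S {x} = forests g S {y} := by
  classical
  unfold forests
  refine Finset.filter_congr fun B _ => ?_
  simp only [Finset.card_singleton, Finset.mem_singleton, exists_eq_left]
  refine and_congr Iff.rfl ⟨fun h v => ?_, fun h v => ?_⟩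
  · exact (h y).symm.trans (h v)
  · exact (h x).symm.trans (h v)

end Pool.Agent.Lib.TDen
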