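import Mathlib

/-!
# Components of a finite multigraph

A multigraph with vertex type `V` and edge type `E` is a map `g : E → V × V`.
-/

set_option autoImplicit false

namespace Pool.Agent.Lib.TDen

variable {V E : Type}

/-- `u` and `v` are the ends of an edge in `S` -/
def Rel (g : E → V × V) (S : Finset E) (u v : V) : Prop := ∃ e ∈ S, g e = (u, v)

/-- the connected components of the graph with vertex set `V` and edge set `S` -/
abbrev Comp (g : E → V × V) (S : Finset E) : Type := Quot (Rel g S)

/-- the number of connected components of the graph with vertex set `V` and edge set `S` -/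
noncomputable def comps (g : E → V × V) (S : Finset E) : ℕ := Nat.card (Comp g S)

/-- `u` and `v` lie in the same component -/
def Conn (g : E → V × V) (S : Finset E) (u v : V) : Prop :=
  (Quot.mk (Rel g S) u : Comp g S) = Quot.mk (Rel g S) v

lemma Conn.refl (g : E → V × V) (S : Finset E) (u : V) : Conn g S u u := rfl

lemma Conn.symm {g : E → V × V} {S : Finset E} {u v : V} (h : Conn g S u v) : Conn g S v u :=
  Eq.symm h

lemma Conn.trans {g : E → V × V} {S : Finset E} {u v w : V} (h : Conn g S u v)
    (h' : Conn g S v w) : Conn g S u w := Eq.trans h h'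

lemma Conn.edge {g : E → V × V} {S : Finset E} {e : E} (he : e ∈ S) :
    Conn g S (g e).1 (g e).2 := Quot.sound ⟨e, he, rfl⟩

/-- a relation that contains the edges and is an equivalence contains `Conn` -/
lemma Conn.rec_on {g : E → V × V} {S : Finset E} {u v : V} (h : Conn g S u v)
    (r : V → V → Prop) (hr : Equivalence r) (he : ∀ e ∈ S, r (g e).1 (g e).2) : r u v := by
  have h' : Relation.EqvGen (Rel g S) u v := Quot.eqvGen_exact h
  induction h' with
  | rel x y hxy =>
    obtain ⟨e, heS, hge⟩ := hxy
    have := he e heS
    rw [hge] at this
    exact this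
  | refl x => exact hr.refl x
  | symm x y _ ih => exact hr.symm (ih (by
      rename_i hxy
      exact Quot.eqvGen_sound hxy))
  | trans x y z _ _ ih1 ih2 =>
    rename_i hxy hyz
    exact hr.trans (ih1 (Quot.eqvGen_sound hxy)) (ih2 (Quot.eqvGen_sound hyz))

lemma Conn.mono {g : E → V × V} {S S' : Finset E} (hS : S ⊆ S') {u v : V} (h : Conn g S u v) :
    Conn g S' u v :=
  h.rec_on (Conn g S') ⟨Conn.refl g S', Conn.symm, Conn.trans⟩ fun _ he => Conn.edge (hS he)

/-- the canonical map between the sets of components -/
private def compMap (g : E → V × V) {S S' : Finset E} (hS : S ⊆ S') : Comp g S → Comp g S' :=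
  Quot.lift (fun v => Quot.mk (Rel g S') v) (by
    rintro a b ⟨e, he, hab⟩
    exact Quot.sound ⟨e, hS he, hab⟩)

private lemma compMap_surj (g : E → V × V) {S S' : Finset E} (hS : S ⊆ S') :
    Function.Surjective (compMap g hS) := by
  intro c
  induction c using Quot.ind with
  | mk v => exact ⟨Quot.mk _ v, rfl⟩

variable [Fintype V] [DecidableEq E]

omit [DecidableEq E] in
lemma comps_empty (g : E → V × V) : comps g ∅ = Fintype.card V := by
  rw [comps, ← Nat.card_eq_fintype_card]
  refine (Nat.card_congr (Equiv.ofBijective (fun v : V => (Quot.mk (Rel g ∅) v : Comp g ∅))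
    ⟨?_, ?_⟩)).symm
  · intro u v h
    exact Conn.rec_on (g := g) (S := ∅) h Eq ⟨fun _ => rfl, Eq.symm, Eq.trans⟩
      (fun e he => absurd he (Finset.notMem_empty e))
  · intro c
    induction c using Quot.ind with
    | mk v => exact ⟨v, rfl⟩

omit [DecidableEq E] in
lemma comps_mono (g : E → V × V) {S S' : Finset E} (hS : S ⊆ S') : comps g S' ≤ comps g S := by
  unfold comps
  exact Nat.card_le_card_of_surjective (compMap g hS) (compMap_surj g hS)

omit [DecidableEq E] in
lemma comps_pos [Nonempty V] (g : E → V × V) (S : Finset E) : 0 < comps g S := by
  unfold comps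
  have : Nonempty (Comp g S) := ⟨Quot.mk _ (Classical.arbitrary V)⟩
  exact Nat.card_pos

omit [Fintype V] in
/-- an edge inside a component does not change the number of components -/
lemma comps_insert_of_conn (g : E → V × V) {S : Finset E} {e : E}
    (h : Conn g S (g e).1 (g e).2) : comps g (insert e S) = comps g S := by
  unfold comps
  refine (Nat.card_congr (Equiv.ofBijective (compMap g (Finset.subset_insert e S))
    ⟨?_, compMap_surj g _⟩)).symm
  intro a b hab
  induction a using Quot.ind with
  | mk u =>
    induction b using Quot.ind with
    | mk v =>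
      have h' : Conn g (insert e S) u v := hab
      exact h'.rec_on (Conn g S) ⟨Conn.refl g S, Conn.symm, Conn.trans⟩ (by
        intro f hf
        rcases Finset.mem_insert.mp hf with rfl | hf
        · exact h
        · exact Conn.edge hf)

/-- an edge between two components decreases the number of components by one -/
lemma comps_insert_of_not_conn (g : E → V × V) {S : Finset E} {e : E}
    (h : ¬ Conn g S (g e).1 (g e).2) : comps g (insert e S) + 1 = comps g S := by
  classical
  set x : Comp g S := Quot.mk (Rel g S) (g e).1 with hx
  set y : Comp g S := Quot.mk (Rel g S) (g e).2 with hy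
  have hxy : x ≠ y := h
  let F : {c : Comp g S // c ≠ y} → Comp g (insert e S) :=
    fun c => compMap g (Finset.subset_insert e S) c.1
  have hF : Function.Bijective F := by
    constructor
    · rintro ⟨a, ha⟩ ⟨b, hb⟩ hab
      induction a using Quot.ind with
      | mk u =>
        induction b using Quot.ind with
        | mk v =>
          have h' : Conn g (insert e S) u v := hab
          let f : V → Comp g S := fun w =>
            if (Quot.mk (Rel g S) w : Comp g S) = y then x else Quot.mk (Rel g S) w
          have key : f u = f v := h'.rec_on (fun u v => f u = f v)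
            ⟨fun _ => rfl, Eq.symm, Eq.trans⟩ (by
              intro k hk
              rcases Finset.mem_insert.mp hk with rfl | hk
              · have e1 : f (g k).1 = x := by
                  simp only [f]
                  rw [if_neg]
                  exact hxy
                have e2 : f (g k).2 = x := by
                  simp only [f]
                  rw [if_pos rfl]
                change f (g k).1 = f (g k).2
                rw [e1, e2]
              · have : (Quot.mk (Rel g S) (g k).1 : Comp g S) = Quot.mk (Rel g S) (g k).2 :=
                  Conn.edge hk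
                change f (g k).1 = f (g k).2
                simp only [f, this])
          simp only [f] at key
          rw [if_neg ha, if_neg hb] at key
          exact Subtype.ext key
    · intro c
      induction c using Quot.ind with
      | mk w =>
        by_cases hw : (Quot.mk (Rel g S) w : Comp g S) = y
        · refine ⟨⟨x, hxy⟩, ?_⟩
          have h1 : Conn g (insert e S) (g e).1 (g e).2 :=
            Conn.edge (Finset.mem_insert_self e S)
          have h2 : Conn g (insert e S) w (g e).2 :=
            Conn.mono (Finset.subset_insert e S) hw
          exact h1.trans h2.symm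
        · exact ⟨⟨Quot.mk _ w, hw⟩, rfl⟩
  unfold comps
  rw [← Nat.card_congr (Equiv.ofBijective F hF), ← Finite.card_option]
  exact Nat.card_congr (Equiv.optionSubtypeNe y)

lemma card_le_comps_add (g : E → V × V) (S : Finset E) :
    Fintype.card V ≤ comps g S + S.card := by
  induction S using Finset.induction_on with
  | empty => rw [comps_empty]; simp
  | insert e S he ih =>
    rw [Finset.card_insert_of_notMem he]
    by_cases h : Conn g S (g e).1 (g e).2
    · rw [comps_insert_of_conn g h]; omega
    · have := comps_insert_of_not_conn g h; omega

omit [Fintype V] [DecidableEq E] in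
lemma conn_of_comps_eq_one {g : E → V × V} {S : Finset E} (h : comps g S = 1) (u v : V) :
    Conn g S u v := by
  unfold comps at h
  have := (Nat.card_eq_one_iff_unique.mp h).1
  exact Subsingleton.elim _ _

omit [Fintype V] [DecidableEq E] in
lemma comps_eq_one_iff [Nonempty V] {g : E → V × V} {S : Finset E} :
    comps g S = 1 ↔ ∀ u v, Conn g S u v := by
  refine ⟨conn_of_comps_eq_one, fun h => ?_⟩
  unfold comps
  refine Nat.card_eq_one_iff_unique.mpr ⟨⟨fun a b => ?_⟩, ⟨Quot.mk _ (Classical.arbitrary V)⟩⟩
  induction a using Quot.ind with
  | mk u =>
    induction b using Quot.ind with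
    | mk v => exact h u v

/-- the graph obtained by contracting the edges in `B` -/
def quo (g : E → V × V) (B : Finset E) : E → Comp g B × Comp g B := fun e =>
  (Quot.mk _ (g e).1, Quot.mk _ (g e).2)

omit [Fintype V] in
/-- connectedness after contracting `B` -/
lemma conn_quo (g : E → V × V) {B S : Finset E} (hB : B ⊆ S) (u v : V) :
    Conn g S u v ↔ Conn (quo g B) (S \ B) (Quot.mk _ u) (Quot.mk _ v) := by
  constructor
  · intro h
    refine h.rec_on (fun u v => Conn (quo g B) (S \ B) (Quot.mk _ u) (Quot.mk _ v))
      ⟨fun _ => rfl, Eq.symm, Eq.trans⟩ ?_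
    intro e he
    by_cases heB : e ∈ B
    · have : (Quot.mk (Rel g B) (g e).1 : Comp g B) = Quot.mk (Rel g B) (g e).2 :=
        Conn.edge heB
      change Conn (quo g B) (S \ B) (Quot.mk _ (g e).1) (Quot.mk _ (g e).2)
      rw [this]
      exact Conn.refl _ _ _
    · exact Conn.edge (g := quo g B) (Finset.mem_sdiff.mpr ⟨he, heB⟩)
  · intro h
    exact h.rec_on (fun c c' => compMap g hB c = compMap g hB c')
      ⟨fun _ => rfl, Eq.symm, Eq.trans⟩ (by
        intro e he
        exact Conn.edge (g := g) (S := S) (Finset.mem_sdiff.mp he).1)

end Pool.Agent.Lib.TDen
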