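import Pool.Agent.Lib.TDen.Coef

/-!
# The exponents of the bracket are congruent modulo four
-/

set_option autoImplicit false

namespace Pool.Agent.Lib.TDen.Diagram

open LaurentPolynomial Pool.Agent.Lib.MP_20e20b_gt

/-- all exponents of `p` are congruent to `r` modulo `4` -/
def ModR (r : ℤ) (p : LaurentPolynomial ℤ) : Prop := ∀ i, p.coeff i ≠ 0 → (4 : ℤ) ∣ (i - r)

lemma ModR.add {r : ℤ} {p q : LaurentPolynomial ℤ} (hp : ModR r p) (hq : ModR r q) :
    ModR r (p + q) := by
  intro i hi
  by_contra h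
  apply hi
  have h1 : p.coeff i = 0 := by
    by_contra h1; exact h (hp i h1)
  have h2 : q.coeff i = 0 := by
    by_contra h2; exact h (hq i h2)
  simp [h1, h2]

lemma ModR.zero (r : ℤ) : ModR r 0 := by
  intro i hi
  exact absurd (by simp) hi

lemma ModR.neg {r : ℤ} {p : LaurentPolynomial ℤ} (hp : ModR r p) : ModR r (-p) := by
  intro i hi
  apply hp
  intro h
  apply hi
  simp [h]

lemma ModR.sum {r : ℤ} {ι : Type} (s : Finset ι) (f : ι → LaurentPolynomial ℤ)
    (h : ∀ i ∈ s, ModR r (f i)) : ModR r (∑ i ∈ s, f i) := by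
  classical
  induction s using Finset.induction_on with
  | empty => simpa using ModR.zero r
  | insert i s hi ih =>
    rw [Finset.sum_insert hi]
    exact (h i (Finset.mem_insert_self i s)).add
      (ih fun j hj => h j (Finset.mem_insert_of_mem hj))

lemma ModR.T_mul {r : ℤ} {p : LaurentPolynomial ℤ} (n : ℤ) (hp : ModR r p) :
    ModR (r + n) (T n * p) := by
  intro i hi
  have h : (T n * p).coeff i = p.coeff (i - n) := by
    have h1 := AddMonoidAlgebra.coeff_single_mul_apply p (1 : ℤ) n i
    rw [one_mul, show -n + i = i - n by ring] at h1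
    exact h1
  rw [h] at hi
  have := hp _ hi
  have e : i - n - r = i - (r + n) := by ring
  rwa [e] at this

lemma ModR.congr {r s : ℤ} {p : LaurentPolynomial ℤ} (hp : ModR r p) (h : (4 : ℤ) ∣ (r - s)) :
    ModR s p := by
  intro i hi
  have h1 := dvd_add (hp i hi) h
  have e : i - r + (r - s) = i - s := by ring
  rwa [e] at h1

lemma ModR.circ_mul {r : ℤ} {p : LaurentPolynomial ℤ} (hp : ModR r p) :
    ModR (r + 2) (circ * p) := by
  have e : circ * p = -(T 2 * p) + -(T (-2) * p) := by
    unfold circ; ring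
  rw [e]
  refine (hp.T_mul 2).neg.add ?_
  refine ((hp.T_mul (-2)).congr ?_).neg
  exact ⟨-1, by ring⟩

lemma ModR.circ_pow (k : ℕ) : ModR (2 * k) (circ ^ k) := by
  induction k with
  | zero =>
    intro i hi
    rw [pow_zero] at hi
    have : i = 0 := by
      by_contra h
      apply hi
      rw [← T_zero, T_apply, if_neg (Ne.symm h)]
    subst this
    simp
  | succ k ih =>
    rw [pow_succ']
    have := ih.circ_mul
    have e : (2 * (k : ℤ) + 2) = 2 * ((k + 1 : ℕ) : ℤ) := by push_cast; ring
    rwa [e] at this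

lemma step_mod (D : Diagram) {S : Finset D.E} {e : D.E} (he : e ∉ S) :
    (4 : ℤ) ∣ (2 * (D.kk (insert e S) : ℤ) + ∑ x, D.expo (insert e S) x)
      - (2 * (D.kk S : ℤ) + ∑ x, D.expo S x) := by
  have h1 := two_le (D := D) S
  have h2 := two_le (D := D) (insert e S)
  have k1 : (D.kk S : ℤ) = comps D.g S + comps D.h Sᶜ - 2 := by
    rw [kk]; omega
  have k2 : (D.kk (insert e S) : ℤ) = comps D.g (insert e S) + comps D.h (insert e S)ᶜ - 2 := by
    rw [kk]; omega
  have h3 := D.euler S
  have h4 := D.euler (insert e S)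
  rw [Finset.card_insert_of_notMem he] at h4
  have hx : ∑ x, D.expo (insert e S) x - ∑ x, D.expo S x = 2 ∨
      ∑ x, D.expo (insert e S) x - ∑ x, D.expo S x = -2 := by
    rw [← Finset.add_sum_erase Finset.univ (D.expo (insert e S)) (Finset.mem_univ e),
      ← Finset.add_sum_erase Finset.univ (D.expo S) (Finset.mem_univ e)]
    have e1 : ∑ x ∈ Finset.univ.erase e, D.expo (insert e S) x
        = ∑ x ∈ Finset.univ.erase e, D.expo S x :=
      Finset.sum_congr rfl fun x hx => expo_insert (Finset.ne_of_mem_erase hx)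
    rw [e1]
    have e2 : D.expo (insert e S) e = if D.pos e = true then 1 else -1 := by
      simp [expo]
    have e3 : D.expo S e = -(if D.pos e = true then 1 else -1) := by
      cases hp : D.pos e <;> simp [expo, he, hp]
    rw [e2, e3]
    split_ifs
    · left; ring
    · right; ring
  rcases hx with hx | hx <;> omega

/-- all exponents of the bracket are congruent modulo `4` -/
lemma exists_mod (D : Diagram) :
    ∃ r : ℤ, ∀ i, D.bracket.coeff i ≠ 0 → (4 : ℤ) ∣ (i - r) := by
  refine ⟨2 * (D.kk ∅ : ℤ) + ∑ x, D.expo ∅ x, ?_⟩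
  have key : ∀ S : Finset D.E, (4 : ℤ) ∣ (2 * (D.kk S : ℤ) + ∑ x, D.expo S x)
      - (2 * (D.kk ∅ : ℤ) + ∑ x, D.expo ∅ x) := by
    intro S
    induction S using Finset.induction_on with
    | empty => simp
    | insert e S he ih =>
      have h := dvd_add (D.step_mod he) ih
      rwa [sub_add_sub_cancel] at h
  have h : ModR (2 * (D.kk ∅ : ℤ) + ∑ x, D.expo ∅ x) D.bracket := by
    rw [bracket]
    refine ModR.sum _ _ fun S _ => ?_
    exact ((ModR.circ_pow (D.kk S)).T_mul (∑ x, D.expo S x)).congr (key S)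
  exact h

end Pool.Agent.Lib.TDen.Diagram
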