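import Pool.Agent.Lib.MP_20e20b_gt.Num

/-!
# Numerical facts
-/

set_option autoImplicit false

namespace Pool.Agent.Lib.TDen

open Real Pool.Agent.Lib.MP_20e20b_gt

/-- `δ^116 ≤ 2^101` -/
lemma log_delta_le : Real.log (3657 / 2000) ≤ 0.60352 := by
  have h1 : ((3657 / 2000 : ℝ)) ^ 116 ≤ 2 ^ 101 := by norm_num
  have h2 : Real.log ((3657 / 2000 : ℝ) ^ 116) ≤ Real.log (2 ^ 101) :=
    Real.log_le_log (by positivity) h1
  rw [Real.log_pow, Real.log_pow] at h2
  push_cast at h2
  have h3 := Real.log_two_lt_d9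
  norm_num at h2 h3 ⊢
  linarith

/-- partial sums of the alternating series -/
lemma vOct_gt : 3.663 < vOct := by
  set f : ℕ → ℝ := fun k => 1 / (2 * (k : ℝ) + 1) ^ 2 with hf
  have hanti : Antitone f := by
    intro a b hab
    simp only [hf]
    have : (a : ℝ) ≤ b := by exact_mod_cast hab
    apply one_div_le_one_div_of_le (by positivity)
    apply pow_le_pow_left₀ (by positivity)
    linarith
  have hs : Summable fun k : ℕ => (-1 : ℝ) ^ k * f k := by
    have h2 : Summable fun k : ℕ => (1 : ℝ) / ((k : ℝ) + 1) ^ 2 := by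
      have := (summable_nat_add_iff 1).2 (Real.summable_one_div_nat_pow.2 (show 1 < 2 by norm_num))
      simpa using this
    refine Summable.of_norm_bounded h2 ?_
    intro k
    rw [norm_mul, norm_pow, norm_neg, norm_one, one_pow, one_mul, Real.norm_of_nonneg (by
      simp only [hf]; positivity)]
    simp only [hf]
    apply one_div_le_one_div_of_le (by positivity)
    apply pow_le_pow_left₀ (by positivity)
    have : (0 : ℝ) ≤ k := Nat.cast_nonneg k
    linarith
  have ht := hs.hasSum.tendsto_sum_nat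
  have h := Antitone.alternating_series_le_tendsto ht hanti 13
  have e : (3.66305 : ℝ) / 4 ≤ ∑ i ∈ Finset.range (2 * 13), (-1 : ℝ) ^ i * f i := by
    simp only [hf, Finset.sum_range_succ, Finset.sum_range_zero, Nat.reduceMul]
    norm_num
  have h1 : vOct = 4 * ∑' k : ℕ, (-1 : ℝ) ^ k * f k := rfl
  rw [h1]
  calc (3.663 : ℝ) < 4 * (3.66305 / 4) := by norm_num
    _ ≤ _ := mul_le_mul_of_nonneg_left (e.trans h) (by norm_num)

lemma two_pi_log_delta_lt : 2 * π * Real.log (3657 / 2000) < 3.793 := by
  have h1 := log_delta_le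
  have h3 := Real.pi_lt_d4
  have h4 : 0 < Real.log (3657 / 2000 : ℝ) := Real.log_pos (by norm_num)
  have h5 : 2 * π * Real.log (3657 / 2000) ≤ 2 * 3.1416 * 0.60352 := by
    apply mul_le_mul _ h1 h4.le (by norm_num)
    linarith
  norm_num at h5 ⊢
  linarith

end Pool.Agent.Lib.TDen
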