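import Mathlib

/-!
# The optimisation at a vertex of degree three
-/

set_option autoImplicit false

namespace Pool.Agent.Lib.TDen

/-- PROOF: suppose `3t + P + r > c d^3`. Subtracting the first hypothesis (divided by 3):
`2t + P/3 > c (d^3 - d^2)`, so with the second one `t > c (d^3 - d^2 - d)`; and
`r > c (d^3 - 3 d)`, `P ≤ 3 (c d - t) < 3 c (2 d + d^2 - d^3)`. Hence `12 t r > P^2` because
`4 (d^3 - d^2 - d) (d^3 - 3 d) ≥ 3 (2 d + d^2 - d^3)^2` for `d = 3657/2000`. -/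
theorem opt {t P r c : ℝ} (hc : 0 ≤ c) (ht : 0 ≤ t) (hP : 0 ≤ P) (hr : 0 ≤ r)
    (h1 : 3 * t + 2 * P + 3 * r ≤ 3 * (c * (3657 / 2000) ^ 2))
    (h2 : 3 * t + P ≤ 3 * (c * (3657 / 2000)))
    (h3 : 12 * t * r ≤ P ^ 2) :
    3 * t + P + r ≤ c * (3657 / 2000) ^ 3 := by
  by_contra hcon
  push Not at hcon
  have _ := hr
  have h4 : c * ((3657 / 2000) ^ 3 - (3657 / 2000) ^ 2 - 3657 / 2000) < t := by linarith
  have h5 : c * ((3657 / 2000) ^ 3 - 3 * (3657 / 2000)) < r := by linarith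
  have h6 : P < c * (3 * (2 * (3657 / 2000) + (3657 / 2000) ^ 2 - (3657 / 2000) ^ 3)) := by
    linarith
  have h7 : (c * ((3657 / 2000) ^ 3 - (3657 / 2000) ^ 2 - 3657 / 2000)) *
      (c * ((3657 / 2000) ^ 3 - 3 * (3657 / 2000))) ≤ t * r := by
    apply mul_le_mul h4.le h5.le _ ht
    apply mul_nonneg hc
    norm_num
  have h8 : P ^ 2 < (c * (3 * (2 * (3657 / 2000) + (3657 / 2000) ^ 2 -
      (3657 / 2000) ^ 3))) ^ 2 := by
    apply pow_lt_pow_left₀ h6 hP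
    norm_num
  have h9 : 0 ≤ c ^ 2 := sq_nonneg c
  norm_num at h7 h8
  nlinarith

end Pool.Agent.Lib.TDen
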