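import Pool.Agent.Lib.TDen.Forest

/-!
# Removing a vertex from a graph
-/

set_option autoImplicit false

namespace Pool.Agent.Lib.TDen

variable {Q E : Type} [Fintype Q] [DecidableEq Q] [DecidableEq E]

/-- the vertices other than `c` -/
abbrev Away (c : Q) : Type := {q : Q // q ≠ c}

/-- the map to `Away c` that sends `c` to `w` -/
def pr (c : Q) (w : Away c) (q : Q) : Away c := if h : q ≠ c then ⟨q, h⟩ else w

/-- the graph without the vertex `c` (edges at `c` get a wrong end and are not to be used) -/
def away (g : E → Q × Q) (c : Q) (w : Away c) : E → Away c × Away c := fun e =>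
  (pr c w (g e).1, pr c w (g e).2)

omit [Fintype Q] in
/-- the map is the identity outside of `c` -/
lemma pr_of_ne {c : Q} {w : Away c} {q : Q} (h : q ≠ c) : pr c w q = ⟨q, h⟩ := by
  unfold pr
  rw [dif_pos h]

omit [Fintype Q] in
/-- the map is the identity outside of `c` -/
lemma pr_coe (c : Q) (w u : Away c) : pr c w (u : Q) = u := by
  rw [pr_of_ne u.2]

omit [Fintype Q] in
/-- connectedness by edges that avoid `c` -/
lemma conn_away (g : E → Q × Q) (c : Q) (w : Away c) {S : Finset E}
    (hS : ∀ e ∈ S, (g e).1 ≠ c ∧ (g e).2 ≠ c) (u v : Away c) :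
    Conn (away g c w) S u v ↔ Conn g S (u : Q) (v : Q) := by
  constructor
  · intro h
    refine Conn.rec_on h (fun x y : Away c => Conn g S (x : Q) (y : Q)) ?_ ?_
    · exact ⟨fun x => Conn.refl _ _ _, fun h => Conn.symm h, fun h h' => Conn.trans h h'⟩
    · intro e he
      have h1 := hS e he
      have h2 : ((away g c w e).1 : Q) = (g e).1 := by
        change ((pr c w (g e).1 : Away c) : Q) = (g e).1
        rw [pr_of_ne h1.1]
      have h3 : ((away g c w e).2 : Q) = (g e).2 := by
        change ((pr c w (g e).2 : Away c) : Q) = (g e).2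
        rw [pr_of_ne h1.2]
      change Conn g S ((away g c w e).1 : Q) ((away g c w e).2 : Q)
      rw [h2, h3]
      exact Conn.edge he
  · intro h
    have key := Conn.rec_on h
      (fun x y : Q => Conn (away g c w) S (pr c w x) (pr c w y))
      ⟨fun x => Conn.refl _ _ _, fun h => Conn.symm h, fun h h' => Conn.trans h h'⟩
      (fun e he => Conn.edge (g := away g c w) he)
    simp only [pr_coe] at key
    exact key

omit [Fintype Q] in
/-- `X` is a set of edges from `c` to `out e`, and the edges of `S` avoid `c`: everything is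
connected iff every other vertex is connected by `S` with an outer end -/
lemma conn_star (g : E → Q × Q) (c : Q) (w : Away c) (out : E → Away c) {X S : Finset E}
    (hX : ∀ e ∈ X, g e = (c, (out e : Q)) ∨ g e = ((out e : Q), c))
    (hS : ∀ e ∈ S, (g e).1 ≠ c ∧ (g e).2 ≠ c) :
    (∀ u v, Conn g (X ∪ S) u v) ↔
      ∀ v : Away c, ∃ u ∈ X.image out, Conn (away g c w) S u v := by
  constructor
  · intro h v
    by_contra hv
    have key := Conn.rec_on (h c (v : Q))
      (fun x y : Q =>
        ((x ≠ c ∧ ¬ ∃ u ∈ X.image out, Conn (away g c w) S u (pr c w x)) ↔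
          (y ≠ c ∧ ¬ ∃ u ∈ X.image out, Conn (away g c w) S u (pr c w y))))
      ⟨fun x => Iff.rfl, fun h => Iff.symm h, fun h h' => Iff.trans h h'⟩ (by
        intro e he
        rcases Finset.mem_union.1 he with he | he
        · have hc : ∀ x : Q, x = c → ¬ (x ≠ c ∧
              ¬ ∃ u ∈ X.image out, Conn (away g c w) S u (pr c w x)) :=
            fun x hx h => h.1 hx
          have ho : ∀ x : Q, x = (out e : Q) → ¬ (x ≠ c ∧
              ¬ ∃ u ∈ X.image out, Conn (away g c w) S u (pr c w x)) := by
            rintro x rfl ⟨-, h2⟩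
            refine h2 ⟨out e, Finset.mem_image_of_mem _ he, ?_⟩
            rw [pr_coe]
            exact Conn.refl _ _ _
          rcases hX e he with h1 | h1
          · rw [h1]
            exact iff_of_false (hc _ rfl) (ho _ rfl)
          · rw [h1]
            exact iff_of_false (ho _ rfl) (hc _ rfl)
        · have h1 := hS e he
          have h2 : Conn (away g c w) S (pr c w (g e).1) (pr c w (g e).2) :=
            Conn.edge (g := away g c w) he
          constructor
          · rintro ⟨-, h3⟩
            refine ⟨h1.2, ?_⟩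
            rintro ⟨u, hu, h4⟩
            exact h3 ⟨u, hu, Conn.trans h4 (Conn.symm h2)⟩
          · rintro ⟨-, h3⟩
            refine ⟨h1.1, ?_⟩
            rintro ⟨u, hu, h4⟩
            exact h3 ⟨u, hu, Conn.trans h4 h2⟩)
    refine (key.2 ⟨v.2, ?_⟩).1 rfl
    rw [pr_coe]
    exact hv
  · intro h
    have hc : ∀ v : Q, Conn g (X ∪ S) c v := by
      intro v
      by_cases hv : v = c
      · rw [hv]
        exact Conn.refl _ _ _
      · obtain ⟨u, hu, h1⟩ := h ⟨v, hv⟩
        obtain ⟨e, he, rfl⟩ := Finset.mem_image.1 hu
        have h2 : Conn g S (out e : Q) v := (conn_away g c w hS (out e) ⟨v, hv⟩).1 h1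
        have h3 : Conn g (X ∪ S) (out e : Q) v := Conn.mono Finset.subset_union_right h2
        have he' : e ∈ X ∪ S := Finset.mem_union_left _ he
        have h4 : Conn g (X ∪ S) (g e).1 (g e).2 := Conn.edge he'
        rcases hX e he with h5 | h5
        · rw [h5] at h4
          exact Conn.trans h4 h3
        · rw [h5] at h4
          exact Conn.trans (Conn.symm h4) h3
    intro u v
    exact Conn.trans (Conn.symm (hc u)) (hc v)

end Pool.Agent.Lib.TDen
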