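import Pool.Agent.Lib.TDen.Out

/-!
# Trees at a star and rooted forests
-/

set_option autoImplicit false

namespace Pool.Agent.Lib.TDen

variable {Q E : Type} [Fintype Q] [DecidableEq Q] [DecidableEq E]

/-- a set of edges that connects every vertex with `U` has at least `|V| - |U|` elements.
PROOF: `comps g S ≤ U.card` and `card_le_comps_add`. -/
lemma card_of_reach {V : Type} [Fintype V] (g : E → V × V) (S : Finset E) (U : Finset V)
    (h : ∀ v, ∃ u ∈ U, Conn g S u v) : Fintype.card V ≤ S.card + U.card := by
  classical
  have h1 : comps g S ≤ U.card := by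
    have hs : Function.Surjective (fun u : U => (Quot.mk (Rel g S) (u : V) : Comp g S)) := by
      intro q
      obtain ⟨v, rfl⟩ := Quot.exists_rep q
      obtain ⟨u, hu, huv⟩ := h v
      exact ⟨⟨u, hu⟩, huv⟩
    have h2 := Nat.card_le_card_of_surjective _ hs
    have h4 : Nat.card U = U.card := by
      rw [Nat.card_eq_fintype_card, Fintype.card_coe]
    have h5 : comps g S ≤ Nat.card U := h2
    omega
  have h3 := card_le_comps_add g S
  omega

/-- spanning trees at a star are rooted forests without the centre -/
theorem star_forest (g : E → Q × Q) (c : Q) (w : Away c) (out : E → Away c)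
    {X S R : Finset E} (hX : ∀ e ∈ X, g e = (c, (out e : Q)) ∨ g e = ((out e : Q), c))
    (hR : ∀ e ∈ R, (g e).1 ≠ c ∧ (g e).2 ≠ c) (hS : S ⊆ R) :
    (X.card + S.card + 1 = Fintype.card Q ∧ ∀ u v, Conn g (X ∪ S) u v) ↔
      (Set.InjOn out (X : Set E) ∧ S ∈ forests (away g c w) R (X.image out)) := by
  classical
  have hS' : ∀ e ∈ S, (g e).1 ≠ c ∧ (g e).2 ≠ c := fun e he => hR e (hS he)
  have hcard : Fintype.card (Away c) + 1 = Fintype.card Q := by
    have h1 : Fintype.card (Away c) = Fintype.card Q - 1 := by
      rw [Fintype.card_subtype_compl, Fintype.card_subtype_eq]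
    have h2 : 0 < Fintype.card Q := Fintype.card_pos_iff.2 ⟨c⟩
    omega
  have hmem : S ∈ forests (away g c w) R (X.image out) ↔
      (S.card + (X.image out).card = Fintype.card (Away c) ∧
        ∀ v, ∃ u ∈ X.image out, Conn (away g c w) S u v) := by
    unfold forests
    rw [Finset.mem_filter, Finset.mem_powerset]
    exact ⟨fun h => h.2, fun h => ⟨hS, h⟩⟩
  rw [hmem, conn_star g c w out hX hS']
  constructor
  · rintro ⟨h1, h2⟩
    have h3 := card_of_reach (away g c w) S (X.image out) h2
    have h4 : (X.image out).card ≤ X.card := Finset.card_image_le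
    have h5 : (X.image out).card = X.card := by omega
    exact ⟨Finset.card_image_iff.1 h5, by omega, h2⟩
  · rintro ⟨h1, h2, h3⟩
    have h5 : (X.image out).card = X.card := Finset.card_image_of_injOn h1
    exact ⟨by omega, h3⟩

end Pool.Agent.Lib.TDen
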