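import Pool.Agent.Lib.TDen.Forest
import Pool.Agent.Lib.TD.RealRoot

/-!
# The inequality `12 t r ≤ (p + q + w)^2` for three-terminal networks
-/

set_option autoImplicit false

namespace Pool.Agent.Lib.TDen

open Matrix

variable {V E : Type} [Fintype V] [DecidableEq V] [DecidableEq E]

/-- one more diagonal entry -/
lemma det_diag_add (g : E → V × V) (S : Finset E) (U : Finset V) (D : V → ℝ) {u : V}
    (hu : u ∉ U) (hD : D u = 0) (s : ℝ) :
    (lapU g S U + diagonal (D + Pi.single u s)).det =
      (lapU g S U + diagonal D).det + s * (lapU g S (insert u U) + diagonal D).det := by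
  have h1 : lapU g S U + diagonal (D + Pi.single u s) =
      (lapU g S U + diagonal D).updateRow u ((lapU g S U + diagonal D) u +
        s • (Pi.single u 1 : V → ℝ)) := by
    ext i j
    by_cases hi : i = u
    · subst hi
      rw [updateRow_self]
      simp only [Matrix.add_apply, Pi.add_apply, Pi.smul_apply, smul_eq_mul, diagonal_apply]
      by_cases hj : i = j
      · subst hj; simp; ring
      · have hj' : j ≠ i := fun h => hj h.symm
        simp [hj, hj']
    · rw [updateRow_ne hi]
      simp only [Matrix.add_apply, diagonal_apply, Pi.add_apply]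
      by_cases hj : i = j
      · subst hj; simp [hi]
      · simp [hj]
  rw [h1, det_updateRow_add, updateRow_eq_self, det_updateRow_smul]
  congr 2
  rw [← TDT.adj_col]
  congr 1
  ext i j
  by_cases hi : i = u
  · subst hi
    rw [Matrix.updateRow_self]
    simp only [Matrix.add_apply, lapU, Finset.mem_insert_self, true_or, if_true, Pi.single_apply,
      diagonal_apply, hD]
    by_cases hj : j = i
    · subst hj; simp
    · rw [if_neg hj, if_neg (fun h => hj h.symm)]
      simp
  · rw [Matrix.updateRow_ne hi]
    by_cases hj : j = u
    · subst hj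
      rw [Matrix.updateCol_self]
      simp [lapU, hi, Pi.single_apply]
    · rw [Matrix.updateCol_ne hj]
      simp only [Matrix.add_apply, lapU, Finset.mem_insert, hi, hj, false_or]

lemma lap_posSemidef (g : E → V × V) (S : Finset E) : (lapU g S ∅).PosSemidef := by
  have h : lapU g S ∅ = (Matrix.of fun (i : V) (e : {e // e ∈ S}) => inc g e.1 i) *
      (Matrix.of fun (i : V) (e : {e // e ∈ S}) => inc g e.1 i)ᴴ := by
    ext i j
    simp only [lapU, Finset.notMem_empty, or_self, if_false, lap, mul_apply, of_apply,
      conjTranspose_apply, star_trivial]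
    exact (Finset.sum_coe_sort S (fun e => inc g e i * inc g e j)).symm
  rw [h]
  exact posSemidef_self_mul_conjTranspose _

/-- the three-terminal inequality -/
theorem rayleigh (g : E → V × V) (S : Finset E) {x y z : V} (hxy : x ≠ y) (hxz : x ≠ z)
    (hyz : y ≠ z) :
    12 * (forests g S {x}).card * (forests g S {x, y, z}).card
      ≤ ((forests g S {x, y}).card + (forests g S {x, z}).card
        + (forests g S {y, z}).card) ^ 2 := by
  classical
  have h0 : (lapU g S ∅).det = 0 := by
    rw [← forests_eq_det, Nat.cast_eq_zero, Finset.card_eq_zero]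
    unfold forests
    rw [Finset.filter_eq_empty_iff]
    rintro B - ⟨-, h⟩
    obtain ⟨u, hu, -⟩ := h x
    exact absurd hu (Finset.notMem_empty u)
  have key : ∀ s : ℝ, (lapU g S ∅ + s • diagonal (Pi.single x 1 + Pi.single y 1 +
      Pi.single z 1 : V → ℝ)).det =
      ((lapU g S {x}).det + (lapU g S {y}).det + (lapU g S {z}).det) * s +
      ((lapU g S {x, y}).det + (lapU g S {x, z}).det + (lapU g S {y, z}).det) * s ^ 2 +
      (lapU g S {x, y, z}).det * s ^ 3 := by
    intro s
    have e0 : s • diagonal (Pi.single x 1 + Pi.single y 1 + Pi.single z 1 : V → ℝ) =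
        diagonal (Pi.single x s + Pi.single y s + Pi.single z s) := by
      ext i j
      simp only [Matrix.smul_apply, diagonal_apply, smul_eq_mul, Pi.add_apply, Pi.single_apply]
      by_cases h : i = j
      · subst h
        simp only [if_true]
        split_ifs <;> ring
      · simp [h]
    have hz : ∀ U : Finset V, z ∉ U → (lapU g S U + diagonal (Pi.single z s)).det =
        (lapU g S U).det + s * (lapU g S (insert z U)).det := by
      intro U hU
      have := det_diag_add g S U 0 hU rfl s
      simpa using this
    have hy : ∀ U : Finset V, y ∉ U → z ∉ U →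
        (lapU g S U + diagonal (Pi.single y s + Pi.single z s)).det =
        (lapU g S U).det + s * (lapU g S (insert z U)).det +
          s * ((lapU g S (insert y U)).det + s * (lapU g S (insert z (insert y U))).det) := by
      intro U hU hU'
      have e2 : (Pi.single y s + Pi.single z s : V → ℝ) = Pi.single z s + Pi.single y s :=
        add_comm _ _
      rw [e2, det_diag_add g S U (Pi.single z s) hU
        (by simp [Pi.single_apply, hyz]) s, hz U hU', hz (insert y U) (by simp [hU', hyz.symm])]
    rw [e0]
    have e1 : (Pi.single x s + Pi.single y s + Pi.single z s : V → ℝ) =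
        (Pi.single y s + Pi.single z s) + Pi.single x s := by abel
    rw [e1, det_diag_add g S ∅ _ (Finset.notMem_empty x)
      (by simp [Pi.single_apply, hxy, hxz]) s,
      hy ∅ (Finset.notMem_empty y) (Finset.notMem_empty z),
      hy (insert x ∅) (by simp [hxy.symm]) (by simp [hxz.symm]), h0]
    have p1 : (insert z (insert y (∅ : Finset V))) = {y, z} := by
      ext i; simp [or_comm]
    have p2 : (insert z (insert x (∅ : Finset V))) = {x, z} := by
      ext i; simp [or_comm]
    have p3 : (insert y (insert x (∅ : Finset V))) = {x, y} := by
      ext i; simp [or_comm]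
    have p4 : (insert z (insert y (insert x (∅ : Finset V)))) = {x, y, z} := by
      ext i; simp only [Finset.mem_insert, Finset.mem_singleton, Finset.notMem_empty]; tauto
    have p5 : ∀ v : V, insert v (∅ : Finset V) = {v} := fun v => rfl
    rw [p1, p2, p4, p3, p5, p5, p5]
    ring
  have h1 := TD.real_root (lapU g S ∅) (diagonal (Pi.single x 1 + Pi.single y 1 +
    Pi.single z 1 : V → ℝ)) (lap_posSemidef g S) (PosSemidef.diagonal (by
      intro i
      simp only [Pi.zero_apply, Pi.add_apply, Pi.single_apply]
      split_ifs <;> norm_num)) _ _ _ key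
  simp only [← forests_eq_det] at h1
  rw [forests_root g S y x, forests_root g S z x] at h1
  have h2 : (12 * (forests g S {x}).card * (forests g S {x, y, z}).card : ℝ) ≤
      (((forests g S {x, y}).card + (forests g S {x, z}).card
        + (forests g S {y, z}).card) ^ 2 : ℝ) := by linarith
  exact_mod_cast h2

end Pool.Agent.Lib.TDen
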