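import Mathlib

/-!
# Two rows replaced in a symmetric matrix
-/

set_option autoImplicit false

namespace Pool.Agent.Lib.TDen

open Matrix

/-- the row operation in the identity matrix: a 2 by 2 determinant -/
lemma det_two_rows {V : Type} [Fintype V] [DecidableEq V] {y z : V} (hyz : y ≠ z)
    (a b : V → ℝ) :
    (((1 : Matrix V V ℝ).updateRow y a).updateRow z b).det = a y * b z - a z * b y := by
  let A : Matrix V (Fin 2) ℝ := Matrix.of fun i k =>
    if k = 0 then (if i = y then 1 else 0) else (if i = z then 1 else 0)
  let B : Matrix (Fin 2) V ℝ := Matrix.of fun k j =>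
    if k = 0 then a j - (1 : Matrix V V ℝ) y j else b j - (1 : Matrix V V ℝ) z j
  have h : ((1 : Matrix V V ℝ).updateRow y a).updateRow z b = 1 + A * B := by
    ext i j
    rw [Matrix.add_apply, Matrix.mul_apply, Fin.sum_univ_two]
    simp only [A, B, Matrix.of_apply, if_true, Fin.isValue, one_ne_zero, if_false]
    by_cases hz : i = z
    · subst hz
      rw [Matrix.updateRow_self, if_neg (Ne.symm hyz), if_pos rfl]
      ring
    · rw [Matrix.updateRow_ne hz, if_neg hz]
      by_cases hy : i = y
      · subst hy
        rw [Matrix.updateRow_self, if_pos rfl]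
        ring
      · rw [Matrix.updateRow_ne hy, if_neg hy]
        ring
  rw [h, Matrix.det_one_add_mul_comm, Matrix.det_fin_two]
  have e : ∀ k l, ((1 : Matrix (Fin 2) (Fin 2) ℝ) + B * A) k l =
      (1 : Matrix (Fin 2) (Fin 2) ℝ) k l +
      (if l = 0 then B k y else B k z) := by
    intro k l
    rw [Matrix.add_apply, Matrix.mul_apply]
    congr 1
    by_cases hl : l = 0
    · subst hl
      simp only [A, Matrix.of_apply, if_true, mul_ite, mul_one, mul_zero]
      rw [Finset.sum_ite_eq' Finset.univ y]
      simp
    · simp only [A, Matrix.of_apply, if_neg hl, mul_ite, mul_one, mul_zero]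
      rw [Finset.sum_ite_eq' Finset.univ z]
      simp
  rw [e, e, e, e]
  simp only [B, Matrix.of_apply, Matrix.one_apply, Fin.isValue, if_true, one_ne_zero, zero_ne_one,
    if_false, if_neg hyz, if_neg (Ne.symm hyz)]
  ring

/-- linear algebra: a symmetric matrix `K` with `det K ≠ 0`;
`p, q` the cofactors at `y, z`, `m` the one at `(y, z)`, `r` the determinant with both rows
replaced, and `det (K + v vᵀ)` for `v = δ_y - δ_z` -/
lemma jacobi_two {V : Type} [Fintype V] [DecidableEq V] (K : Matrix V V ℝ) (hK : K.IsSymm)
    (hd : K.det ≠ 0) {y z : V} (hyz : y ≠ z) :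
    K.det * ((K.updateRow y (Pi.single y 1)).updateRow z (Pi.single z 1)).det
      = K.adjugate y y * K.adjugate z z - (K.adjugate y z) ^ 2 ∧
    (K + Matrix.of (fun i j => ((Pi.single y 1 - Pi.single z 1 : V → ℝ) i)
        * ((Pi.single y 1 - Pi.single z 1 : V → ℝ) j))).det
      = K.det + K.adjugate y y + K.adjugate z z - 2 * K.adjugate y z := by
  have hu : IsUnit K.det := isUnit_iff_ne_zero.2 hd
  have hadj : ∀ i j, K.adjugate i j = K.det * K⁻¹ i j := by
    intro i j
    rw [Matrix.inv_def, Matrix.smul_apply, smul_eq_mul, ← mul_assoc,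
      Ring.mul_inverse_cancel _ hu, one_mul]
  have hsym : K.adjugate z y = K.adjugate y z := by
    have h1 : K.adjugate.transpose = K.adjugate := by
      rw [Matrix.adjugate_transpose, hK.eq]
    have h2 := congrFun (congrFun h1 y) z
    rwa [Matrix.transpose_apply] at h2
  constructor
  · have h : (K.updateRow y (Pi.single y 1)).updateRow z (Pi.single z 1) =
        (((1 : Matrix V V ℝ).updateRow y (K⁻¹ y)).updateRow z (K⁻¹ z)) * K := by
      ext i j
      have hinv : ∀ k, ∑ l, K⁻¹ k l * K l j = (1 : Matrix V V ℝ) k j := by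
        intro k
        rw [← Matrix.mul_apply, Matrix.nonsing_inv_mul _ hu]
      rw [Matrix.mul_apply]
      by_cases hz : i = z
      · subst hz
        simp only [Matrix.updateRow_self]
        rw [hinv, Matrix.one_apply, Pi.single_apply]
        simp only [eq_comm]
      · simp only [Matrix.updateRow_ne hz]
        by_cases hy : i = y
        · subst hy
          simp only [Matrix.updateRow_self]
          rw [hinv, Matrix.one_apply, Pi.single_apply]
          simp only [eq_comm]
        · simp only [Matrix.updateRow_ne hy]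
          rw [← Matrix.mul_apply, one_mul]
    rw [h, Matrix.det_mul, det_two_rows hyz, hadj y y, hadj z z]
    have h1 : (K.adjugate y z) ^ 2 = (K.det * K⁻¹ y z) * (K.det * K⁻¹ z y) := by
      rw [← hadj, ← hadj, hsym, sq]
    rw [h1]
    ring
  · set v : V → ℝ := Pi.single y 1 - Pi.single z 1 with hv
    have h : K + Matrix.of (fun i j => v i * v j) =
        K + Matrix.replicateCol Unit v * Matrix.replicateRow Unit v := by
      congr 1
      ext i j
      simp [Matrix.mul_apply]
    rw [h, Matrix.det_add_replicateCol_mul_replicateRow hu]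
    have h2 : (1 + Matrix.replicateRow Unit v * K⁻¹ * Matrix.replicateCol Unit v).det =
        1 + (K⁻¹ y y + K⁻¹ z z - K⁻¹ y z - K⁻¹ z y) := by
      rw [Matrix.det_unique]
      simp only [Matrix.add_apply, Matrix.one_apply, if_true, Matrix.mul_apply,
        Matrix.replicateRow_apply, Matrix.replicateCol_apply]
      congr 1
      have e1 : ∀ f : V → ℝ, ∑ i, v i * f i = f y - f z := by
        intro f
        simp only [hv, Pi.sub_apply, sub_mul, Finset.sum_sub_distrib, Pi.single_apply, ite_mul,
          one_mul, zero_mul, Finset.sum_ite_eq', Finset.mem_univ, if_true]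
      simp only [e1]
      have e2 : ∑ x, (K⁻¹ y x - K⁻¹ z x) * v x = ∑ x, v x * (K⁻¹ y x - K⁻¹ z x) :=
        Finset.sum_congr rfl fun x _ => mul_comm _ _
      rw [e2, e1]
      ring
    rw [h2]
    have h3 : 2 * K.adjugate y z = K.det * K⁻¹ y z + K.det * K⁻¹ z y := by
      rw [← hadj, ← hadj, hsym]; ring
    rw [h3, hadj y y, hadj z z]
    ring

end Pool.Agent.Lib.TDen
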