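import Pool.Agent.Lib.TDen.Trans2
import Pool.Agent.Lib.TDen.Opt

/-!
# The bound for the number of trees
-/

set_option autoImplicit false

namespace Pool.Agent.Lib.TDen

private lemma mem_rest' {D : Diagram} {A B : Finset D.E} {e : D.E} :
    e ∈ D.rest A B ↔ e ∉ A ∧ e ∉ B := by
  unfold Diagram.rest
  rw [Finset.mem_compl, Finset.mem_union, not_or]

private lemma rest_insL {D : Diagram} {A B : Finset D.E} {e : D.E} :
    D.rest (insert e A) B = (D.rest A B).erase e := by
  ext x
  rw [Finset.mem_erase, mem_rest', mem_rest', Finset.mem_insert]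
  tauto

private lemma rest_insR {D : Diagram} {A B : Finset D.E} {e : D.E} :
    D.rest A (insert e B) = (D.rest A B).erase e := by
  ext x
  rw [Finset.mem_erase, mem_rest', mem_rest', Finset.mem_insert]
  tauto

/-- every tree contains an edge of the rest with exactly one end in `c`, if `c` is not the only
component of `(V, B)` -/
lemma meets_cut (D : Diagram) {A B S : Finset D.E} (hS : S ∈ D.trees A B) (c : Comp D.g B)
    (hc : comps D.g B ≠ 1) :
    ∃ e ∈ D.rest A B, e ∈ S ∧ ((Quot.mk (Rel D.g B) (D.g e).1 : Comp D.g B) = c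
      ↔ ¬ (Quot.mk (Rel D.g B) (D.g e).2 : Comp D.g B) = c) := by
  by_contra hcon
  push Not at hcon
  obtain ⟨hBS, hAS, hS1, -⟩ := D.mem_trees.1 hS
  have key : ∀ u v : D.V, (Quot.mk (Rel D.g B) u : Comp D.g B) = c ↔
      (Quot.mk (Rel D.g B) v : Comp D.g B) = c := by
    intro u v
    refine Conn.rec_on (conn_of_comps_eq_one hS1 u v)
      (fun u v => (Quot.mk (Rel D.g B) u : Comp D.g B) = c ↔
        (Quot.mk (Rel D.g B) v : Comp D.g B) = c)
      ⟨fun _ => Iff.rfl, fun h => h.symm, fun h h' => h.trans h'⟩ ?_
    intro e he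
    by_cases heB : e ∈ B
    · have h1 : (Quot.mk (Rel D.g B) (D.g e).1 : Comp D.g B) = Quot.mk (Rel D.g B) (D.g e).2 :=
        Conn.edge heB
      rw [h1]
    · have heA : e ∉ A := fun h => Finset.disjoint_left.1 hAS h he
      have h2 := hcon e (mem_rest'.2 ⟨heA, heB⟩) he
      tauto
  obtain ⟨u0, hu0⟩ := c.exists_rep
  have hall : ∀ v, (Quot.mk (Rel D.g B) v : Comp D.g B) = c := fun v => (key u0 v).1 hu0
  have _ : Nonempty D.V := ⟨u0⟩
  exact hc (comps_eq_one_iff.2 fun u v => (hall u).trans (hall v).symm)

private lemma N_eq_zero_of_cut {D : Diagram} {A B A' : Finset D.E} (c : Comp D.g B)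
    (hc : comps D.g B ≠ 1) (hAA : A ⊆ A')
    (h : ∀ e ∈ D.rest A B, ((Quot.mk (Rel D.g B) (D.g e).1 : Comp D.g B) = c
      ↔ ¬ (Quot.mk (Rel D.g B) (D.g e).2 : Comp D.g B) = c) → e ∈ A') :
    D.N A' B = 0 := by
  unfold Diagram.N
  rw [Finset.card_eq_zero, Finset.eq_empty_iff_forall_notMem]
  intro S hS
  obtain ⟨e, he, heS, hx⟩ := meets_cut D hS c hc
  have h1 := D.mem_trees.1 hS
  rw [mem_rest'] at he
  exact he.1 (h e (mem_rest'.2 ⟨fun h' => he.1 (hAA h'), he.2⟩) hx)

private lemma N_le_one {D : Diagram} {A B : Finset D.E} (hc : comps D.g B = 1) :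
    D.N A B ≤ 1 := by
  unfold Diagram.N
  rw [Finset.card_le_one]
  have key : ∀ S ∈ D.trees A B, S = B := by
    intro S hS
    have h1 := D.mem_trees.1 hS
    have h2 := D.card_of_mem hS
    have h3 := card_le_comps_add D.g B
    exact (Finset.eq_of_subset_of_card_le h1.1 (by omega)).symm
  intro S hS S' hS'
  rw [key S hS, key S' hS']

/-- the step at a component of degree at most three of the graph of shaded regions.
PROOF: if `comps g B = 1` then `N ≤ 1`. Otherwise let `X` be the set of the edges of the rest
with exactly one end in `c`; `1 ≤ |X| ≤ 3` or `N = 0`. `X = {a}`: `N A B = N A (insert a B)`.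
`X = {a,b}`: `N A B ≤ N A (insert a B) + N (insert a A) (insert b B)` and `δ + 1 ≤ δ^2`.
`X = {a,b,d}`: then the degree is used up, so `Star`; with `t, P, r` as in `star_rayleigh` one has
`N A B = 3t + P + r` (`N_split`, `meets_cut`), the three `N A (insert a B)` etc. sum to
`3t + 2P + 3r`, the three `N (insert d A) (insert a B)`, `N (insert a A) (insert b B)`,
`N (insert b A) (insert d B)` sum to `3t + P`; `opt`. -/
theorem step (D : Diagram) {A B : Finset D.E} (hG : D.Good A B) (n : ℕ) (C : ℝ)
    (hn : (D.rest A B).card = n + 3) (hC : 0 ≤ C) (h1 : 1 ≤ C * (3657 / 2000 : ℝ) ^ 3)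
    (ih2 : ∀ A' B' : Finset D.E, Disjoint A' B' → (D.rest A' B').card = n + 2 →
      (D.N A' B' : ℝ) ≤ C * (3657 / 2000 : ℝ) ^ 2)
    (ih1 : ∀ A' B' : Finset D.E, Disjoint A' B' → (D.rest A' B').card = n + 1 →
      (D.N A' B' : ℝ) ≤ C * (3657 / 2000 : ℝ))
    (c : Comp D.g B) (hc : degR D.g B (D.rest A B) c ≤ 3) :
    (D.N A B : ℝ) ≤ C * (3657 / 2000 : ℝ) ^ 3 := by
  classical
  by_cases hcomp : comps D.g B = 1
  · have h2 : (D.N A B : ℝ) ≤ 1 := by exact_mod_cast N_le_one hcomp
    linarith
  -- cardinalities
  have hdis : Disjoint A B := hG.1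
  have card1 : ∀ e ∈ D.rest A B, ((D.rest A B).erase e).card = n + 2 := by
    intro e he
    rw [Finset.card_erase_of_mem he, hn]
    rfl
  have card2 : ∀ e ∈ D.rest A B, ∀ f ∈ D.rest A B, f ≠ e →
      (((D.rest A B).erase e).erase f).card = n + 1 := by
    intro e he f hf hfe
    rw [Finset.card_erase_of_mem (Finset.mem_erase.2 ⟨hfe, hf⟩), card1 e he]
    rfl
  have bR : ∀ e ∈ D.rest A B, (D.N A (insert e B) : ℝ) ≤ C * (3657 / 2000 : ℝ) ^ 2 := by
    intro e he
    apply ih2
    · rw [Finset.disjoint_insert_right]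
      exact ⟨(mem_rest'.1 he).1, hdis⟩
    · rw [rest_insR]
      exact card1 e he
  have bLR : ∀ e ∈ D.rest A B, ∀ f ∈ D.rest A B, f ≠ e →
      (D.N (insert e A) (insert f B) : ℝ) ≤ C * (3657 / 2000 : ℝ) := by
    intro e he f hf hfe
    apply ih1
    · rw [Finset.disjoint_insert_right, Finset.disjoint_insert_left, Finset.mem_insert, not_or]
      exact ⟨⟨hfe, (mem_rest'.1 hf).1⟩, (mem_rest'.1 he).2, hdis⟩
    · rw [rest_insR, rest_insL]
      exact card2 e he f hf hfe
  -- the cut
  set X : Finset D.E := (D.rest A B).filter fun e =>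
    ((Quot.mk (Rel D.g B) (D.g e).1 : Comp D.g B) = c
      ↔ ¬ (Quot.mk (Rel D.g B) (D.g e).2 : Comp D.g B) = c) with hX
  have hXr : ∀ e ∈ X, e ∈ D.rest A B := fun e he => (Finset.mem_filter.1 he).1
  have hXone : ∀ e ∈ X, ((Quot.mk (Rel D.g B) (D.g e).1 : Comp D.g B) = c
      ↔ ¬ (Quot.mk (Rel D.g B) (D.g e).2 : Comp D.g B) = c) :=
    fun e he => (Finset.mem_filter.1 he).2
  have hzero : ∀ A', A ⊆ A' → X ⊆ A' → D.N A' B = 0 := by
    intro A' hAA hXA
    exact N_eq_zero_of_cut c hcomp hAA fun e he hx => hXA (Finset.mem_filter.2 ⟨he, hx⟩)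
  -- degrees
  have hsum : X.card + ∑ e ∈ D.rest A B \ X,
      ((if (Quot.mk (Rel D.g B) (D.g e).1 : Comp D.g B) = c then 1 else 0)
      + (if (Quot.mk (Rel D.g B) (D.g e).2 : Comp D.g B) = c then 1 else 0)) ≤ 3 := by
    refine le_trans (le_of_eq ?_) hc
    unfold degR
    rw [← Finset.sum_sdiff (Finset.filter_subset _ _ : X ⊆ D.rest A B), add_comm]
    congr 1
    rw [Finset.card_eq_sum_ones]
    apply Finset.sum_congr rfl
    intro e he
    have h2 := hXone e he
    by_cases h3 : (Quot.mk (Rel D.g B) (D.g e).1 : Comp D.g B) = c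
    · rw [if_pos h3, if_neg (h2.1 h3)]
    · have h4 : (Quot.mk (Rel D.g B) (D.g e).2 : Comp D.g B) = c := by
        by_contra h5
        exact h3 (h2.2 h5)
      rw [if_neg h3, if_pos h4]
  have hd1 : (1 : ℝ) ≤ 3657 / 2000 := by norm_num
  obtain hX0 | hX1 | hX2 | hX3 : X.card = 0 ∨ X.card = 1 ∨ X.card = 2 ∨ X.card = 3 := by omega
  · -- no edge
    rw [Finset.card_eq_zero] at hX0
    have h2 := hzero A subset_rfl (by rw [hX0]; exact Finset.empty_subset _)
    rw [h2]
    push_cast
    positivity
  · -- one edge
    rw [Finset.card_eq_one] at hX1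
    obtain ⟨a, ha⟩ := hX1
    have har : a ∈ D.rest A B := hXr a (by rw [ha]; simp)
    have h2 := hzero (insert a A) (Finset.subset_insert _ _) (by rw [ha]; simp)
    have h3 := D.N_split (mem_rest'.1 har).1 (mem_rest'.1 har).2
    rw [h2, zero_add] at h3
    rw [h3]
    refine le_trans (bR a har) ?_
    have h4 : 0 ≤ C * (3657 / 2000 : ℝ) ^ 2 := by positivity
    nlinarith
  · -- two edges
    rw [Finset.card_eq_two] at hX2
    obtain ⟨a, b, hab, hXab⟩ := hX2
    have har : a ∈ D.rest A B := hXr a (by rw [hXab]; simp)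
    have hbr : b ∈ D.rest A B := hXr b (by rw [hXab]; simp)
    have h2 := hzero (insert b (insert a A))
      ((Finset.subset_insert _ _).trans (Finset.subset_insert _ _)) (by
        rw [hXab]
        intro x hx
        simp only [Finset.mem_insert, Finset.mem_singleton] at hx ⊢
        tauto)
    have h3 := D.N_split (mem_rest'.1 har).1 (mem_rest'.1 har).2
    have h4 : D.N (insert a A) B = D.N (insert b (insert a A)) B +
        D.N (insert a A) (insert b B) := by
      apply D.N_split
      · rw [Finset.mem_insert, not_or]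
        exact ⟨hab.symm, (mem_rest'.1 hbr).1⟩
      · exact (mem_rest'.1 hbr).2
    rw [h2, zero_add] at h4
    rw [h3, h4]
    push_cast
    have h5 := bR a har
    have h6 := bLR a har b hbr hab.symm
    have h7 : C * (3657 / 2000 : ℝ) + C * (3657 / 2000 : ℝ) ^ 2 ≤ C * (3657 / 2000 : ℝ) ^ 3 := by
      have h8 : (3657 / 2000 : ℝ) + (3657 / 2000 : ℝ) ^ 2 ≤ (3657 / 2000 : ℝ) ^ 3 := by norm_num
      calc C * (3657 / 2000 : ℝ) + C * (3657 / 2000 : ℝ) ^ 2
          = C * ((3657 / 2000 : ℝ) + (3657 / 2000 : ℝ) ^ 2) := by ring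
        _ ≤ _ := mul_le_mul_of_nonneg_left h8 hC
    linarith
  · -- three edges
    rw [Finset.card_eq_three] at hX3
    obtain ⟨a, b, d, hab, had, hbd, hXabd⟩ := hX3
    have har : a ∈ D.rest A B := hXr a (by rw [hXabd]; simp)
    have hbr : b ∈ D.rest A B := hXr b (by rw [hXabd]; simp)
    have hdr : d ∈ D.rest A B := hXr d (by rw [hXabd]; simp)
    have hc3 : X.card = 3 := by
      rw [hXabd]
      exact Finset.card_eq_three.2 ⟨a, b, d, hab, had, hbd, rfl⟩
    have hStar : Star D A B c a b d := by
      refine ⟨hG, hab, had, hbd, har, hbr, hdr, ?_, ?_⟩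
      · intro e _ he
        apply hXone
        rw [hXabd]
        simp only [Finset.mem_insert, Finset.mem_singleton]
        exact he
      · intro e he hea heb hed
        have hz : ∑ e ∈ D.rest A B \ X,
            ((if (Quot.mk (Rel D.g B) (D.g e).1 : Comp D.g B) = c then 1 else 0)
            + (if (Quot.mk (Rel D.g B) (D.g e).2 : Comp D.g B) = c then 1 else 0)) = 0 := by
          omega
        rw [Finset.sum_eq_zero_iff] at hz
        have hz' := hz e (by
          rw [Finset.mem_sdiff, hXabd]
          refine ⟨he, ?_⟩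
          simp only [Finset.mem_insert, Finset.mem_singleton]
          tauto)
        constructor
        · intro h5
          rw [if_pos h5] at hz'
          omega
        · intro h5
          rw [if_pos h5] at hz'
          omega
    have nA : ∀ e ∈ D.rest A B, e ∉ A := fun e he => (mem_rest'.1 he).1
    have nB : ∀ e ∈ D.rest A B, e ∉ B := fun e he => (mem_rest'.1 he).2
    have sp : ∀ (A' B' : Finset D.E) (e : D.E), e ∉ A' → e ∉ B' →
        D.N A' B' = D.N (insert e A') B' + D.N A' (insert e B') :=
      fun A' B' e h h' => D.N_split h h'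
    have hr := star_rayleigh hStar
    obtain ⟨hs1, hs2⟩ := star_single hStar
    -- the seven kinds of trees
    have e0 : D.N (insert d (insert b (insert a A))) B = 0 := by
      apply hzero
      · exact ((Finset.subset_insert _ _).trans (Finset.subset_insert _ _)).trans
          (Finset.subset_insert _ _)
      · rw [hXabd]
        intro x hx
        simp only [Finset.mem_insert, Finset.mem_singleton] at hx ⊢
        tauto
    have aA := nA a har
    have aB := nB a har
    have bA := nA b hbr
    have bB := nB b hbr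
    have dA := nA d hdr
    have dB := nB d hdr
    have e1 := sp A B a aA aB
    have e2 := sp (insert a A) B b (by simp [hab.symm, bA]) bB
    have e3 := sp (insert b (insert a A)) B d (by simp [had.symm, hbd.symm, dA]) dB
    -- the trees with `a`
    have f1 := sp A (insert a B) b bA (by simp [hab.symm, bB])
    have f2 := sp (insert b A) (insert a B) d (by simp [hbd.symm, dA]) (by simp [had.symm, dB])
    have f3 := sp A (insert b (insert a B)) d dA (by simp [hbd.symm, had.symm, dB])
    -- the trees with `b`
    have g1 := sp A (insert b B) a aA (by simp [hab, aB])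
    have g2 := sp (insert a A) (insert b B) d (by simp [had.symm, dA]) (by simp [hbd.symm, dB])
    -- the trees with `d`
    have k1 := sp A (insert d B) a aA (by simp [had, aB])
    have k2 := sp (insert a A) (insert d B) b (by simp [hab.symm, bA]) (by simp [hbd, bB])
    have k3 := sp A (insert a (insert d B)) b bA (by simp [hab.symm, hbd, bB])
    -- two edges fixed
    have l1 := sp (insert d A) (insert a B) b (by simp [hbd, bA]) (by simp [hab.symm, bB])
    have l2 := sp (insert b A) (insert d B) a (by simp [hab, aA]) (by simp [had, aB])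
    have c1 : (insert d (insert b A) : Finset D.E) = insert b (insert d A) :=
      Finset.insert_comm _ _ _
    have c2 : (insert d (insert a A) : Finset D.E) = insert a (insert d A) :=
      Finset.insert_comm _ _ _
    have c3 : (insert b (insert a A) : Finset D.E) = insert a (insert b A) :=
      Finset.insert_comm _ _ _
    have c4 : (insert b (insert a B) : Finset D.E) = insert a (insert b B) :=
      Finset.insert_comm _ _ _
    have c5 : (insert d (insert a B) : Finset D.E) = insert a (insert d B) :=
      Finset.insert_comm _ _ _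
    have c6 : (insert d (insert b B) : Finset D.E) = insert b (insert d B) :=
      Finset.insert_comm _ _ _
    have c7 : (insert d (insert a (insert b B)) : Finset D.E) =
        insert a (insert b (insert d B)) := by
      rw [Finset.insert_comm d a, c6]
    have c8 : (insert b (insert a (insert d B)) : Finset D.E) =
        insert a (insert b (insert d B)) := Finset.insert_comm _ _ _
    rw [c3] at e2 e0 e3
    rw [c4] at f1 f3 l1
    rw [c1, c5] at f2
    rw [c7] at f3
    rw [c2, c6] at g2
    rw [c3] at k2
    rw [c8] at k3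
    have m1 := bR a har
    have m2 := bR b hbr
    have m3 := bR d hdr
    have m4 := bLR d hdr a har had
    have m5 := bLR a har b hbr hab.symm
    have m6 := bLR b hbr d hdr hbd.symm
    set na := D.N (insert b (insert d A)) (insert a B)
    set nb := D.N (insert a (insert d A)) (insert b B)
    set nd := D.N (insert a (insert b A)) (insert d B)
    set nab := D.N (insert d A) (insert a (insert b B))
    set nad := D.N (insert b A) (insert a (insert d B))
    set nbd := D.N (insert a A) (insert b (insert d B))
    set nabd := D.N A (insert a (insert b (insert d B)))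
    have q1 : D.N A (insert a B) = na + nad + nab + nabd := by omega
    have q2 : D.N A (insert b B) = nb + nbd + nab + nabd := by omega
    have q3 : D.N A (insert d B) = nd + nbd + nad + nabd := by omega
    have q4 : D.N (insert d A) (insert a B) = na + nab := by omega
    have q5 : D.N (insert a A) (insert b B) = nb + nbd := by omega
    have q6 : D.N (insert b A) (insert d B) = nd + nad := by omega
    have q7 : D.N A B = 3 * na + (nab + nad + nbd) + nabd := by omega
    rw [q1] at m1
    rw [q2] at m2
    rw [q3] at m3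
    rw [q4] at m4
    rw [q5] at m5
    rw [q6] at m6
    rw [q7]
    rw [← hs1] at m2 m5
    rw [← hs2] at m3 m6
    push_cast at m1 m2 m3 m4 m5 m6 ⊢
    apply opt hC (Nat.cast_nonneg _) (by positivity) (Nat.cast_nonneg _)
    · linarith
    · linarith
    · exact_mod_cast hr

end Pool.Agent.Lib.TDen
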