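import Pool.Agent.Lib.TDen.Diag

/-!
# Brackets of small span

The exponents of the bracket are congruent modulo four, and a Laurent polynomial with at most
seven such exponents is determined by its values at `A ^ 4 = 1, i, e^(i π / 3), e^(2 i π / 3)`.
-/

set_option autoImplicit false

namespace Pool.Agent.Lib.TDen

open LaurentPolynomial Pool.Agent.Lib.MP_20e20b_gt

/-- all exponents of `p` are congruent to `j` modulo 4 -/
def Res (p : LaurentPolynomial ℤ) (j : ℤ) : Prop := ∀ i, p.coeff i ≠ 0 → (4 : ℤ) ∣ i - j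

lemma Res.congr {p : LaurentPolynomial ℤ} {j j' : ℤ} (h : Res p j) (hj : (4 : ℤ) ∣ j - j') :
    Res p j' := by
  intro i hi
  have := h i hi
  omega

lemma Res.T (n : ℤ) : Res (LaurentPolynomial.T n) n := by
  intro i hi
  rw [LaurentPolynomial.T_apply] at hi
  split_ifs at hi with h
  · subst h; simp
  · exact absurd rfl hi

lemma Res.add {p q : LaurentPolynomial ℤ} {j : ℤ} (hp : Res p j) (hq : Res q j) :
    Res (p + q) j := by
  intro i hi
  rw [AddMonoidAlgebra.coeff_add, Finsupp.add_apply] at hi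
  by_cases h : p.coeff i = 0
  · refine hq i ?_
    intro h'
    rw [h, h'] at hi
    exact hi (add_zero 0)
  · exact hp i h

lemma Res.neg {p : LaurentPolynomial ℤ} {j : ℤ} (hp : Res p j) : Res (-p) j := by
  intro i hi
  rw [AddMonoidAlgebra.coeff_neg, Finsupp.neg_apply] at hi
  exact hp i (by omega)

lemma Res.zero (j : ℤ) : Res 0 j := by
  intro i hi
  simp at hi

lemma Res.sum {ι : Type} (s : Finset ι) (f : ι → LaurentPolynomial ℤ) {j : ℤ}
    (h : ∀ i ∈ s, Res (f i) j) : Res (∑ i ∈ s, f i) j := by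
  classical
  induction s using Finset.induction_on with
  | empty => simpa using Res.zero j
  | insert a s ha ih =>
    rw [Finset.sum_insert ha]
    exact (h a (Finset.mem_insert_self _ _)).add
      (ih fun i hi => h i (Finset.mem_insert_of_mem hi))

lemma Res.mul {p q : LaurentPolynomial ℤ} {j k : ℤ} (hp : Res p j) (hq : Res q k) :
    Res (p * q) (j + k) := by
  classical
  intro i hi
  have h1 : i ∈ (p * q).coeff.support := Finsupp.mem_support_iff.2 hi
  have h2 := AddMonoidAlgebra.support_coeff_mul_subset p q h1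
  rw [Finset.mem_add] at h2
  obtain ⟨a, ha, b, hb, hab⟩ := h2
  have h3 := hp a (Finsupp.mem_support_iff.1 ha)
  have h4 := hq b (Finsupp.mem_support_iff.1 hb)
  omega

lemma Res.circ : Res Pool.Agent.Lib.MP_20e20b_gt.circ 2 := by
  have h1 : Pool.Agent.Lib.MP_20e20b_gt.circ
      = -(LaurentPolynomial.T 2) + -(LaurentPolynomial.T (-2)) := by
    unfold Pool.Agent.Lib.MP_20e20b_gt.circ; ring
  rw [h1]
  exact (Res.T 2).neg.add (((Res.T (-2)).congr (by norm_num)).neg)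

lemma Res.pow {p : LaurentPolynomial ℤ} {j : ℤ} (hp : Res p j) (n : ℕ) : Res (p ^ n) (n * j) := by
  induction n with
  | zero =>
    have : Res (LaurentPolynomial.T 0) 0 := Res.T 0
    simpa using this
  | succ n ih =>
    rw [pow_succ]
    refine (ih.mul hp).congr ?_
    push_cast
    exact ⟨0, by ring⟩

/-- the value of a Laurent polynomial with integer coefficients at the unit `u` of `ℂ` -/
noncomputable def ev (u : ℂˣ) : LaurentPolynomial ℤ →+* ℂ :=
  LaurentPolynomial.eval₂ (Int.castRingHom ℂ) u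

lemma ev_T (u : ℂˣ) (n : ℤ) : ev u (LaurentPolynomial.T n) = ((u ^ n : ℂˣ) : ℂ) :=
  LaurentPolynomial.eval₂_T _ _ _

lemma ev_single (u : ℂˣ) (n a : ℤ) :
    ev u (AddMonoidAlgebra.single n a) = (a : ℂ) * ((u ^ n : ℂˣ) : ℂ) := by
  rw [LaurentPolynomial.single_eq_C_mul_T]
  exact LaurentPolynomial.eval₂_C_mul_T _ _ _ _

lemma eq_sum_single {p : LaurentPolynomial ℤ} {S : Finset ℤ} (h : p.coeff.support ⊆ S) :
    p = ∑ j ∈ S, AddMonoidAlgebra.single j (p.coeff j) := by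
  classical
  ext a
  rw [AddMonoidAlgebra.coeff_sum, Finsupp.finsetSum_apply]
  simp only [AddMonoidAlgebra.coeff_single, Finsupp.single_apply]
  rw [Finset.sum_ite_eq']
  split_ifs with h1
  · rfl
  · by_contra h2
    exact h1 (h (Finsupp.mem_support_iff.2 h2))

lemma ev_eq_sum (u : ℂˣ) {p : LaurentPolynomial ℤ} {S : Finset ℤ} (h : p.coeff.support ⊆ S) :
    ev u p = ∑ j ∈ S, (p.coeff j : ℂ) * ((u ^ j : ℂˣ) : ℂ) := by
  conv_lhs => rw [eq_sum_single h]
  rw [map_sum]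
  exact Finset.sum_congr rfl fun j _ => ev_single u j _

/-- seven exponents -/
lemma exists_seven {p : LaurentPolynomial ℤ} {j : ℤ} (hp : Res p j) (hs : spanA p ≤ 24) :
    ∃ m : ℤ, p.coeff.support ⊆ (Finset.range 7).image fun i : ℕ => m + 4 * (i : ℤ) := by
  classical
  by_cases hne : p.coeff.support.Nonempty
  · refine ⟨p.coeff.support.min' hne, ?_⟩
    intro i hi
    unfold spanA at hs
    rw [dif_pos hne] at hs
    have h1 := Finset.min'_le _ _ hi
    have h2 := Finset.le_max' _ _ hi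
    have h3 := hp i (Finsupp.mem_support_iff.1 hi)
    have h4 := hp _ (Finsupp.mem_support_iff.1 (Finset.min'_mem _ hne))
    generalize p.coeff.support.min' hne = a at *
    generalize p.coeff.support.max' hne = b at *
    rw [Finset.mem_image]
    refine ⟨((i - a) / 4).toNat, ?_, ?_⟩
    · rw [Finset.mem_range]; omega
    · omega
  · refine ⟨0, ?_⟩
    rw [Finset.not_nonempty_iff_eq_empty] at hne
    rw [hne]
    exact Finset.empty_subset _

lemma seven_inj (m : ℤ) : Set.InjOn (fun i : ℕ => m + 4 * (i : ℤ)) (Finset.range 7 : Finset ℕ) := by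
  intro a _ b _ hab
  simp only at hab
  omega

lemma sum_seven (a : ℕ → ℝ) (z : ℂ) : ∑ i ∈ Finset.range 7, (a i : ℂ) * z ^ i
    = a 0 + a 1 * z + a 2 * z ^ 2 + a 3 * z ^ 3 + a 4 * z ^ 4 + a 5 * z ^ 5 + a 6 * z ^ 6 := by
  simp [Finset.sum_range_succ]

lemma seven_i (a : ℕ → ℝ) (z : ℂ) (hz : z ^ 2 + 1 = 0) : ∑ i ∈ Finset.range 7, (a i : ℂ) * z ^ i
    = ((a 0 - a 2 + a 4 - a 6 : ℝ) : ℂ) + ((a 1 - a 3 + a 5 : ℝ) : ℂ) * z := by
  rw [sum_seven]
  push_cast
  linear_combination ((a 2 : ℂ) + a 3 * z + a 4 * (z ^ 2 - 1)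
      + a 5 * z * (z ^ 2 - 1) + a 6 * (z ^ 4 - z ^ 2 + 1)) * hz

lemma seven_w (a : ℕ → ℝ) (z : ℂ) (hz : z ^ 2 + z + 1 = 0) :
    ∑ i ∈ Finset.range 7, (a i : ℂ) * z ^ i
    = ((a 0 - a 2 + a 3 - a 5 + a 6 : ℝ) : ℂ) + ((a 1 - a 2 + a 4 - a 5 : ℝ) : ℂ) * z := by
  rw [sum_seven]
  push_cast
  linear_combination ((a 2 : ℂ) + a 3 * (z - 1) + a 4 * (z - 1) * z
      + a 5 * ((z - 1) * z ^ 2 + 1) + a 6 * (z - 1) * (z ^ 3 + 1)) * hz

lemma seven_z (a : ℕ → ℝ) (z : ℂ) (hz : z ^ 2 - z + 1 = 0) :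
    ∑ i ∈ Finset.range 7, (a i : ℂ) * z ^ i
    = ((a 0 - a 2 - a 3 + a 5 + a 6 : ℝ) : ℂ) + ((a 1 + a 2 - a 4 - a 5 : ℝ) : ℂ) * z := by
  rw [sum_seven]
  push_cast
  linear_combination ((a 2 : ℂ) + a 3 * (z + 1) + a 4 * (z + 1) * z
      + a 5 * ((z + 1) * z ^ 2 - 1) + a 6 * (z + 1) * (z ^ 3 - 1)) * hz

lemma abs_bounds {x y M : ℝ} {z : ℂ} (h : ‖(x : ℂ) + (y : ℂ) * z‖ ≤ M) :
    |x + y * z.re| ≤ M ∧ |y * z.im| ≤ M := by
  have h1 := (Complex.abs_re_le_norm _).trans h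
  have h2 := (Complex.abs_im_le_norm _).trans h
  simp only [Complex.add_re, Complex.add_im, Complex.mul_re, Complex.mul_im, Complex.ofReal_re,
    Complex.ofReal_im, zero_mul, sub_zero, zero_add, add_zero] at h1 h2
  exact ⟨h1, h2⟩

/-- seven coefficients are bounded by the values at four points -/
lemma seven_bound (a : ℕ → ℝ) (M : ℝ)
    (h1 : ∀ z : ℂ, ‖z‖ = 1 → (z = 1 ∨ z ^ 2 + 1 = 0 ∨ z ^ 2 + z + 1 = 0 ∨ z ^ 2 - z + 1 = 0) →
      ‖∑ i ∈ Finset.range 7, (a i : ℂ) * z ^ i‖ ≤ M) :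
    ∑ i ∈ Finset.range 7, |a i| ≤ 20 * M := by
  have h3 : (1.732 : ℝ) ≤ Real.sqrt 3 := by
    apply Real.le_sqrt_of_sq_le; norm_num
  have h3' : Real.sqrt 3 * Real.sqrt 3 = 3 := Real.mul_self_sqrt (by norm_num)
  -- the value at one
  have e1 := h1 1 (by simp) (Or.inl rfl)
  have e1' : |a 0 + a 1 + a 2 + a 3 + a 4 + a 5 + a 6| ≤ M := by
    have : (∑ i ∈ Finset.range 7, (a i : ℂ) * 1 ^ i)
        = ((a 0 + a 1 + a 2 + a 3 + a 4 + a 5 + a 6 : ℝ) : ℂ) := by
      rw [sum_seven]; push_cast; ring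
    rw [this, Complex.norm_real] at e1
    exact e1
  -- the value at I
  have hzI : Complex.I ^ 2 + 1 = 0 := by rw [Complex.I_sq]; ring
  have e2 := h1 Complex.I (by simp) (Or.inr (Or.inl hzI))
  rw [seven_i a _ hzI] at e2
  obtain ⟨e2r, e2i⟩ := abs_bounds e2
  rw [Complex.I_re, mul_zero, add_zero] at e2r
  rw [Complex.I_im, mul_one] at e2i
  -- the value at the primitive third root of unity
  have nw : ∀ x : ℝ, x * x = 1 / 4 → ‖(⟨x, Real.sqrt 3 / 2⟩ : ℂ)‖ = 1 := by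
    intro x hx
    rw [← sq_eq_sq₀ (norm_nonneg _) zero_le_one, ← Complex.normSq_eq_norm_sq, Complex.normSq_mk]
    linear_combination hx + (1 / 4) * h3'
  have hzw : (⟨-1 / 2, Real.sqrt 3 / 2⟩ : ℂ) ^ 2 + ⟨-1 / 2, Real.sqrt 3 / 2⟩ + 1 = 0 := by
    apply Complex.ext
    · simp only [pow_two, Complex.add_re, Complex.mul_re, Complex.one_re, Complex.zero_re]
      linear_combination (-1 / 4) * h3'
    · simp only [pow_two, Complex.add_im, Complex.mul_im, Complex.one_im, Complex.zero_im]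
      ring
  have e3 := h1 _ (nw (-1 / 2) (by norm_num)) (Or.inr (Or.inr (Or.inl hzw)))
  rw [seven_w a _ hzw] at e3
  obtain ⟨e3r, e3i⟩ := abs_bounds e3
  -- the value at the primitive sixth root of unity
  have hzz : (⟨1 / 2, Real.sqrt 3 / 2⟩ : ℂ) ^ 2 - ⟨1 / 2, Real.sqrt 3 / 2⟩ + 1 = 0 := by
    apply Complex.ext
    · simp only [pow_two, Complex.add_re, Complex.sub_re, Complex.mul_re, Complex.one_re,
        Complex.zero_re]
      linear_combination (-1 / 4) * h3'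
    · simp only [pow_two, Complex.add_im, Complex.sub_im, Complex.mul_im, Complex.one_im,
        Complex.zero_im]
      ring
  have e4 := h1 _ (nw (1 / 2) (by norm_num)) (Or.inr (Or.inr (Or.inr hzz)))
  rw [seven_z a _ hzz] at e4
  obtain ⟨e4r, e4i⟩ := abs_bounds e4
  have hM : 0 ≤ M := (abs_nonneg _).trans e1'
  have key : ∀ y : ℝ, |y * (Real.sqrt 3 / 2)| ≤ M → |y| ≤ 1.155 * M := by
    intro y hy
    rw [abs_mul, abs_of_pos (show (0:ℝ) < Real.sqrt 3 / 2 by positivity)] at hy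
    have h5 := abs_nonneg y
    have h6 : |y| * 0.866 ≤ |y| * (Real.sqrt 3 / 2) := by
      apply mul_le_mul_of_nonneg_left _ h5; linarith
    linarith
  have e3j := key _ e3i
  have e4j := key _ e4i
  rw [abs_le] at e1' e2r e2i e3r e3j e4r e4j
  obtain ⟨p1, q1⟩ := e1'
  obtain ⟨p2, q2⟩ := e2r
  obtain ⟨p3, q3⟩ := e2i
  obtain ⟨p4, q4⟩ := e3r
  obtain ⟨p5, q5⟩ := e3j
  obtain ⟨p6, q6⟩ := e4r
  obtain ⟨p7, q7⟩ := e4j
  have b0 : |a 0| ≤ 2.5 * M := by rw [abs_le]; constructor <;> linarith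
  have b1 : |a 1| ≤ 2.6 * M := by rw [abs_le]; constructor <;> linarith
  have b2 : |a 2| ≤ 3.3 * M := by rw [abs_le]; constructor <;> linarith
  have b3 : |a 3| ≤ 3.1 * M := by rw [abs_le]; constructor <;> linarith
  have b4 : |a 4| ≤ 3.3 * M := by rw [abs_le]; constructor <;> linarith
  have b5 : |a 5| ≤ 2.6 * M := by rw [abs_le]; constructor <;> linarith
  have b6 : |a 6| ≤ 2.5 * M := by rw [abs_le]; constructor <;> linarith
  simp only [Finset.sum_range_succ, Finset.sum_range_zero, zero_add]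
  linarith

/-- **a bracket of small span is small** -/
theorem coefSum_le_of_span {p : LaurentPolynomial ℤ} {j : ℤ} (hp : Res p j)
    (hs : spanA p ≤ 24) {M : ℝ}
    (hM : ∀ u : ℂˣ, ‖(u : ℂ)‖ = 1 →
      ((u : ℂ) ^ 4 = 1 ∨ ((u : ℂ) ^ 4) ^ 2 + 1 = 0 ∨ ((u : ℂ) ^ 4) ^ 2 + (u : ℂ) ^ 4 + 1 = 0 ∨
        ((u : ℂ) ^ 4) ^ 2 - (u : ℂ) ^ 4 + 1 = 0) → ‖ev u p‖ ≤ M) :
    (coefSum p : ℝ) ≤ 20 * M := by
  classical
  obtain ⟨m, hm⟩ := exists_seven hp hs
  have h1 : (coefSum p : ℝ) = ∑ i ∈ Finset.range 7, |((p.coeff (m + 4 * (i : ℤ)) : ℤ) : ℝ)| := by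
    rw [coefSum_eq_sum hm, Finset.sum_image (seven_inj m)]
    push_cast
    refine Finset.sum_congr rfl fun i _ => ?_
    rw [Nat.cast_natAbs, Int.cast_abs]
  rw [h1]
  refine seven_bound (fun i => ((p.coeff (m + 4 * (i : ℤ)) : ℤ) : ℝ)) M ?_
  intro z hz hz4
  obtain ⟨w, hw⟩ := IsAlgClosed.exists_pow_nat_eq z (n := 4) (by norm_num)
  have hz0 : z ≠ 0 := by
    intro h; rw [h, norm_zero] at hz; exact zero_ne_one hz
  have hw0 : w ≠ 0 := by
    intro h; rw [h] at hw; exact hz0 (by rw [← hw]; simp)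
  have hwn : ‖w‖ = 1 := by
    have : ‖w‖ ^ 4 = 1 := by rw [← norm_pow, hw, hz]
    exact (pow_eq_one_iff_of_nonneg (norm_nonneg _) (by norm_num)).1 this
  have h2 := hM (Units.mk0 w hw0) hwn (by rw [Units.val_mk0, hw]; exact hz4)
  have h3 : ev (Units.mk0 w hw0) p = w ^ m * ∑ i ∈ Finset.range 7,
      (((p.coeff (m + 4 * (i : ℤ)) : ℤ) : ℝ) : ℂ) * z ^ i := by
    rw [ev_eq_sum _ hm, Finset.sum_image (seven_inj m), Finset.mul_sum]
    refine Finset.sum_congr rfl fun i _ => ?_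
    have h4 : (((Units.mk0 w hw0) ^ (m + 4 * (i : ℤ)) : ℂˣ) : ℂ) = w ^ m * z ^ i := by
      rw [Units.val_zpow_eq_zpow_val, Units.val_mk0, zpow_add₀ hw0, zpow_mul, ← hw]
      norm_cast
    rw [h4]
    push_cast
    ring
  rw [h3, norm_mul, norm_zpow, hwn, one_zpow, one_mul] at h2
  exact h2

/-- the span is a multiple of four -/
lemma spanA_ge {p : LaurentPolynomial ℤ} {j : ℤ} (hp : Res p j) (hs : ¬ spanA p ≤ 24) :
    28 ≤ spanA p := by
  unfold spanA at hs ⊢
  split_ifs at hs ⊢ with hne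
  · have h3 := hp _ (Finsupp.mem_support_iff.1 (Finset.max'_mem _ hne))
    have h4 := hp _ (Finsupp.mem_support_iff.1 (Finset.min'_mem _ hne))
    omega
  · omega

namespace Diagram

variable (D : Diagram)

/-- the exponents of the bracket are congruent modulo four -/
lemma res_bracket : ∃ j, Res D.bracket j := by
  classical
  refine ⟨(∑ e : D.E, if D.pos e = true then (-1 : ℤ) else 1) + 2 - 2 * Fintype.card D.V, ?_⟩
  unfold bracket
  refine Res.sum _ _ fun S _ => ?_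
  have hV := D.nonemptyV
  have hF := D.nonemptyF
  have h1 := comps_pos D.g S
  have h2 := comps_pos D.h Sᶜ
  have h3 := D.euler S
  refine ((Res.T _).mul (Res.circ.pow _)).congr ?_
  have h4 : (∑ e : D.E, D.expo S e) + 2 * S.card
      = (∑ e : D.E, if D.pos e = true then (-1 : ℤ) else 1)
        + 4 * ((S.filter fun e => D.pos e = true).card : ℤ) := by
    have e1 : (S.card : ℤ) = ∑ e : D.E, if e ∈ S then (1 : ℤ) else 0 := by
      rw [Finset.sum_ite_mem, Finset.univ_inter, Finset.sum_const, nsmul_eq_mul, mul_one]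
    have e2 : ((S.filter fun e => D.pos e = true).card : ℤ)
        = ∑ e : D.E, if e ∈ S then (if D.pos e = true then (1 : ℤ) else 0) else 0 := by
      rw [Finset.sum_ite_mem, Finset.univ_inter, Finset.card_filter]
      push_cast
      rfl
    rw [e1, e2, Finset.mul_sum, Finset.mul_sum, ← Finset.sum_add_distrib,
      ← Finset.sum_add_distrib]
    refine Finset.sum_congr rfl fun e _ => ?_
    unfold expo
    by_cases h5 : e ∈ S <;> by_cases h6 : D.pos e = true <;> simp [h5, h6]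
  have h7 : ((comps D.g S + comps D.h Sᶜ - 2 : ℕ) : ℤ) + 2 = comps D.g S + comps D.h Sᶜ := by
    omega
  have h8 : (Fintype.card D.V : ℤ) + comps D.h Sᶜ = S.card + comps D.g S + 1 := by
    exact_mod_cast h3
  generalize hm : ((S.filter fun e => D.pos e = true).card : ℤ) = m at h4
  generalize hk : ((comps D.g S + comps D.h Sᶜ - 2 : ℕ) : ℤ) = k at h7 ⊢
  omega

end Diagram

end Pool.Agent.Lib.TDen
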