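import Pool.Agent.Lib.TDen.Deg
import Pool.Agent.Lib.TDen.Out2

/-!
# A component of degree three: the seven kinds of trees
-/

set_option autoImplicit false

namespace Pool.Agent.Lib.TDen

variable (D : Diagram)

/-- `c` is a component of `(V, B)` such that exactly the edges `a, b, d` of the rest have exactly
one end in `c`, and no other edge of the rest has an end in `c` -/
structure Star (A B : Finset D.E) (c : Comp D.g B) (a b d : D.E) : Prop where
  good : D.Good A B
  ab : a ≠ b
  ad : a ≠ d
  bd : b ≠ d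
  ha : a ∈ D.rest A B
  hb : b ∈ D.rest A B
  hd : d ∈ D.rest A B
  one : ∀ e ∈ D.rest A B, (e = a ∨ e = b ∨ e = d) →
    ((Quot.mk (Rel D.g B) (D.g e).1 : Comp D.g B) = c
      ↔ ¬ (Quot.mk (Rel D.g B) (D.g e).2 : Comp D.g B) = c)
  none : ∀ e ∈ D.rest A B, e ≠ a → e ≠ b → e ≠ d →
    ¬ (Quot.mk (Rel D.g B) (D.g e).1 : Comp D.g B) = c ∧
    ¬ (Quot.mk (Rel D.g B) (D.g e).2 : Comp D.g B) = c

noncomputable instance (A : Finset D.E) : Fintype (Comp D.g A) := Fintype.ofFinite _

noncomputable instance (A : Finset D.E) : DecidableEq (Comp D.g A) := Classical.decEq _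

lemma mem_trees_iff {D : Diagram} {A B S : Finset D.E} :
    S ∈ D.trees A B ↔ B ⊆ S ∧ Disjoint A S ∧ S.card + 1 = Fintype.card D.V ∧
      ∀ u v, Conn D.g S u v := by
  have := D.nonemptyV
  rw [D.mem_trees]
  have he := D.euler S
  constructor
  · rintro ⟨h1, h2, h3, h4⟩
    exact ⟨h1, h2, by omega, comps_eq_one_iff.1 h3⟩
  · rintro ⟨h1, h2, h3, h4⟩
    have h5 := comps_eq_one_iff.2 h4
    exact ⟨h1, h2, h5, by omega⟩

lemma mem_rest {D : Diagram} {A B : Finset D.E} {e : D.E} :
    e ∈ D.rest A B ↔ e ∉ A ∧ e ∉ B := by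
  simp [Diagram.rest]

/-- the transfer between trees of the diagram and connecting sets after contracting `B` -/
lemma tree_transfer {D : Diagram} {A B : Finset D.E} (hG : D.Good A B) {X S' : Finset D.E}
    (hX : X ⊆ D.rest A B) (hS' : S' ⊆ D.rest A B) (hd : Disjoint X S') :
    ((B ∪ X ∪ S').card + 1 = Fintype.card D.V ∧ ∀ u v, Conn D.g (B ∪ X ∪ S') u v) ↔
      (X.card + S'.card + 1 = Fintype.card (Comp D.g B) ∧
        ∀ u v, Conn (quo D.g B) (X ∪ S') u v) := by
  have hBX : Disjoint B X := by
    rw [Finset.disjoint_left]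
    intro e he he'
    exact (mem_rest.1 (hX he')).2 he
  have hBS : Disjoint B S' := by
    rw [Finset.disjoint_left]
    intro e he he'
    exact (mem_rest.1 (hS' he')).2 he
  have hc : (B ∪ X ∪ S').card = B.card + X.card + S'.card := by
    rw [Finset.card_union_of_disjoint, Finset.card_union_of_disjoint hBX]
    rw [Finset.disjoint_union_left]
    exact ⟨hBS, hd⟩
  have he := D.euler B
  rw [hG.2.2] at he
  have hq : comps D.g B = Fintype.card (Comp D.g B) := by
    unfold comps
    rw [Nat.card_eq_fintype_card]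
  have hB : B ⊆ B ∪ X ∪ S' := fun e h => by simp [h]
  have hsd : (B ∪ X ∪ S') \ B = X ∪ S' := by
    ext e
    simp only [Finset.mem_sdiff, Finset.mem_union]
    constructor
    · rintro ⟨(h | h) | h, h'⟩
      · exact absurd h h'
      · exact Or.inl h
      · exact Or.inr h
    · rintro (h | h)
      · exact ⟨Or.inl (Or.inr h), fun h' => (Finset.disjoint_left.1 hBX h') h⟩
      · exact ⟨Or.inr h, fun h' => (Finset.disjoint_left.1 hBS h') h⟩
  constructor
  · rintro ⟨h1, h2⟩
    refine ⟨by omega, ?_⟩
    intro u v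
    induction u using Quot.inductionOn with
    | _ u =>
      induction v using Quot.inductionOn with
      | _ v =>
        have := (conn_quo D.g hB u v).1 (h2 u v)
        rwa [hsd] at this
  · rintro ⟨h1, h2⟩
    refine ⟨by omega, ?_⟩
    intro u v
    rw [conn_quo D.g hB u v, hsd]
    exact h2 _ _

/-- PROOF: `out e` is the end of `e` different from `c` (`e = a, b, d`), `w = out a`,
`R = rest \ {a, b, d}`. The map `S ↦ S \ B \ X` is a bijection from the trees `S` with
`B ∪ X ⊆ S`, `Disjoint (A ∪ ({a,b,d} \ X)) S` to the sets `S' ⊆ R` as in `star_forest`: a set `S`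
with `B ⊆ S` is a tree iff `|S| + 1 = |V|` and all vertices are connected (`D.card_of_mem`,
Euler), i.e. (as `comps g B + |B| = |V|`) iff `|S \ B| + 1 = |Comp g B|` and everything is
connected by `S \ B` after contracting `B` (`conn_quo`). -/
theorem star_count {D : Diagram} {A B : Finset D.E} {c : Comp D.g B} {a b d : D.E}
    (h : Star D A B c a b d) :
    ∃ (w : Away c) (out : D.E → Away c), ∀ X ⊆ ({a, b, d} : Finset D.E),
      (Set.InjOn out (X : Set D.E) → D.N (A ∪ (({a, b, d} : Finset D.E) \ X)) (B ∪ X)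
        = (forests (away (quo D.g B) c w) (D.rest A B \ {a, b, d}) (X.image out)).card) ∧
      (¬ Set.InjOn out (X : Set D.E) → D.N (A ∪ (({a, b, d} : Finset D.E) \ X)) (B ∪ X) = 0) := by
  classical
  have hXr : ({a, b, d} : Finset D.E) ⊆ D.rest A B := by
    intro e he
    simp only [Finset.mem_insert, Finset.mem_singleton] at he
    rcases he with rfl | rfl | rfl
    · exact h.ha
    · exact h.hb
    · exact h.hd
  have hone : ∀ e ∈ ({a, b, d} : Finset D.E), ((quo D.g B e).1 = c ↔ ¬ (quo D.g B e).2 = c) := by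
    intro e he
    apply h.one e (hXr he)
    simpa using he
  obtain ⟨w⟩ : Nonempty (Away c) := by
    have h1 := hone a (by simp)
    by_cases h2 : (quo D.g B a).1 = c
    · exact ⟨⟨_, h1.1 h2⟩⟩
    · exact ⟨⟨_, h2⟩⟩
  let out : D.E → Away c := fun e => if h1 : (quo D.g B e).1 ≠ c then ⟨_, h1⟩ else
    pr c w (quo D.g B e).2
  have hout : ∀ e ∈ ({a, b, d} : Finset D.E),
      quo D.g B e = (c, (out e : Comp D.g B)) ∨ quo D.g B e = ((out e : Comp D.g B), c) := by
    intro e he
    have h1 := hone e he
    by_cases h2 : (quo D.g B e).1 = c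
    · left
      have h3 := h1.1 h2
      have : (out e : Comp D.g B) = (quo D.g B e).2 := by
        simp only [out, dif_neg (not_not.2 h2), pr, dif_pos h3]
      rw [this]
      exact Prod.ext h2 rfl
    · right
      have h3 : (quo D.g B e).2 = c := by
        by_contra h4
        exact h2 (h1.2 h4)
      have : (out e : Comp D.g B) = (quo D.g B e).1 := by
        simp only [out, dif_pos h2]
      rw [this]
      exact Prod.ext rfl h3
  have hR : ∀ e ∈ D.rest A B \ {a, b, d}, (quo D.g B e).1 ≠ c ∧ (quo D.g B e).2 ≠ c := by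
    intro e he
    simp only [Finset.mem_sdiff, Finset.mem_insert, Finset.mem_singleton, not_or] at he
    exact h.none e he.1 he.2.1 he.2.2.1 he.2.2.2
  refine ⟨w, out, ?_⟩
  intro X hX
  have key : ∀ S' : Finset D.E, S' ⊆ D.rest A B \ {a, b, d} →
      (((B ∪ X ∪ S').card + 1 = Fintype.card D.V ∧ ∀ u v, Conn D.g (B ∪ X ∪ S') u v) ↔
      (Set.InjOn out (X : Set D.E) ∧ S' ∈ forests (away (quo D.g B) c w)
        (D.rest A B \ {a, b, d}) (X.image out))) := by
    intro S' hS'
    rw [← star_forest (quo D.g B) c w out (fun e he => hout e (hX he)) hR hS']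
    apply tree_transfer h.good (hX.trans hXr) (hS'.trans Finset.sdiff_subset)
    rw [Finset.disjoint_left]
    intro e he he'
    exact (Finset.mem_sdiff.1 (hS' he')).2 (hX he)
  -- the rest of a tree
  have hin : ∀ S ∈ D.trees (A ∪ (({a, b, d} : Finset D.E) \ X)) (B ∪ X),
      S \ (B ∪ X) ⊆ D.rest A B \ {a, b, d} ∧ B ∪ X ∪ (S \ (B ∪ X)) = S := by
    intro S hS
    obtain ⟨h1, h2, -, -⟩ := mem_trees_iff.1 hS
    constructor
    · intro e he
      rw [Finset.mem_sdiff, Finset.mem_union, not_or] at he
      obtain ⟨he1, he2, he3⟩ := he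
      have h3 : e ∉ A ∪ (({a, b, d} : Finset D.E) \ X) := fun h4 =>
        Finset.disjoint_left.1 h2 h4 he1
      rw [Finset.mem_union, not_or, Finset.mem_sdiff, not_and, not_not] at h3
      rw [Finset.mem_sdiff, mem_rest]
      exact ⟨⟨h3.1, he2⟩, fun h4 => he3 (h3.2 h4)⟩
    · exact Finset.union_sdiff_of_subset h1
  constructor
  · intro hinj
    unfold Diagram.N
    refine Finset.card_nbij' (fun S => S \ (B ∪ X)) (fun S' => B ∪ X ∪ S') ?_ ?_ ?_ ?_
    · intro S hS
      obtain ⟨h1, h2⟩ := hin S hS
      have h3 := mem_trees_iff.1 hS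
      have h4 := (key _ h1).1 (by rw [h2]; exact ⟨h3.2.2.1, h3.2.2.2⟩)
      exact h4.2
    · intro S' hS'
      have h0 : S' ⊆ D.rest A B \ {a, b, d} := by
        have := Finset.mem_coe.1 hS'
        unfold forests at this
        exact Finset.mem_powerset.1 (Finset.mem_filter.1 this).1
      have h4 := (key S' h0).2 ⟨hinj, hS'⟩
      apply Finset.mem_coe.2
      apply mem_trees_iff.2
      refine ⟨Finset.subset_union_left, ?_, h4.1, h4.2⟩
      rw [Finset.disjoint_left]
      intro e he he'
      have hb : ∀ e ∈ B, e ∉ A := fun e hB hA => Finset.disjoint_left.1 h.good.1 hA hB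
      simp only [Finset.mem_union] at he he'
      rcases he with he | he
      · rcases he' with (h5 | h5) | h5
        · exact hb e h5 he
        · exact (mem_rest.1 (hXr (hX h5))).1 he
        · exact (mem_rest.1 (Finset.sdiff_subset (h0 h5))).1 he
      · rw [Finset.mem_sdiff] at he
        rcases he' with (h5 | h5) | h5
        · exact (mem_rest.1 (hXr he.1)).2 h5
        · exact he.2 h5
        · exact (Finset.mem_sdiff.1 (h0 h5)).2 he.1
    · intro S hS
      exact (hin S hS).2
    · intro S' hS'
      have h0 : S' ⊆ D.rest A B \ {a, b, d} := by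
        have := Finset.mem_coe.1 hS'
        unfold forests at this
        exact Finset.mem_powerset.1 (Finset.mem_filter.1 this).1
      show (B ∪ X ∪ S') \ (B ∪ X) = S'
      rw [Finset.union_sdiff_left]
      apply Finset.sdiff_eq_self_of_disjoint
      rw [Finset.disjoint_left]
      intro e he he'
      have h1 := Finset.mem_sdiff.1 (h0 he)
      rcases Finset.mem_union.1 he' with h5 | h5
      · exact (mem_rest.1 h1.1).2 h5
      · exact h1.2 (hX h5)
  · intro hinj
    unfold Diagram.N
    rw [Finset.card_eq_zero, Finset.eq_empty_iff_forall_notMem]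
    intro S hS
    obtain ⟨h1, h2⟩ := hin S hS
    have h3 := mem_trees_iff.1 hS
    exact hinj ((key _ h1).1 (by rw [h2]; exact ⟨h3.2.2.1, h3.2.2.2⟩)).1

end Pool.Agent.Lib.TDen
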