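import Pool.Agent.Lib.TDen.Trans
import Pool.Agent.Lib.TDen.Ray

/-!
# The relations between the seven kinds of trees
-/

set_option autoImplicit false

namespace Pool.Agent.Lib.TDen

section Sets

variable {E : Type} [DecidableEq E] {A B : Finset E} {a b d : E}

lemma t2_ua (x : E) : B ∪ {x} = insert x B := by
  ext y
  simp only [Finset.mem_union, Finset.mem_singleton, Finset.mem_insert]
  tauto

lemma t2_a (hab : a ≠ b) (had : a ≠ d) :
    A ∪ (({a, b, d} : Finset E) \ {a}) = insert b (insert d A) := by
  ext y
  simp only [Finset.mem_union, Finset.mem_sdiff, Finset.mem_singleton, Finset.mem_insert]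
  constructor
  · tauto
  · rintro (rfl | rfl | h)
    · exact Or.inr ⟨Or.inr (Or.inl rfl), hab.symm⟩
    · exact Or.inr ⟨Or.inr (Or.inr rfl), had.symm⟩
    · exact Or.inl h

lemma t2_b (hab : a ≠ b) (hbd : b ≠ d) :
    A ∪ (({a, b, d} : Finset E) \ {b}) = insert a (insert d A) := by
  ext y
  simp only [Finset.mem_union, Finset.mem_sdiff, Finset.mem_singleton, Finset.mem_insert]
  constructor
  · tauto
  · rintro (rfl | rfl | h)
    · exact Or.inr ⟨Or.inl rfl, hab⟩
    · exact Or.inr ⟨Or.inr (Or.inr rfl), hbd.symm⟩
    · exact Or.inl h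

lemma t2_d (had : a ≠ d) (hbd : b ≠ d) :
    A ∪ (({a, b, d} : Finset E) \ {d}) = insert a (insert b A) := by
  ext y
  simp only [Finset.mem_union, Finset.mem_sdiff, Finset.mem_singleton, Finset.mem_insert]
  constructor
  · tauto
  · rintro (rfl | rfl | h)
    · exact Or.inr ⟨Or.inl rfl, had⟩
    · exact Or.inr ⟨Or.inr (Or.inl rfl), hbd⟩
    · exact Or.inl h

lemma t2_ab (had : a ≠ d) (hbd : b ≠ d) :
    A ∪ (({a, b, d} : Finset E) \ {a, b}) = insert d A := by
  ext y
  simp only [Finset.mem_union, Finset.mem_sdiff, Finset.mem_singleton, Finset.mem_insert]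
  constructor
  · tauto
  · rintro (rfl | h)
    · exact Or.inr ⟨Or.inr (Or.inr rfl), fun h => h.elim (fun h => had h.symm)
        fun h => hbd h.symm⟩
    · exact Or.inl h

lemma t2_ad (hab : a ≠ b) (hbd : b ≠ d) :
    A ∪ (({a, b, d} : Finset E) \ {a, d}) = insert b A := by
  ext y
  simp only [Finset.mem_union, Finset.mem_sdiff, Finset.mem_singleton, Finset.mem_insert]
  constructor
  · tauto
  · rintro (rfl | h)
    · exact Or.inr ⟨Or.inr (Or.inl rfl), fun h => h.elim (fun h => hab h.symm)
        fun h => hbd h⟩
    · exact Or.inl h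

lemma t2_bd (hab : a ≠ b) (had : a ≠ d) :
    A ∪ (({a, b, d} : Finset E) \ {b, d}) = insert a A := by
  ext y
  simp only [Finset.mem_union, Finset.mem_sdiff, Finset.mem_singleton, Finset.mem_insert]
  constructor
  · tauto
  · rintro (rfl | h)
    · exact Or.inr ⟨Or.inl rfl, fun h => h.elim (fun h => hab h)
        fun h => had h⟩
    · exact Or.inl h

lemma t2_abd : A ∪ (({a, b, d} : Finset E) \ {a, b, d}) = A := by
  simp

lemma t2_u2 (x y : E) : B ∪ {x, y} = insert x (insert y B) := by
  ext z
  simp only [Finset.mem_union, Finset.mem_singleton, Finset.mem_insert]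
  tauto

lemma t2_u3 (x y z : E) : B ∪ {x, y, z} = insert x (insert y (insert z B)) := by
  ext u
  simp only [Finset.mem_union, Finset.mem_singleton, Finset.mem_insert]
  tauto

end Sets

/-- from `star_count` (`X = {a}`, `{b}`, `{d}`) and `forests_root` -/
theorem star_single {D : Diagram} {A B : Finset D.E} {c : Comp D.g B} {a b d : D.E}
    (h : Star D A B c a b d) :
    D.N (insert b (insert d A)) (insert a B) = D.N (insert a (insert d A)) (insert b B) ∧
    D.N (insert b (insert d A)) (insert a B) = D.N (insert a (insert b A)) (insert d B) := by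
  obtain ⟨w, out, H⟩ := star_count h
  have ha := (H {a} (by simp)).1 (by simp)
  have hb := (H {b} (by simp)).1 (by simp)
  have hd := (H {d} (by simp)).1 (by simp)
  rw [t2_a h.ab h.ad, t2_ua, Finset.image_singleton] at ha
  rw [t2_b h.ab h.bd, t2_ua, Finset.image_singleton] at hb
  rw [t2_d h.ad h.bd, t2_ua, Finset.image_singleton] at hd
  rw [ha, hb, hd]
  exact ⟨congrArg Finset.card (forests_root _ _ _ _), congrArg Finset.card (forests_root _ _ _ _)⟩

/-- from `star_count` and `rayleigh`; if two of the outer ends are equal, the left side is `0` -/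
theorem star_rayleigh {D : Diagram} {A B : Finset D.E} {c : Comp D.g B} {a b d : D.E}
    (h : Star D A B c a b d) :
    12 * D.N (insert b (insert d A)) (insert a B) * D.N A (insert a (insert b (insert d B)))
      ≤ (D.N (insert d A) (insert a (insert b B)) + D.N (insert b A) (insert a (insert d B))
        + D.N (insert a A) (insert b (insert d B))) ^ 2 := by
  obtain ⟨w, out, H⟩ := star_count h
  have h3 := H {a, b, d} (Finset.Subset.refl _)
  rw [t2_abd, t2_u3] at h3
  by_cases hinj : Set.InjOn out (({a, b, d} : Finset D.E) : Set D.E)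
  · have hA : a ∈ (({a, b, d} : Finset D.E) : Set D.E) := by simp
    have hB : b ∈ (({a, b, d} : Finset D.E) : Set D.E) := by simp
    have hD : d ∈ (({a, b, d} : Finset D.E) : Set D.E) := by simp
    have nab : out a ≠ out b := fun e => h.ab (hinj hA hB e)
    have nad : out a ≠ out d := fun e => h.ad (hinj hA hD e)
    have nbd : out b ≠ out d := fun e => h.bd (hinj hB hD e)
    have e3 := h3.1 hinj
    have ea := (H {a} (by simp)).1 (by simp)
    have sab : ({a, b} : Finset D.E) ⊆ {a, b, d} := by
      intro x
      simp only [Finset.mem_insert, Finset.mem_singleton]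
      tauto
    have sad : ({a, d} : Finset D.E) ⊆ {a, b, d} := by
      intro x
      simp only [Finset.mem_insert, Finset.mem_singleton]
      tauto
    have sbd : ({b, d} : Finset D.E) ⊆ {a, b, d} := by
      intro x
      simp only [Finset.mem_insert, Finset.mem_singleton]
      tauto
    have eab := (H {a, b} sab).1 (hinj.mono (by exact_mod_cast sab))
    have ead := (H {a, d} sad).1 (hinj.mono (by exact_mod_cast sad))
    have ebd := (H {b, d} sbd).1 (hinj.mono (by exact_mod_cast sbd))
    rw [t2_a h.ab h.ad, t2_ua, Finset.image_singleton] at ea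
    rw [t2_ab h.ad h.bd, t2_u2, Finset.image_insert, Finset.image_singleton] at eab
    rw [t2_ad h.ab h.bd, t2_u2, Finset.image_insert, Finset.image_singleton] at ead
    rw [t2_bd h.ab h.ad, t2_u2, Finset.image_insert, Finset.image_singleton] at ebd
    rw [Finset.image_insert, Finset.image_insert, Finset.image_singleton] at e3
    rw [ea, e3, eab, ead, ebd]
    exact rayleigh _ _ nab nad nbd
  · rw [h3.2 hinj]
    simp

end Pool.Agent.Lib.TDen
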